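import Mathlib

/-! The rollback algorithm for congruence closure on an abstract well ordered system.

A system has elements `0, 1, 2, ...`; some of them are vertices, with a label and a list
of children which are smaller elements, and the others are atoms.  Partner pairs are
stored at the later element: `par v = some w` with `w < v`. -/

namespace Pool.Agent.CCL

/-- A well ordered system of vertices and atoms. -/
structure Sys where
  N : ℕ
  V : ℕ → Prop
  lab : ℕ → ℕ
  ch : ℕ → List ℕ
  hch : ∀ t, ∀ c ∈ ch t, c < t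
  hV : ∀ t, V t → t < N

namespace Sys

variable (S : Sys)

/-- The signature of `t` under the names `nm`. -/
def sig (nm : ℕ → ℕ) (t : ℕ) : List ℕ := S.lab t :: (S.ch t).map nm

/-- `R` is an equivalence relation, contains the partner pairs, and is closed under
congruences. -/
structure Closed (par : ℕ → Option ℕ) (R : ℕ → ℕ → Prop) : Prop where
  refl : ∀ u, R u u
  symm : ∀ u v, R u v → R v u
  trans : ∀ u v w, R u v → R v w → R u w
  pair : ∀ v w, par v = some w → R v w
  cong : ∀ u v, S.V u → S.V v → S.lab u = S.lab v → List.Forall₂ R (S.ch u) (S.ch v) → R u v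

/-- The congruence closure of the partner pairs. -/
def Cl (par : ℕ → Option ℕ) (u v : ℕ) : Prop := ∀ R, S.Closed par R → R u v

variable {S}

theorem Cl.closed (par : ℕ → Option ℕ) : S.Closed par (S.Cl par) where
  refl u R hR := hR.refl u
  symm u v h R hR := hR.symm _ _ (h R hR)
  trans u v w h h' R hR := hR.trans _ _ _ (h R hR) (h' R hR)
  pair v w h R hR := hR.pair v w h
  cong u v hu hv hl h R hR := hR.cong u v hu hv hl (h.imp (fun _ _ h' => h' R hR))

theorem Cl.le {par par' : ℕ → Option ℕ} (h : ∀ v w, par v = some w → S.Cl par' v w) {u v : ℕ}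
    (huv : S.Cl par u v) : S.Cl par' u v := by
  refine huv _ ?_
  exact
    { refl := (Cl.closed par').refl
      symm := (Cl.closed par').symm
      trans := (Cl.closed par').trans
      pair := h
      cong := (Cl.closed par').cong }

/-- The state of the algorithm before element `t`: the names of the elements below `t`
are consistent with the partner pairs and with congruence. -/
def Good (S : Sys) (par : ℕ → Option ℕ) (nm : ℕ → ℕ) (t : ℕ) : Prop :=
  ∀ v < t,
    (∀ w, par v = some w → w < v ∧ nm v = nm w) ∧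
    (∀ s < v, S.V s → S.V v → S.sig nm s = S.sig nm v → nm v = nm s) ∧
    (nm v = v ∨ (∃ w, par v = some w) ∨ (∃ s < v, S.V s ∧ S.V v ∧ S.sig nm s = S.sig nm v))

theorem Good.mono {par : ℕ → Option ℕ} {nm : ℕ → ℕ} {t t' : ℕ} (h : S.Good par nm t)
    (htt : t' ≤ t) : S.Good par nm t' := fun v hv => h v (lt_of_lt_of_le hv htt)

theorem sig_congr {nm nm' : ℕ → ℕ} {t : ℕ} (h : ∀ v < t, nm v = nm' v) :
    S.sig nm t = S.sig nm' t := by
  unfold sig
  congr 1
  exact List.map_congr_left fun c hc => h c (S.hch t c hc)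

/-- `Good` only depends on the pairs and names below `t`. -/
theorem Good.congr {par par' : ℕ → Option ℕ} {nm nm' : ℕ → ℕ} {t : ℕ} (h : S.Good par nm t)
    (hp : ∀ v < t, par v = par' v) (hn : ∀ v < t, nm v = nm' v) : S.Good par' nm' t := by
  intro v hv
  obtain ⟨h1, h2, h3⟩ := h v hv
  have hs : ∀ s, s ≤ v → S.sig nm s = S.sig nm' s := fun s hs =>
    sig_congr fun u hu => hn u (by omega)
  refine ⟨fun w hw => ?_, fun s hs' hVs hVv hsig => ?_, ?_⟩
  · rw [← hp v hv] at hw
    obtain ⟨h4, h5⟩ := h1 w hw
    exact ⟨h4, by rw [← hn v hv, ← hn w (by omega)]; exact h5⟩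
  · rw [← hn v hv, ← hn s (by omega)]
    refine h2 s hs' hVs hVv ?_
    rw [hs s hs'.le, hs v le_rfl, hsig]
  · rcases h3 with h3 | ⟨w, hw⟩ | ⟨s, hs', hVs, hVv, hsig⟩
    · left; rw [← hn v hv]; exact h3
    · right; left; exact ⟨w, by rw [← hp v hv]; exact hw⟩
    · right; right
      exact ⟨s, hs', hVs, hVv, by rw [← hs s hs'.le, ← hs v le_rfl, hsig]⟩

/-- Names are smallest representatives. -/
theorem Good.rep {par : ℕ → Option ℕ} {nm : ℕ → ℕ} {t : ℕ} (h : S.Good par nm t) :
    ∀ v < t, nm v ≤ v ∧ nm (nm v) = nm v := by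
  intro v
  induction v using Nat.strong_induction_on with
  | _ v ih =>
    intro hv
    obtain ⟨h1, h2, h3⟩ := h v hv
    rcases h3 with h3 | ⟨w, hw⟩ | ⟨s, hs, hVs, hVv, hsig⟩
    · rw [h3]; exact ⟨le_rfl, h3⟩
    · obtain ⟨h4, h5⟩ := h1 w hw
      obtain ⟨h6, h7⟩ := ih w h4 (by omega)
      rw [h5]; exact ⟨by omega, h7⟩
    · have h5 := h2 s hs hVs hVv hsig
      obtain ⟨h6, h7⟩ := ih s hs (by omega)
      rw [h5]; exact ⟨by omega, h7⟩

/-- A name has no partner. -/
theorem Good.par_nm {par : ℕ → Option ℕ} {nm : ℕ → ℕ} {t : ℕ} (h : S.Good par nm t) {v : ℕ}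
    (hv : v < t) : par (nm v) = none := by
  by_contra hne
  obtain ⟨w, hw⟩ := Option.ne_none_iff_exists'.mp hne
  obtain ⟨h6, h7⟩ := h.rep v hv
  have hlt : nm v < t := by omega
  obtain ⟨h4, h5⟩ := (h (nm v) hlt).1 w hw
  have := (h.rep w (by omega)).1
  omega

/-- The pairs stored below `t`. -/
def cut (t : ℕ) (par : ℕ → Option ℕ) : ℕ → Option ℕ := fun v => if v < t then par v else none

theorem Good.sound {par : ℕ → Option ℕ} {nm : ℕ → ℕ} {t : ℕ} (h : S.Good par nm t) :
    ∀ v < t, S.Cl (cut t par) (nm v) v := by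
  have hC := Cl.closed (S := S) (cut t par)
  intro v
  induction v using Nat.strong_induction_on with
  | _ v ih =>
    intro hv
    obtain ⟨h1, h2, h3⟩ := h v hv
    rcases h3 with h3 | ⟨w, hw⟩ | ⟨s, hs, hVs, hVv, hsig⟩
    · rw [h3]; exact hC.refl _
    · obtain ⟨h4, h5⟩ := h1 w hw
      rw [h5]
      refine hC.trans _ _ _ (ih w h4 (by omega)) (hC.symm _ _ (hC.pair _ _ ?_))
      simp [cut, hv, hw]
    · rw [h2 s hs hVs hVv hsig]
      refine hC.trans _ _ _ (ih s hs (by omega)) (hC.cong _ _ hVs hVv ?_ ?_)
      · simpa [sig] using (List.cons.inj hsig).1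
      · have hmap : (S.ch s).map nm = (S.ch v).map nm := (List.cons.inj hsig).2
        rw [List.forall₂_iff_get]
        have hlen : (S.ch s).length = (S.ch v).length := by
          simpa using congrArg List.length hmap
        refine ⟨hlen, fun i h4 h5 => ?_⟩
        have h6 : nm ((S.ch s).get ⟨i, h4⟩) = nm ((S.ch v).get ⟨i, h5⟩) := by
          have := List.getElem_of_eq hmap (i := i) (by simpa using h4)
          simpa using this
        have h7 : (S.ch s).get ⟨i, h4⟩ < s := S.hch _ _ (List.get_mem _ _)
        have h8 : (S.ch v).get ⟨i, h5⟩ < v := S.hch _ _ (List.get_mem _ _)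
        refine hC.trans _ _ _ (hC.symm _ _ (ih _ (by omega) (by omega))) ?_
        rw [h6]
        exact ih _ h8 (by omega)

/-- The forward step. -/
theorem Good.step {par : ℕ → Option ℕ} {nm : ℕ → ℕ} {t x : ℕ} (h : S.Good par nm t)
    (h1 : ∀ w, par t = some w → w < t ∧ x = nm w)
    (h2 : ∀ s < t, S.V s → S.V t → S.sig nm s = S.sig nm t → x = nm s)
    (h3 : x = t ∨ (∃ w, par t = some w) ∨ (∃ s < t, S.V s ∧ S.V t ∧ S.sig nm s = S.sig nm t)) :
    S.Good par (Function.update nm t x) (t + 1) := by
  have hag : ∀ v < t, nm v = Function.update nm t x v := fun v hv => by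
    rw [Function.update_of_ne (by omega)]
  intro v hv
  rcases Nat.lt_succ_iff_lt_or_eq.mp hv with hlt | rfl
  · exact h.congr (fun _ _ => rfl) hag v hlt
  · have hs : ∀ s, s ≤ v → S.sig (Function.update nm v x) s = S.sig nm s := fun s hs =>
      (sig_congr fun u hu => hag u (by omega)).symm
    refine ⟨fun w hw => ?_, fun s hs' hVs hVv hsig => ?_, ?_⟩
    · obtain ⟨h4, h5⟩ := h1 w hw
      refine ⟨h4, ?_⟩
      rw [Function.update_self, ← hag w h4]; exact h5
    · rw [Function.update_self, ← hag s hs']
      refine h2 s hs' hVs hVv ?_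
      rw [← hs s hs'.le, hsig, hs v le_rfl]
    · rcases h3 with h3 | h3 | ⟨s, hs', hVs, hVv, hsig⟩
      · left; rw [Function.update_self]; exact h3
      · right; left; exact h3
      · right; right
        exact ⟨s, hs', hVs, hVv, by rw [hs s hs'.le, hs v le_rfl, hsig]⟩

/-- The pairs after a conflict at `t`: the pair at `t` is deleted and the pair
`(lo, hi)` of the two names is stored at `hi`. -/
def conf (par : ℕ → Option ℕ) (t hi lo : ℕ) : ℕ → Option ℕ :=
  Function.update (Function.update par t none) hi (some lo)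

/-- In a conflict at `t` the closure does not change. -/
theorem Good.conf {par : ℕ → Option ℕ} {nm : ℕ → ℕ} {t w s : ℕ} (h : S.Good par nm t)
    (hw : par t = some w) (hwt : w < t) (hs : s < t) (hVs : S.V s) (hVt : S.V t)
    (hsig : S.sig nm s = S.sig nm t) {hi lo : ℕ}
    (hl : (hi = nm w ∧ lo = nm s) ∨ (hi = nm s ∧ lo = nm w)) (hlt : lo < hi) :
    hi < t ∧ par hi = none ∧ (∀ u v, S.Cl (conf par t hi lo) u v ↔ S.Cl par u v) := by
  have hhi : hi < t := by
    rcases hl with ⟨rfl, -⟩ | ⟨rfl, -⟩
    · exact lt_of_le_of_lt (h.rep w hwt).1 hwt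
    · exact lt_of_le_of_lt (h.rep s hs).1 hs
  have hnone : par hi = none := by
    rcases hl with ⟨rfl, -⟩ | ⟨rfl, -⟩
    · exact h.par_nm hwt
    · exact h.par_nm hs
  refine ⟨hhi, hnone, fun u v => ?_⟩
  -- `s` and `t` are congruent, in any closure which contains the pairs below `t`
  have key : ∀ par' : ℕ → Option ℕ, (∀ v w, v < t → par v = some w → S.Cl par' v w) →
      S.Cl par' (nm s) t ∧ S.Cl par' (nm w) w := by
    intro par' hpar'
    have hC := Cl.closed (S := S) par'
    have hle : ∀ x y, S.Cl (cut t par) x y → S.Cl par' x y := fun x y hxy =>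
      Cl.le (fun v w hvw => by
        by_cases hv : v < t
        · exact hpar' v w hv (by simpa [cut, hv] using hvw)
        · simp [cut, hv] at hvw) hxy
    have hnm : ∀ x < t, S.Cl par' (nm x) x := fun x hx => hle _ _ (h.sound x hx)
    refine ⟨hC.trans _ _ _ (hnm s hs) (hC.cong _ _ hVs hVt ?_ ?_), hnm w hwt⟩
    · simpa [sig] using (List.cons.inj hsig).1
    · have hmap : (S.ch s).map nm = (S.ch t).map nm := (List.cons.inj hsig).2
      rw [List.forall₂_iff_get]
      have hlen : (S.ch s).length = (S.ch t).length := by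
        simpa using congrArg List.length hmap
      refine ⟨hlen, fun i h4 h5 => ?_⟩
      have h6 : nm ((S.ch s).get ⟨i, h4⟩) = nm ((S.ch t).get ⟨i, h5⟩) := by
        have := List.getElem_of_eq hmap (i := i) (by simpa using h4)
        simpa using this
      have h7 : (S.ch s).get ⟨i, h4⟩ < s := S.hch _ _ (List.get_mem _ _)
      have h8 : (S.ch t).get ⟨i, h5⟩ < t := S.hch _ _ (List.get_mem _ _)
      refine hC.trans _ _ _ (hC.symm _ _ (hnm _ (by omega))) ?_
      rw [h6]
      exact hnm _ h8
  constructor
  · refine Cl.le ?_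
    intro v' w' hvw
    have hC := Cl.closed (S := S) par
    by_cases hv : v' = hi
    · subst hv
      have hw' : w' = lo := by
        have : CCL.Sys.conf par t v' lo v' = some lo := by simp [CCL.Sys.conf]
        rw [this] at hvw; exact (Option.some.inj hvw).symm
      subst hw'
      obtain ⟨k1, k2⟩ := key par (fun v w _ hvw => hC.pair _ _ hvw)
      have k3 : S.Cl par (nm s) (nm w) :=
        hC.trans _ _ _ k1 (hC.trans _ _ _ (hC.pair _ _ hw) (hC.symm _ _ k2))
      rcases hl with ⟨rfl, rfl⟩ | ⟨rfl, rfl⟩
      · exact hC.symm _ _ k3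
      · exact k3
    · have hvt : v' ≠ t := by
        rintro rfl
        simp [CCL.Sys.conf, hv] at hvw
      have : CCL.Sys.conf par t hi lo v' = par v' := by
        simp [CCL.Sys.conf, hv, hvt]
      rw [this] at hvw
      exact hC.pair _ _ hvw
  · refine Cl.le ?_
    intro v' w' hvw
    have hC := Cl.closed (S := S) (CCL.Sys.conf par t hi lo)
    have hold : ∀ v w, v ≠ t → par v = some w → S.Cl (CCL.Sys.conf par t hi lo) v w := by
      intro v w hv hvw
      have hne : v ≠ hi := by
        rintro rfl; rw [hnone] at hvw; exact absurd hvw (by simp)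
      exact hC.pair _ _ (by simp [CCL.Sys.conf, hne, hv, hvw])
    by_cases hv : v' = t
    · subst hv
      have hw' : w' = w := by rw [hw] at hvw; exact (Option.some.inj hvw).symm
      subst hw'
      obtain ⟨k1, k2⟩ := key (CCL.Sys.conf par v' hi lo)
        (fun v w hv hvw => hold v w (by omega) hvw)
      have k3 : S.Cl (CCL.Sys.conf par v' hi lo) hi lo :=
        hC.pair _ _ (by simp [CCL.Sys.conf])
      have k4 : S.Cl (CCL.Sys.conf par v' hi lo) (nm s) (nm w') := by
        rcases hl with ⟨rfl, rfl⟩ | ⟨rfl, rfl⟩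
        · exact hC.symm _ _ k3
        · exact k3
      exact hC.trans _ _ _ (hC.symm _ _ k1) (hC.trans _ _ _ k4 k2)
    · exact hold _ _ hv hvw

/-- At the end the names describe the closure. -/
theorem Good.final {par : ℕ → Option ℕ} {nm : ℕ → ℕ} (h : S.Good par nm S.N)
    (hp : ∀ v, S.N ≤ v → par v = none) {u v : ℕ} (hu : u < S.N) (hv : v < S.N) :
    nm u = nm v ↔ S.Cl par u v := by
  have hC := Cl.closed (S := S) par
  have hcut : cut S.N par = par := by
    funext x
    by_cases hx : x < S.N
    · simp [cut, hx]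
    · simp [cut, hx, hp x (by omega)]
  constructor
  · intro huv
    have h1 := h.sound u hu
    have h2 := h.sound v hv
    rw [hcut] at h1 h2
    refine hC.trans _ _ _ (hC.symm _ _ h1) ?_
    rw [huv]; exact h2
  · intro huv
    have hR : S.Closed par (fun x y => (if x < S.N then nm x else x) = (if y < S.N then nm y else y)) := by
      refine ⟨fun _ => rfl, fun _ _ h => h.symm, fun _ _ _ h h' => h.trans h', ?_, ?_⟩
      · intro x y hxy
        have hx : x < S.N := by
          by_contra hx
          rw [hp x (by omega)] at hxy; exact absurd hxy (by simp)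
        obtain ⟨h1, h2⟩ := (h x hx).1 y hxy
        simp [hx, show y < S.N by omega, h2]
      · intro x y hVx hVy hl hf
        have hx := S.hV x hVx
        have hy := S.hV y hVy
        have hmap : (S.ch x).map nm = (S.ch y).map nm := by
          rw [List.forall₂_iff_get] at hf
          obtain ⟨hlen, hf⟩ := hf
          refine List.ext_getElem (by simpa using hlen) fun i h1 h2 => ?_
          have h1' : i < (S.ch x).length := by simpa using h1
          have h2' : i < (S.ch y).length := by simpa using h2
          have h3 := hf i h1' h2'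
          have h4 : (S.ch x).get ⟨i, h1'⟩ < x := S.hch _ _ (List.get_mem _ _)
          have h5 : (S.ch y).get ⟨i, h2'⟩ < y := S.hch _ _ (List.get_mem _ _)
          simp only [show (S.ch x).get ⟨i, h1'⟩ < S.N by omega,
            show (S.ch y).get ⟨i, h2'⟩ < S.N by omega, if_true] at h3
          simpa using h3
        have hsig : S.sig nm x = S.sig nm y := by simp only [sig, hl, hmap]
        simp only [hx, hy, if_true]
        rcases lt_trichotomy x y with hxy | rfl | hxy
        · exact ((h y hy).2.1 x hxy hVx hVy hsig).symm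
        · rfl
        · exact (h x hx).2.1 y hxy hVy hVx hsig.symm
    have := huv _ hR
    simpa [hu, hv] using this

end Sys

end Pool.Agent.CCL
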