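import Pool.Agent.CCL.MainInv

/-! The cases of the body of the main loop. -/

namespace Pool.Agent.CCL

open Ex Cn Prog

/-- The state after the walk at a vertex element. -/
structure Mid (G : NInst) {pos ord : ℕ → ℕ} (h : OrdOK G pos ord) (B : ℕ) (s s4 : St) :
    Prop where
  v0 : s4.v 0 = s.v 0
  v1 : s4.v 1 = s.v 1
  v7 : s4.v 7 = s.v 7
  v8 : s4.v 8 = s.v 8
  v21 : s4.v 21 = s.v 21
  a0 : s4.a 0 = s.a 0
  a1 : s4.a 1 = s.a 1
  a2 : s4.a 2 = s.a 2
  a3 : s4.a 3 = s.a 3
  a4 : s4.a 4 = s.a 4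
  a9 : s4.a 9 = s.a 9
  a10 : s4.a 10 = s.a 10
  a11 : s4.a 11 = s.a 11
  a12 : s4.a 12 = s.a 12
  a15 : s4.a 15 = Function.update (s.a 15) (s.v 8) (s.v 9)
  a16 : s4.a 16 = Function.update (s.a 16) (s.v 8) (s.v 10)
  fol : fol (s4.a 13) 0 ((mkSys G pos ord h).sig (s.a 12) (s.v 8)) = some (s4.v 11)
  grow : Grow B (s.a 13) (s.v 10) (s.v 9) (s4.a 13) (s4.v 10) (s4.a 14) (s4.v 9)
  hf : s4.v 10 ≤ s.v 10 + B * (1 + ((mkSys G pos ord h).ch (s.v 8)).length)
  hsp : s4.v 9 ≤ s.v 9 + (1 + ((mkSys G pos ord h).ch (s.v 8)).length)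
  st : ∀ i < s.v 9, s4.a 14 i = s.a 14 i
  v15 : s4.v 15 = s4.a 13 (s4.v 11)

/-- What a step forward achieves. -/
def Fwd (G : NInst) {pos ord : ℕ → ℕ} (h : OrdOK G pos ord) (B : ℕ) (par0 : ℕ → Option ℕ)
    (s s' : St) : Prop :=
  MInv G h B par0 s' ∧ s'.a 11 = s.a 11 ∧ s'.v 8 = s.v 8 + 1

section

variable {G : NInst} {pos ord : ℕ → ℕ} {h : OrdOK G pos ord} {B b : ℕ} {par0 : ℕ → Option ℕ}
  {s s4 : St}

theorem Mid.inp (M : Mid G h B s s4) (hI : G.Inp s) : G.Inp s4 :=
  hI.congr M.v0 M.v1 M.a0 M.a1 M.a2 M.a3 M.a4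

theorem vert (h : OrdOK G pos ord) {t : ℕ} (h1 : G.n ≤ t) (h2 : t < G.n + G.n) :
    (mkSys G pos ord h).V t := ⟨h1, h2⟩

/-- The name of the new element is consistent. -/
theorem good_newName (I : MInv G h B par0 s)
    (hsig : ∀ r < s.v 8, (mkSys G pos ord h).V r → (mkSys G pos ord h).V (s.v 8) →
      (mkSys G pos ord h).sig (s.a 12) r ≠ (mkSys G pos ord h).sig (s.a 12) (s.v 8)) :
    (mkSys G pos ord h).Good (fun e => dec (s.a 11 e))
      (Function.update (s.a 12) (s.v 8) (newName s)) (s.v 8 + 1) := by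
  refine I.good.step (fun w hw => ?_) (fun r hr hVr hVt he => absurd he (hsig r hr hVr hVt)) ?_
  · have h1 := I.plt _ _ hw
    refine ⟨h1.1, ?_⟩
    rw [dec_eq_some] at hw
    simp [newName, hw]
  · by_cases h0 : s.a 11 (s.v 8) = 0
    · left; simp [newName, h0]
    · right; left
      exact ⟨_, dec_eq_some.mpr (Nat.succ_pred_eq_of_pos (Nat.pos_of_ne_zero h0)).symm⟩

theorem newName_lt (I : MInv G h B par0 s) (ht : s.v 8 < G.n + G.n) :
    newName s < G.n + G.n := by
  unfold newName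
  split
  · exact ht
  · rename_i h0
    have h1 := I.plt (s.v 8) (s.a 11 (s.v 8) - 1)
      (dec_eq_some.mpr (Nat.succ_pred_eq_of_pos (Nat.pos_of_ne_zero h0)).symm)
    exact lt_of_le_of_lt (I.good.rep _ h1.1).1 (by omega)

/-- An atom. -/
theorem atom_spec (I : MInv G h B par0 s) (ht : s.v 8 < G.n) (hb : G.n + G.n + 2 ≤ b)
    {s2 : St} (e : s2 = (s.seta 15 (s.v 8) (s.v 9)).seta 16 (s.v 8) (s.v 10)) :
    Sp b (blk [nameNew, set 8 (add (var 8) (const 1))]) s2
      (fun s' c => Fwd G h B par0 s s' ∧ c ≤ 50) := by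
  subst e
  have hVt : ¬ (mkSys G pos ord h).V (s.v 8) := fun hV => by
    have : G.n ≤ s.v 8 := hV.1
    omega
  refine Sp.cons (Sp.mono (nameNew_spec (by omega)) ?_)
  rintro s3 c3 ⟨rfl, hc3⟩
  have hnn : newName ((s.seta 15 (s.v 8) (s.v 9)).seta 16 (s.v 8) (s.v 10)) = newName s := by
    simp [newName, St.seta_a]
  refine Sp.cons (Sp.set (by simp; omega) (Sp.nil ?_))
  rw [hnn]
  refine ⟨⟨?_, by simp [St.seta_a], by simp [St.setv_v]⟩, by simp; omega⟩
  have hgood := good_newName (h := h) I (fun r hr hVr hV => absurd hV hVt)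
  refine I.forward (y := newName s) (by omega) (I.inp.congr ?_ ?_ ?_ ?_ ?_ ?_ ?_) ?_ ?_ ?_ ?_ ?_ ?_ ?_ ?_ ?_
    hgood ?_ ?_ ?_ ?_ ?_ ?_
  all_goals simp only [St.setv_v, St.seta_v, St.setv_a, St.seta_a, Ex.eval]
  all_goals try norm_num
  · rw [seg_self, zo_empty]
  · exact I.tab_now.succ_atom hVt _

/-- A vertex with a new signature. -/
theorem new_spec (I : MInv G h B par0 s) (hn : G.n ≤ s.v 8) (ht : s.v 8 < G.n + G.n)
    (hB : 0 < B) (hsm : Small (mkSys G pos ord h) B (s.a 12) (s.v 8 + 1))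
    (M : Mid G h B s s4) (h0 : s4.v 15 = 0) (hb : G.n + G.n + 2 ≤ b)
    (hb2 : s.v 9 + ((mkSys G pos ord h).ch (s.v 8)).length + 4 ≤ b) :
    Sp b (blk [
          nameNew,
          put 13 (var 11) (add (get 12 (var 8)) (const 1)),
          put 14 (var 9) (var 11),
          set 9 (add (var 9) (const 1)),
          set 8 (add (var 8) (const 1))]) s4
      (fun s' c => Fwd G h B par0 s s' ∧ c ≤ 100) := by
  have hVt := vert h hn ht
  have hnew : s4.a 13 (s4.v 11) = 0 := by rw [← M.v15]; exact h0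
  have hf0 : 0 < s4.v 10 := lt_of_lt_of_le hB M.grow.ti.le
  obtain ⟨hxB, hxf⟩ := M.grow.ti.fol_node (dvd_zero B) hf0 (hsm (s.v 8) (by omega) hVt) M.fol
  have hnn : newName s4 = newName s := by simp [newName, M.a11, M.a12, M.v8]
  have hlt := newName_lt I ht
  have hgood := good_newName (h := h) I
    (fun r hr hVr _ => lookup_new I.tab_now M.grow M.fol hnew r hr hVr)
  have htab := I.tab_now.succ_new hB M.grow hsm hVt M.fol hnew (newName s)
  have hsp := M.hsp
  refine Sp.cons (Sp.mono (nameNew_spec (by omega)) ?_)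
  rintro s5 c5 ⟨rfl, hc5⟩
  rw [hnn, M.v8]
  refine Sp.cons (Sp.put (by simp) (by simp [M.v8]; omega) ?_)
  refine Sp.cons (Sp.put (by simp) (by simp) ?_)
  refine Sp.cons (Sp.set (by simp; omega) ?_)
  refine Sp.cons (Sp.set (by simp [St.setv_v, M.v8]; omega) (Sp.nil ?_))
  refine ⟨⟨?_, by simp [St.seta_a, M.a11], by simp [St.setv_v, M.v8]⟩, by simp; omega⟩
  refine I.forward (y := newName s) ht (I.inp.congr ?_ ?_ ?_ ?_ ?_ ?_ ?_) ?_ ?_ ?_ ?_ ?_ ?_ ?_ ?_ ?_
    hgood ?_ ?_ ?_ ?_ ?_ ?_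
  all_goals simp only [St.setv_v, St.seta_v, St.setv_a, St.seta_a, Ex.eval, M.v8, M.a12]
  all_goals norm_num
  all_goals try first
    | exact M.v0 | exact M.v1 | exact M.v7 | exact M.v21 | exact M.a0 | exact M.a1 | exact M.a2
    | exact M.a3 | exact M.a4 | exact M.a9 | exact M.a10 | exact M.a11 | exact M.a15
    | exact M.a16
  · exact M.grow.put hxB hnew
  · intro i hi
    have := M.grow.hh
    rw [Function.update_of_ne (by omega)]
    exact M.st i hi
  · have := M.grow.hh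
    omega
  · omega
  · exact M.hf
  · exact htab

/-- A vertex with an old signature and a consistent or no partner. -/
theorem old_spec (I : MInv G h B par0 s) (hn : G.n ≤ s.v 8) (ht : s.v 8 < G.n + G.n)
    (hB : 0 < B) (hsm : Small (mkSys G pos ord h) B (s.a 12) (s.v 8 + 1))
    (M : Mid G h B s s4) {y : ℕ} (hy : s4.a 13 (s4.v 11) = y + 1)
    (hpar : ∀ w, dec (s.a 11 (s.v 8)) = some w → y = s.a 12 w)
    {s' : St} (es' : s' = (s4.seta 12 (s.v 8) y).setv 8 (s.v 8 + 1) ∨
      s' = ((s4.setv 16 y).seta 12 (s.v 8) y).setv 8 (s.v 8 + 1)) :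
    Fwd G h B par0 s s' := by
  have hVt := vert h hn ht
  obtain ⟨r, hr, hVr, hsigr, hyr⟩ := lookup_old hB I.tab_now M.grow hsm hVt M.fol
    (by rw [hy]; omega)
  have hyr' : y = s.a 12 r := by omega
  have hgood : (mkSys G pos ord h).Good (fun e => dec (s.a 11 e))
      (Function.update (s.a 12) (s.v 8) y) (s.v 8 + 1) := by
    refine I.good.step (fun w hw => ⟨(I.plt _ _ hw).1, hpar w hw⟩)
      (fun q hq hVq _ hsigq => ?_) (Or.inr (Or.inr ⟨r, hr, hVr, hVt, hsigr⟩))
    rw [hyr']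
    rcases lt_trichotomy q r with hqr | rfl | hqr
    · exact (I.good r hr).2.1 q hqr hVq hVr (hsigq.trans hsigr.symm)
    · rfl
    · exact ((I.good q hq).2.1 r hqr hVr hVq (hsigr.trans hsigq.symm)).symm
  have htab := I.tab_now.succ_old hB M.grow hsm hVt M.fol hy
  have hsp := M.hsp
  rcases es' with rfl | rfl
  all_goals
    refine ⟨?_, by simp [St.seta_a, M.a11], by simp [St.setv_v]⟩
    refine I.forward (y := y) ht (I.inp.congr ?_ ?_ ?_ ?_ ?_ ?_ ?_) ?_ ?_ ?_ ?_ ?_ ?_ ?_ ?_ ?_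
      hgood ?_ ?_ ?_ ?_ ?_ ?_
    all_goals simp only [St.setv_v, St.seta_v, St.setv_a, St.seta_a, M.a12]
    all_goals norm_num
    all_goals try first
      | exact M.v0 | exact M.v1 | exact M.v7 | exact M.v21 | exact M.a0 | exact M.a1
      | exact M.a2 | exact M.a3 | exact M.a4 | exact M.a9 | exact M.a10 | exact M.a11
      | exact M.a15 | exact M.a16 | exact M.grow.undo | exact M.st | exact M.grow.hh
      | exact M.hf | exact htab
    omega

/-- A conflict. -/
theorem conflict_spec (I : MInv G h B par0 s) (hn : G.n ≤ s.v 8) (ht : s.v 8 < G.n + G.n)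
    (hB : 0 < B) (hsm : Small (mkSys G pos ord h) B (s.a 12) (s.v 8 + 1))
    (M : Mid G h B s s4) {y w : ℕ} (hy : s4.a 13 (s4.v 11) = y + 1)
    (hw : dec (s.a 11 (s.v 8)) = some w) (hne : s.a 12 w ≠ y)
    (hb : G.n + G.n + 2 ≤ b) :
    Sp b conflict (s4.setv 16 (s.a 12 w)) (fun s' c => MInv G h B par0 s' ∧ s'.v 8 < s.v 8 ∧
      c + 40 * wt (mkSys G pos ord h) (s'.v 8) ≤
        200 + 40 * wt (mkSys G pos ord h) (s.v 8 + 1) ∧
      pot (mkSys G pos ord h) (G.n + G.n) (s'.a 11) +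
        (wt (mkSys G pos ord h) (s.v 8) + wt (mkSys G pos ord h) (s.v 8 + 1)) =
      pot (mkSys G pos ord h) (G.n + G.n) (s.a 11) +
        (wt (mkSys G pos ord h) (s'.v 8) + wt (mkSys G pos ord h) (s'.v 8 + 1))) := by
  have hVt := vert h hn ht
  obtain ⟨r, hr, hVr, hsigr, hyr⟩ := lookup_old hB I.tab_now M.grow hsm hVt M.fol
    (by rw [hy]; omega)
  have hyr' : y = s.a 12 r := by omega
  have hwt := (I.plt _ _ hw).1
  have hw11 : s.a 11 (s.v 8) = w + 1 := dec_eq_some.mp hw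
  -- the final argument, for both orders of the names
  have key : ∀ hi lo : ℕ, ((hi = s.a 12 w ∧ lo = s.a 12 r) ∨ (hi = s.a 12 r ∧ lo = s.a 12 w)) →
      lo < hi → ∀ s5 : St, s5.v 17 = hi → s5.v 18 = lo →
      s5.v 0 = s.v 0 → s5.v 1 = s.v 1 → s5.v 7 = s.v 7 → s5.v 21 = s.v 21 →
      s5.v 9 = s4.v 9 → s5.a = (s4.seta 11 (s.v 8) 0).a →
      Sp b (blk [
        put 11 (var 17) (add (var 18) (const 1)),
        undoLoop,
        set 10 (get 16 (var 17)),
        set 8 (var 17)]) s5 (fun s' c => MInv G h B par0 s' ∧ s'.v 8 < s.v 8 ∧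
          c + 40 * wt (mkSys G pos ord h) (s'.v 8) ≤
            100 + 40 * wt (mkSys G pos ord h) (s.v 8 + 1) ∧
          pot (mkSys G pos ord h) (G.n + G.n) (s'.a 11) +
            (wt (mkSys G pos ord h) (s.v 8) + wt (mkSys G pos ord h) (s.v 8 + 1)) =
          pot (mkSys G pos ord h) (G.n + G.n) (s.a 11) +
            (wt (mkSys G pos ord h) (s'.v 8) + wt (mkSys G pos ord h) (s'.v 8 + 1))) := by
    intro hi lo hl hlt s5 e17 e18 e0 e1 e7 e21 e9 ea
    obtain ⟨c1, c2, c3⟩ := I.good.conf (hi := hi) (lo := lo) hw hwt hr hVr hVt hsigr hl hlt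
    have c2' : s.a 11 hi = 0 := dec_eq_none.mp c2
    have hHhi : s.a 15 hi = Hh s hi := by simp [Hh, c1]
    have hHle : s.a 15 hi ≤ s.v 9 := by rw [hHhi]; exact I.Hh_le c1.le
    have hhh := M.grow.hh
    have h15 : (s4.seta 11 (s.v 8) 0).a 15 hi = s.a 15 hi := by
      simp only [St.seta_a, M.a15]
      norm_num
      rw [Function.update_of_ne (by omega)]
    refine Sp.cons (Sp.put (by simp) (by simp [e18]; omega) ?_)
    refine Sp.cons (Sp.mono_run (undo_spec (by omega) ?_) ?_)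
    · simp only [St.seta_v, Ex.eval, e17, e9, St.seta_a]
      norm_num
      rw [ea, h15]
      omega
    intro s6 c6 hrun hc6
    obtain ⟨h9, h13, hcost⟩ := hc6
    have f8 : ∀ x, undoLoop.wv x = false → s6.v x = s5.v x := fun x hx => by
      rw [hrun.frame_v hx]; rfl
    have fa : ∀ A, A ≠ 11 → undoLoop.wa A = false → s6.a A = s5.a A := fun A hA hx => by
      rw [hrun.frame_a hx, St.seta_a_ne _ hA]
    refine Sp.cons (Sp.set (by simp) ?_)
    refine Sp.cons (Sp.set (by simp) (Sp.nil ?_))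
    have g17 : s6.v 17 = hi := by rw [f8 17 (by decide), e17]
    have ea' : ∀ A, A ≠ 11 → s5.a A = s4.a A := fun A hA => by
      rw [ea, St.seta_a_ne _ hA]
    have g11 : s6.a 11 = Function.update (Function.update (s.a 11) (s.v 8) 0) hi (lo + 1) := by
      rw [hrun.frame_a (by decide)]
      simp only [Ex.eval, e17, e18, St.seta_a]
      norm_num
      rw [ea, St.seta_a_self, M.a11]
    have g9 : s6.v 9 = s.a 15 hi := by
      rw [h9]
      simp only [St.seta_v, Ex.eval, e17, St.seta_a]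
      norm_num
      rw [ea, h15]
    have g13 : s6.a 13 = zo (s4.a 13) (seg (s4.a 14) (s.a 15 hi) (s4.v 9)) := by
      rw [h13]
      simp only [St.seta_v, Ex.eval, e17, e9, St.seta_a]
      norm_num
      rw [ea, h15]
      simp only [St.seta_a]
      norm_num
    have g16 : s6.a 16 hi = s.a 16 hi := by
      rw [fa 16 (by decide) (by decide), ea' 16 (by decide), M.a16,
        Function.update_of_ne (by omega)]
    have hcost' : c6 ≤ 20 * (s4.v 9 - s.a 15 hi) + 20 := by
      have h20 : s5.a 15 hi = s.a 15 hi := by rw [ea, h15]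
      have h21 : (s5.seta 11 ((var 17).eval s5) ((add (var 18) (const 1)).eval s5)).a 15
          ((s5.seta 11 ((var 17).eval s5) ((add (var 18) (const 1)).eval s5)).v 17) =
          s.a 15 hi := by
        rw [St.seta_a_ne _ (by decide), St.seta_v, e17, h20]
      rw [h21, St.seta_v, e9] at hcost
      exact hcost
    refine ⟨?_, ?_, ?_, ?_⟩
    · refine I.back (τ := s4.a 13) (st := s4.a 14) (sp := s4.v 9) (hi := hi) (lo := lo)
        c1 hlt (by omega) (I.inp.congr ?_ ?_ ?_ ?_ ?_ ?_ ?_) ?_ ?_ ?_ ?_ ?_ ?_ ?_ ?_ ?_ c3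
        M.grow.undo M.st hhh ?_ ?_ ?_ ?_
      all_goals simp only [St.setv_v, St.setv_a, Ex.eval, g17]
      all_goals norm_num
      · rw [f8 0 (by decide), e0]
      · rw [f8 1 (by decide), e1]
      · rw [fa 0 (by decide) (by decide), ea' 0 (by decide), M.a0]
      · rw [fa 1 (by decide) (by decide), ea' 1 (by decide), M.a1]
      · rw [fa 2 (by decide) (by decide), ea' 2 (by decide), M.a2]
      · rw [fa 3 (by decide) (by decide), ea' 3 (by decide), M.a3]
      · rw [fa 4 (by decide) (by decide), ea' 4 (by decide), M.a4]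
      · rw [f8 7 (by decide), e7]
      · rw [f8 21 (by decide), e21]
      · rw [fa 9 (by decide) (by decide), ea' 9 (by decide), M.a9]
      · rw [fa 10 (by decide) (by decide), ea' 10 (by decide), M.a10]
      · exact g11
      · rw [fa 12 (by decide) (by decide), ea' 12 (by decide), M.a12]
      · intro v hv
        rw [fa 15 (by decide) (by decide), ea' 15 (by decide), M.a15,
          Function.update_of_ne (by omega)]
      · intro v hv
        rw [fa 16 (by decide) (by decide), ea' 16 (by decide), M.a16,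
          Function.update_of_ne (by omega)]
      · exact g13
      · rw [fa 14 (by decide) (by decide), ea' 14 (by decide)]
      · exact g9
      · exact g16
    · simp [St.setv_v, g17, c1]
    · have h1 := (I.Hh_mono c1.le le_rfl).2
      rw [Hh_top, ← hHhi] at h1
      have h2 := M.hsp
      have h3 := wt_succ (mkSys G pos ord h) (s.v 8)
      simp only [St.setv_v, Ex.eval, Ex.cost, g17]
      norm_num
      omega
    · simp only [St.setv_v, St.setv_a, Ex.eval, g17, g11]
      norm_num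
      exact pot_conf (mkSys G pos ord h) ht c1 (by rw [hw11]; omega) c2'
  unfold conflict
  refine Sp.cons (Sp.put (by simp) (by simp) ?_)
  refine Sp.cons (Sp.set (by simp; omega) ?_)
  have hv15 : s4.v 15 - 1 = y := by rw [M.v15, hy]; rfl
  refine Sp.cons (Sp.ite (by simp) (fun hlt => ?_) (fun hge => ?_))
  · simp only [Cn.eval, Ex.eval, St.setv_v, St.seta_v] at hlt
    norm_num at hlt
    rw [hv15] at hlt
    refine Sp.cons (Sp.set (by simp) (Sp.cons (Sp.set (by simp) (Sp.nil ?_))))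
    refine Sp.mono (key y (s.a 12 w) (Or.inr ⟨hyr', rfl⟩) hlt _ ?_ ?_ ?_ ?_ ?_ ?_ ?_ ?_) ?_
    all_goals simp only [St.setv_v, St.seta_v, St.setv_a, St.seta_a, Ex.eval, Ex.cost, Cn.cost]
    all_goals norm_num
    · exact hv15
    · exact M.v0
    · exact M.v1
    · exact M.v7
    · exact M.v21
    · funext A
      simp [St.seta, St.setv, M.v8]
    · intro s' c k1 k2 k3 k4
      exact ⟨k1, k2, by omega, k4⟩
  · simp only [Cn.eval, Ex.eval, St.setv_v, St.seta_v] at hge
    norm_num at hge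
    have hlt : y < s.a 12 w := by omega
    refine Sp.cons (Sp.set (by simp) (Sp.cons (Sp.set (by simp) (Sp.nil ?_))))
    refine Sp.mono (key (s.a 12 w) y (Or.inl ⟨rfl, hyr'⟩) hlt _ ?_ ?_ ?_ ?_ ?_ ?_ ?_ ?_) ?_
    all_goals simp only [St.setv_v, St.seta_v, St.setv_a, St.seta_a, Ex.eval, Ex.cost, Cn.cost]
    all_goals norm_num
    · exact hv15
    · exact M.v0
    · exact M.v1
    · exact M.v7
    · exact M.v21
    · funext A
      simp [St.seta, St.setv, M.v8]
    · intro s' c k1 k2 k3 k4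
      exact ⟨k1, k2, by omega, k4⟩

end

end Pool.Agent.CCL
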