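import Pool.Agent.CCL.Flat

/-! Compilation of the structured language to the machine of `Flat.lean`.

Layout: the scalar register `x` (below 32) is `R x`, the registers `R 32, ..., R 63` are
temporaries, the cell `i` of the array `A` (below 32) is `R (64 + 32 i + A)`. -/

namespace Pool.Agent.CCL

/-! ### Code in a program -/

/-- The program `P` contains the code `C` from position `q` on. -/
def CodeAt (P : List Instr) : ℕ → List Instr → Prop
  | _, [] => True
  | q, c :: C => P[q]? = some c ∧ CodeAt P (q + 1) C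

theorem codeAt_append {P : List Instr} {C D : List Instr} {q : ℕ} :
    CodeAt P q (C ++ D) ↔ CodeAt P q C ∧ CodeAt P (q + C.length) D := by
  induction C generalizing q with
  | nil => simp [CodeAt]
  | cons c C ih =>
    simp only [List.cons_append, CodeAt, ih, List.length_cons, and_assoc]
    rw [show q + 1 + C.length = q + (C.length + 1) by omega]

theorem codeAt_self (P : List Instr) : CodeAt P 0 P := by
  suffices h : ∀ (C pre : List Instr), CodeAt (pre ++ C) pre.length C by simpa using h P []
  intro C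
  induction C with
  | nil => intro pre; trivial
  | cons c C ih =>
    intro pre
    refine ⟨by simp, ?_⟩
    have := ih (pre ++ [c])
    simpa using this

theorem Steps.trans {b : ℕ} {P : List Instr} {z z' z'' : Cfg} {t t' : ℕ}
    (h : Steps b P z z' t) (h' : Steps b P z' z'' t') : Steps b P z z'' (t + t') := by
  induction h with
  | refl z => simpa using h'
  | step h _ ih => rw [Nat.add_right_comm]; exact .step h (ih h')

theorem Step.one {b : ℕ} {P : List Instr} {z z' : Cfg} (h : Step b P z z') :
    Steps b P z z' 1 := .step h (.refl _)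

/-! ### Straight line code -/

/-- The effect of an instruction which is not a jump on the registers. -/
def ex1 : Instr → (ℕ → ℕ) → (ℕ → ℕ)
  | .const i c, R => Function.update R i c
  | .add i j k, R => Function.update R i (R j + R k)
  | .sub i j k, R => Function.update R i (R j - R k)
  | .load i j, R => Function.update R i (R (R j))
  | .store i j, R => Function.update R (R i) (R j)
  | _, R => R

/-- The instruction is arithmetic, a load or a store, and computes numbers at most `B`. -/
def good (B : ℕ) : Instr → (ℕ → ℕ) → Prop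
  | .const _ c, _ => c ≤ B
  | .add _ j k, R => R j + R k ≤ B
  | .sub _ _ _, _ => True
  | .load _ _, _ => True
  | .store _ _, _ => True
  | _, _ => False

/-- The effect of straight line code. -/
def exL : List Instr → (ℕ → ℕ) → (ℕ → ℕ)
  | [], R => R
  | I :: C, R => exL C (ex1 I R)

/-- All instructions are good. -/
def goodL (B : ℕ) : List Instr → (ℕ → ℕ) → Prop
  | [], _ => True
  | I :: C, R => good B I R ∧ goodL B C (ex1 I R)

theorem exL_append (C D : List Instr) (R : ℕ → ℕ) : exL (C ++ D) R = exL D (exL C R) := by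
  induction C generalizing R with
  | nil => rfl
  | cons c C ih => exact ih _

theorem goodL_append {B : ℕ} {C D : List Instr} {R : ℕ → ℕ} :
    goodL B (C ++ D) R ↔ goodL B C R ∧ goodL B D (exL C R) := by
  induction C generalizing R with
  | nil => simp [goodL, exL]
  | cons c C ih => simp only [List.cons_append, goodL, exL, ih, and_assoc]

theorem line {B : ℕ} {P C : List Instr} {q : ℕ} {R : ℕ → ℕ} {i o : List ℕ}
    (hc : CodeAt P q C) (hg : goodL B C R) :
    Steps B P ⟨q, R, i, o⟩ ⟨q + C.length, exL C R, i, o⟩ C.length := by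
  induction C generalizing q R with
  | nil => exact .refl _
  | cons I C ih =>
    have h := ih hc.2 hg.2
    rw [List.length_cons, show q + (C.length + 1) = q + 1 + C.length by omega]
    refine .step ?_ h
    have hI := hc.1
    have hgI := hg.1
    cases I with
    | const a c => exact Step.const ⟨q, R, i, o⟩ a c hI hgI
    | add a j k => exact Step.add ⟨q, R, i, o⟩ a j k hI hgI
    | sub a j k => exact Step.sub ⟨q, R, i, o⟩ a j k hI
    | load a j => exact Step.load ⟨q, R, i, o⟩ a j hI
    | store a j => exact Step.store ⟨q, R, i, o⟩ a j hI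
    | read a => exact absurd hgI (by simp [good])
    | write a => exact absurd hgI (by simp [good])
    | jump l => exact absurd hgI (by simp [good])
    | jlt a j l => exact absurd hgI (by simp [good])

/-! ### States and registers -/

/-- The registers `R` represent the registers and arrays (below 32) of the state. -/
def Rl (s : St) (R : ℕ → ℕ) : Prop :=
  (∀ x < 32, R x = s.v x) ∧ ∀ A < 32, ∀ i, R (64 + 32 * i + A) = s.a A i

/-- All numbers in the state are at most `b`. -/
def Bd (b : ℕ) (s : St) : Prop :=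
  (∀ x, s.v x ≤ b) ∧ (∀ A i, s.a A i ≤ b) ∧ ∀ x ∈ s.inp, x ≤ b

theorem Rl.congr {s : St} {R R' : ℕ → ℕ} (h : Rl s R)
    (hR : ∀ r, ¬ (32 ≤ r ∧ r < 64) → R' r = R r) : Rl s R' :=
  ⟨fun x hx => by rw [hR x (by omega), h.1 x hx],
    fun A hA i => by rw [hR _ (by omega), h.2 A hA i]⟩

theorem Ex.eval_le {b : ℕ} {s : St} (hs : Bd b s) : ∀ {e : Ex}, e.ok b s → e.eval s ≤ b
  | .const _, h => h
  | .var x, _ => hs.1 x
  | .add _ _, h => h.2.2
  | .sub e f, h => by
      have := Ex.eval_le hs (e := e) h.1
      simp only [Ex.eval]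
      omega
  | .get A e, _ => hs.2.1 A _

/-! ### Expressions -/

/-- Replace the index in the register `t` by the address of the cell of the array `A`. -/
def adr (t u A : ℕ) : List Instr :=
  [.add t t t, .add t t t, .add t t t, .add t t t, .add t t t, .const u (64 + A), .add t t u]

theorem adr_spec {B t u A : ℕ} {R : ℕ → ℕ} (htu : t ≠ u) (hb : 64 + 32 * R t + A ≤ B) :
    goodL B (adr t u A) R ∧ exL (adr t u A) R t = 64 + 32 * R t + A ∧
      ∀ r, r ≠ t → r ≠ u → exL (adr t u A) R r = R r := by
  have hut : u ≠ t := fun h => htu h.symm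
  refine ⟨?_, ?_, ?_⟩
  · simp only [adr, goodL, good, ex1, Function.update_self, Function.update_of_ne htu, and_true]
    omega
  · simp only [adr, exL, ex1, Function.update_self, Function.update_of_ne htu]
    omega
  · intro r h1 h2
    simp only [adr, exL, ex1, Function.update_of_ne h1, Function.update_of_ne h2]

/-- Code which puts the value of an expression into the register `32 + d`. -/
def cE (d : ℕ) : Ex → List Instr
  | .const c => [.const (32 + d) c]
  | .var x => [.const (32 + d) 0, .sub (32 + d) x (32 + d)]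
  | .add e f => cE d e ++ cE (d + 1) f ++ [.add (32 + d) (32 + d) (32 + (d + 1))]
  | .sub e f => cE d e ++ cE (d + 1) f ++ [.sub (32 + d) (32 + d) (32 + (d + 1))]
  | .get A e => cE d e ++ adr (32 + d) (32 + (d + 1)) A ++ [.load (32 + d) (32 + d)]

theorem cE_length (e : Ex) (d : ℕ) : (cE d e).length ≤ 8 * e.cost := by
  induction e generalizing d with
  | const c => simp [cE]
  | var x => simp [cE]
  | add e f ihe ihf =>
    have h1 := ihe d
    have h2 := ihf (d + 1)
    simp only [cE, List.length_append, List.length_cons, List.length_nil, Ex.cost]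
    omega
  | sub e f ihe ihf =>
    have h1 := ihe d
    have h2 := ihf (d + 1)
    simp only [cE, List.length_append, List.length_cons, List.length_nil, Ex.cost]
    omega
  | get A e ihe =>
    have h1 := ihe d
    simp only [cE, adr, List.length_append, List.length_cons, List.length_nil, Ex.cost]
    omega

theorem Ex.depth_pos (e : Ex) : 1 ≤ e.depth := by
  cases e <;> simp [Ex.depth]

theorem cE_spec {b B : ℕ} {s : St} (hB : 96 * (b + 1) ≤ B) (hs : Bd b s) (e : Ex) :
    ∀ (d : ℕ) (R : ℕ → ℕ), e.wf0 = true → e.ok b s → d + e.depth < 32 → Rl s R →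
      goodL B (cE d e) R ∧ exL (cE d e) R (32 + d) = e.eval s ∧
        ∀ r, ¬ (32 + d ≤ r ∧ r < 64) → exL (cE d e) R r = R r := by
  induction e with
  | const c =>
    intro d R _ hok hd _
    simp only [Ex.ok] at hok
    refine ⟨⟨?_, trivial⟩, ?_, ?_⟩
    · simp only [good]; omega
    · simp only [cE, exL, ex1, Function.update_self, Ex.eval]
    · intro r hr
      have : r ≠ 32 + d := by
        simp only [Ex.depth] at hd; omega
      simp only [cE, exL, ex1, Function.update_of_ne this]
  | var x =>
    intro d R hw _ hd hR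
    simp only [Ex.wf0, decide_eq_true_eq] at hw
    refine ⟨⟨?_, ?_, trivial⟩, ?_, ?_⟩
    · simp only [good]; omega
    · simp only [good]
    · have : x ≠ 32 + d := by omega
      simp only [cE, exL, ex1, Function.update_self, Function.update_of_ne this, Ex.eval,
        Nat.sub_zero]
      exact hR.1 x hw
    · intro r hr
      have : r ≠ 32 + d := by
        simp only [Ex.depth] at hd; omega
      simp only [cE, exL, ex1, Function.update_of_ne this]
  | add e f ihe ihf =>
    intro d R hw hok hd hR
    simp only [Ex.wf0, Bool.and_eq_true] at hw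
    simp only [Ex.depth] at hd
    obtain ⟨g1, v1, r1⟩ := ihe d R hw.1 hok.1 (by omega) hR
    have hR1 : Rl s (exL (cE d e) R) := hR.congr fun r hr => r1 r (by omega)
    obtain ⟨g2, v2, r2⟩ := ihf (d + 1) _ hw.2 hok.2.1 (by omega) hR1
    have v1' := r2 (32 + d) (by omega)
    rw [v1] at v1'
    have hsum := hok.2.2
    refine ⟨?_, ?_, ?_⟩
    · simp only [cE, goodL_append, exL_append]
      refine ⟨⟨g1, g2⟩, ?_, trivial⟩
      simp only [good]
      rw [v1', v2]
      omega
    · simp only [cE, exL_append, exL, ex1, Function.update_self, Ex.eval]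
      rw [v1', v2]
    · intro r hr
      have : r ≠ 32 + d := by omega
      simp only [cE, exL_append, exL, ex1, Function.update_of_ne this]
      rw [r2 r (by omega), r1 r hr]
  | sub e f ihe ihf =>
    intro d R hw hok hd hR
    simp only [Ex.wf0, Bool.and_eq_true] at hw
    simp only [Ex.depth] at hd
    obtain ⟨g1, v1, r1⟩ := ihe d R hw.1 hok.1 (by omega) hR
    have hR1 : Rl s (exL (cE d e) R) := hR.congr fun r hr => r1 r (by omega)
    obtain ⟨g2, v2, r2⟩ := ihf (d + 1) _ hw.2 hok.2 (by omega) hR1
    have v1' := r2 (32 + d) (by omega)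
    rw [v1] at v1'
    refine ⟨?_, ?_, ?_⟩
    · simp only [cE, goodL_append, exL_append]
      exact ⟨⟨g1, g2⟩, trivial, trivial⟩
    · simp only [cE, exL_append, exL, ex1, Function.update_self, Ex.eval]
      rw [v1', v2]
    · intro r hr
      have : r ≠ 32 + d := by omega
      simp only [cE, exL_append, exL, ex1, Function.update_of_ne this]
      rw [r2 r (by omega), r1 r hr]
  | get A e ihe =>
    intro d R hw hok hd hR
    simp only [Ex.wf0, Bool.and_eq_true, decide_eq_true_eq] at hw
    simp only [Ex.depth] at hd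
    have hpos := e.depth_pos
    obtain ⟨g1, v1, r1⟩ := ihe d R hw.2 hok (by omega) hR
    have hR1 : Rl s (exL (cE d e) R) := hR.congr fun r hr => r1 r (by omega)
    have hle : e.eval s ≤ b := Ex.eval_le hs hok
    obtain ⟨g2, v2, r2⟩ := adr_spec (B := B) (t := 32 + d) (u := 32 + (d + 1)) (A := A)
      (R := exL (cE d e) R) (by omega) (by rw [v1]; omega)
    rw [v1] at v2
    refine ⟨?_, ?_, ?_⟩
    · simp only [cE, goodL_append, exL_append]
      exact ⟨⟨g1, g2⟩, trivial, trivial⟩
    · simp only [cE, exL_append, exL, ex1, Function.update_self, Ex.eval]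
      rw [v2, r2 _ (by omega) (by omega), hR1.2 A hw.1]
    · intro r hr
      have h1 : r ≠ 32 + d := by omega
      have h2 : r ≠ 32 + (d + 1) := by omega
      simp only [cE, exL_append, exL, ex1, Function.update_of_ne h1]
      rw [r2 r h1 h2, r1 r hr]

theorem Ex.wf_iff {e : Ex} (h : e.wf = true) : e.wf0 = true ∧ e.depth ≤ 20 := by
  simpa [Ex.wf] using h

/-- Two expressions, one after the other. -/
theorem cE_two {b B : ℕ} {s : St} (hB : 96 * (b + 1) ≤ B) (hs : Bd b s) {e f : Ex}
    {R : ℕ → ℕ} (he : e.wf = true) (hf : f.wf = true) (hoe : e.ok b s) (hof : f.ok b s)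
    (hR : Rl s R) : ∃ R' : ℕ → ℕ, goodL B (cE 0 e ++ cE 1 f) R ∧
      exL (cE 0 e ++ cE 1 f) R = R' ∧ R' 32 = e.eval s ∧ R' 33 = f.eval s ∧ Rl s R' := by
  obtain ⟨he0, hed⟩ := Ex.wf_iff he
  obtain ⟨hf0, hfd⟩ := Ex.wf_iff hf
  obtain ⟨g1, v1, r1⟩ := cE_spec hB hs e 0 R he0 hoe (by omega) hR
  have hR1 : Rl s (exL (cE 0 e) R) := hR.congr fun r hr => r1 r (by omega)
  obtain ⟨g2, v2, r2⟩ := cE_spec hB hs f 1 _ hf0 hof (by omega) hR1
  refine ⟨_, ?_, rfl, ?_, ?_, ?_⟩
  · rw [goodL_append]; exact ⟨g1, g2⟩
  · rw [exL_append, r2 32 (by omega)]; exact v1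
  · rw [exL_append]; exact v2
  · rw [exL_append]
    exact hR1.congr fun r hr => r2 r (by omega)

/-! ### Tests -/

/-- Code which jumps to `L` if the test is false. -/
def cC (L : ℕ) : Cn → List Instr
  | .lt e f => (cE 0 e ++ cE 1 f) ++ [.const 34 1, .add 32 32 34, .jlt 33 32 L]
  | .eq e f => (cE 0 e ++ cE 1 f) ++ [.jlt 32 33 L, .jlt 33 32 L]
  | .ne e f => (cE 0 e ++ cE 1 f) ++ [.sub 34 32 33, .sub 35 33 32, .add 34 34 35,
      .const 35 1, .jlt 34 35 L]

/-- The length of the code of a test. -/
def lC : Cn → ℕ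
  | .lt e f => (cE 0 e ++ cE 1 f).length + 3
  | .eq e f => (cE 0 e ++ cE 1 f).length + 2
  | .ne e f => (cE 0 e ++ cE 1 f).length + 5

theorem cC_length (L : ℕ) (c : Cn) : (cC L c).length = lC c := by
  cases c <;> simp [cC, lC, -List.append_assoc]

theorem lC_le (c : Cn) : lC c ≤ 8 * c.cost + 5 := by
  cases c with
  | lt e f =>
    have := cE_length e 0
    have := cE_length f 1
    simp only [lC, List.length_append, Cn.cost]; omega
  | eq e f =>
    have := cE_length e 0
    have := cE_length f 1
    simp only [lC, List.length_append, Cn.cost]; omega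
  | ne e f =>
    have := cE_length e 0
    have := cE_length f 1
    simp only [lC, List.length_append, Cn.cost]; omega

theorem upd34 {s : St} {R : ℕ → ℕ} (h : Rl s R) {r w : ℕ} (hr : 32 ≤ r ∧ r < 64) :
    Rl s (Function.update R r w) :=
  h.congr fun x hx => Function.update_of_ne (by rintro rfl; exact hx hr) _ _

theorem cC_spec {b B : ℕ} {s : St} (hB : 96 * (b + 1) ≤ B) (hs : Bd b s) {c : Cn}
    {P : List Instr} {q L : ℕ} (hP : CodeAt P q (cC L c)) {R : ℕ → ℕ} (hw : c.wf = true)
    (hok : c.ok b s) (hR : Rl s R) (i o : List ℕ) :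
    ∃ (R' : ℕ → ℕ) (t : ℕ), Rl s R' ∧ t ≤ lC c ∧
      ((c.eval s ∧ Steps B P ⟨q, R, i, o⟩ ⟨q + lC c, R', i, o⟩ t) ∨
        (¬ c.eval s ∧ Steps B P ⟨q, R, i, o⟩ ⟨L, R', i, o⟩ t)) := by
  cases c with
  | lt e f =>
    simp only [Cn.wf, Bool.and_eq_true] at hw
    obtain ⟨R1, g, hR1, v1, v2, hr⟩ := cE_two hB hs hw.1 hw.2 hok.1 hok.2 hR
    have le1 := Ex.eval_le hs hok.1
    rw [cC, codeAt_append] at hP
    obtain ⟨hP1, hP2, hP3, hP4, -⟩ := hP
    have h1 := line (i := i) (o := o) hP1 g
    rw [hR1] at h1
    set l := (cE 0 e ++ cE 1 f).length with hl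
    have h2 : Steps B P ⟨q + l, R1, i, o⟩ ⟨q + l + 2, Function.update
        (Function.update R1 34 1) 32 (e.eval s + 1), i, o⟩ 2 := by
      have := line (B := B) (P := P) (C := [.const 34 1, .add 32 32 34]) (q := q + l)
        (R := R1) (i := i) (o := o) ⟨hP2, hP3, trivial⟩ (by
          simp only [goodL, good, ex1, Function.update_self]
          rw [Function.update_of_ne (by omega), v1]
          refine ⟨?_, ?_, trivial⟩ <;> omega)
      simp only [exL, ex1, Function.update_self] at this
      rw [Function.update_of_ne (by omega), v1] at this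
      exact this
    have hr2 : Rl s (Function.update (Function.update R1 34 1) 32 (e.eval s + 1)) :=
      upd34 (upd34 hr (by omega)) (by omega)
    have h12 := h1.trans h2
    refine ⟨_, l + 2 + 1, hr2, by simp only [lC]; omega, ?_⟩
    by_cases hlt : e.eval s < f.eval s
    · refine Or.inl ⟨hlt, h12.trans (Step.one ?_)⟩
      have := Step.jlt_neg (b := B) (P := P) ⟨q + l + 2, Function.update
        (Function.update R1 34 1) 32 (e.eval s + 1), i, o⟩ 33 32 L hP4 (by
          simp only [Function.update_self]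
          rw [Function.update_of_ne (by omega), Function.update_of_ne (by omega), v2]
          omega)
      exact this
    · refine Or.inr ⟨hlt, h12.trans (Step.one ?_)⟩
      exact Step.jlt_pos (b := B) (P := P) ⟨q + l + 2, Function.update
        (Function.update R1 34 1) 32 (e.eval s + 1), i, o⟩ 33 32 L hP4 (by
          simp only [Function.update_self]
          rw [Function.update_of_ne (by omega), Function.update_of_ne (by omega), v2]
          omega)
  | eq e f =>
    simp only [Cn.wf, Bool.and_eq_true] at hw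
    obtain ⟨R1, g, hR1, v1, v2, hr⟩ := cE_two hB hs hw.1 hw.2 hok.1 hok.2 hR
    rw [cC, codeAt_append] at hP
    obtain ⟨hP1, hP2, hP3, -⟩ := hP
    have h1 := line (i := i) (o := o) hP1 g
    rw [hR1] at h1
    set l := (cE 0 e ++ cE 1 f).length with hl
    by_cases hlt : e.eval s < f.eval s
    · refine ⟨R1, l + 1, hr, by simp only [lC]; omega,
        Or.inr ⟨by simp only [Cn.eval]; omega, h1.trans (Step.one ?_)⟩⟩
      exact Step.jlt_pos (b := B) (P := P) ⟨q + l, R1, i, o⟩ 32 33 L hP2 (by
        simp only; rw [v1, v2]; exact hlt)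
    · have h2 : Steps B P ⟨q + l, R1, i, o⟩ ⟨q + l + 1, R1, i, o⟩ 1 :=
        Step.one (Step.jlt_neg (b := B) (P := P) ⟨q + l, R1, i, o⟩ 32 33 L hP2 (by
          simp only; rw [v1, v2]; exact hlt))
      refine ⟨R1, l + 1 + 1, hr, by simp only [lC]; omega, ?_⟩
      by_cases hgt : f.eval s < e.eval s
      · refine Or.inr ⟨by simp only [Cn.eval]; omega, (h1.trans h2).trans (Step.one ?_)⟩
        exact Step.jlt_pos (b := B) (P := P) ⟨q + l + 1, R1, i, o⟩ 33 32 L hP3 (by
          simp only; rw [v1, v2]; exact hgt)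
      · refine Or.inl ⟨by simp only [Cn.eval]; omega, (h1.trans h2).trans (Step.one ?_)⟩
        exact Step.jlt_neg (b := B) (P := P) ⟨q + l + 1, R1, i, o⟩ 33 32 L hP3 (by
          simp only; rw [v1, v2]; exact hgt)
  | ne e f =>
    simp only [Cn.wf, Bool.and_eq_true] at hw
    obtain ⟨R1, g, hR1, v1, v2, hr⟩ := cE_two hB hs hw.1 hw.2 hok.1 hok.2 hR
    have le1 := Ex.eval_le hs hok.1
    have le2 := Ex.eval_le hs hok.2
    rw [cC, codeAt_append] at hP
    obtain ⟨hP1, hP2, hP3, hP4, hP5, hP6, -⟩ := hP
    have h1 := line (i := i) (o := o) hP1 g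
    rw [hR1] at h1
    set l := (cE 0 e ++ cE 1 f).length with hl
    obtain ⟨R2, hR2⟩ : ∃ R2, exL [.sub 34 32 33, .sub 35 33 32, .add 34 34 35,
      .const 35 1] R1 = R2 := ⟨_, rfl⟩
    have hv34 : R2 34 = (e.eval s - f.eval s) + (f.eval s - e.eval s) := by
      rw [← hR2]
      simp [exL, ex1, v1, v2]
    have hv35 : R2 35 = 1 := by
      rw [← hR2]
      simp [exL, ex1]
    have hr2 : Rl s R2 := by
      rw [← hR2]
      simp only [exL, ex1]
      exact upd34 (upd34 (upd34 (upd34 hr (by omega)) (by omega)) (by omega)) (by omega)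
    have h2 : Steps B P ⟨q + l, R1, i, o⟩ ⟨q + l + 4, R2, i, o⟩ 4 := by
      have := line (B := B) (P := P) (C := [.sub 34 32 33, .sub 35 33 32, .add 34 34 35,
        .const 35 1]) (q := q + l) (R := R1) (i := i) (o := o)
        ⟨hP2, hP3, hP4, hP5, trivial⟩ (by
          simp only [goodL, good, ex1]
          simp [v1, v2]
          omega)
      rw [hR2] at this
      exact this
    have h12 := h1.trans h2
    refine ⟨_, l + 4 + 1, hr2, by simp only [lC]; omega, ?_⟩
    by_cases hne : e.eval s = f.eval s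
    · refine Or.inr ⟨by simp only [Cn.eval]; omega, h12.trans (Step.one ?_)⟩
      exact Step.jlt_pos (b := B) (P := P) ⟨q + l + 4, R2, i, o⟩ 34 35 L hP6 (by
          simp only; rw [hv34, hv35]; omega)
    · refine Or.inl ⟨hne, h12.trans (Step.one ?_)⟩
      exact Step.jlt_neg (b := B) (P := P) ⟨q + l + 4, R2, i, o⟩ 34 35 L hP6 (by
          simp only; rw [hv34, hv35]; omega)

/-! ### Programs -/

/-- The length of the code of a program. -/
def lP : Prog → ℕ
  | .skip => 0
  | .set _ e => (cE 0 e).length + 2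
  | .put _ i e => (cE 0 i ++ cE 1 e).length + 8
  | .read _ => 1
  | .write e => (cE 0 e).length + 1
  | .seq p p' => lP p + lP p'
  | .ite c p p' => lC c + (lP p + (1 + lP p'))
  | .loop c p => lC c + (lP p + 1)

/-- The code of a program, to be placed at position `q`. -/
def cP (q : ℕ) : Prog → List Instr
  | .skip => []
  | .set x e => cE 0 e ++ [.const 33 0, .sub x 32 33]
  | .put A i e => (cE 0 i ++ cE 1 e) ++ (adr 32 34 A ++ [.store 32 33])
  | .read x => [.read x]
  | .write e => cE 0 e ++ [.write 32]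
  | .seq p p' => cP q p ++ cP (q + lP p) p'
  | .ite c p p' => cC (q + lC c + lP p + 1) c ++ (cP (q + lC c) p ++
      ([.jump (q + lC c + lP p + 1 + lP p')] ++ cP (q + lC c + lP p + 1) p'))
  | .loop c p => cC (q + lC c + lP p + 1) c ++ (cP (q + lC c) p ++ [.jump q])

theorem cP_length (p : Prog) (q : ℕ) : (cP q p).length = lP p := by
  induction p generalizing q with
  | skip => rfl
  | set x e => simp [cP, lP]
  | put A i e => simp [cP, lP, adr]; omega
  | read x => rfl
  | write e => simp [cP, lP]
  | seq p p' ih ih' => simp [cP, lP, ih, ih']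
  | ite c p p' ih ih' => simp [cP, lP, ih, ih', cC_length]; omega
  | loop c p ih => simp [cP, lP, ih, cC_length]

theorem cP_spec {b B : ℕ} (hB : 96 * (b + 1) ≤ B) {P : List Instr} {p : Prog} {s s' : St}
    {t : ℕ} (h : Run b p s s' t) : p.wf = true → Bd b s → ∀ q, CodeAt P q (cP q p) →
      ∀ R, Rl s R → ∃ (R' : ℕ → ℕ) (t' : ℕ), Bd b s' ∧ Rl s' R' ∧ t' ≤ 8 * t ∧
        Steps B P ⟨q, R, s.inp, s.out⟩ ⟨q + lP p, R', s'.inp, s'.out⟩ t' := by
  induction h with
  | skip s =>
    intro _ hb q _ R hR
    exact ⟨R, 0, hb, hR, by omega, .refl _⟩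
  | set x e s hok =>
    intro hw hb q hP R hR
    simp only [Prog.wf, Bool.and_eq_true, decide_eq_true_eq] at hw
    obtain ⟨he0, hed⟩ := Ex.wf_iff hw.2
    obtain ⟨g1, v1, r1⟩ := cE_spec hB hb e 0 R he0 hok (by omega) hR
    have hle := Ex.eval_le hb hok
    have hR1 : Rl s (exL (cE 0 e) R) := hR.congr fun r hr => r1 r (by omega)
    have hgood : goodL B (cP q (.set x e)) R := by
      rw [cP, goodL_append]
      refine ⟨g1, ?_⟩
      simp only [goodL, good, and_true]
      omega
    have h1 := line (i := s.inp) (o := s.out) hP hgood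
    rw [cP_length] at h1
    refine ⟨_, _, ⟨?_, hb.2.1, hb.2.2⟩, ?_, ?_, h1⟩
    · intro y
      rw [St.setv_v]
      split
      · exact hle
      · exact hb.1 y
    · rw [cP, exL_append]
      have hx : x ≠ 33 := by omega
      have key : exL [Instr.const 33 0, Instr.sub x 32 33] (exL (cE 0 e) R) =
          Function.update (Function.update (exL (cE 0 e) R) 33 0) x (e.eval s) := by
        simp only [exL, ex1, Function.update_self]
        rw [Function.update_of_ne (by omega), Nat.sub_zero]
        rw [show (32 : ℕ) = 32 + 0 from rfl, v1]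
      rw [key]
      refine ⟨fun y hy => ?_, fun A hA i => ?_⟩
      · rw [St.setv_v, Function.update_apply]
        split
        · rfl
        · rw [Function.update_of_ne (by omega)]
          exact hR1.1 y hy
      · rw [Function.update_of_ne (by omega), Function.update_of_ne (by omega)]
        exact hR1.2 A hA i
    · have := cE_length e 0
      simp only [lP]; omega
  | put A i e s hi he =>
    intro hw hb q hP R hR
    simp only [Prog.wf, Bool.and_eq_true, decide_eq_true_eq] at hw
    obtain ⟨R1, g, hR1, v1, v2, hr⟩ := cE_two hB hb hw.1.2 hw.2 hi he hR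
    have le1 := Ex.eval_le hb hi
    have le2 := Ex.eval_le hb he
    obtain ⟨g2, w1, w2⟩ := adr_spec (B := B) (t := 32) (u := 34) (A := A) (R := R1)
      (by omega) (by rw [v1]; omega)
    have hgood : goodL B (cP q (.put A i e)) R := by
      rw [cP, goodL_append (C := cE 0 i ++ cE 1 e), hR1, goodL_append (C := adr 32 34 A)]
      exact ⟨g, g2, trivial, trivial⟩
    have h1 := line (i := s.inp) (o := s.out) hP hgood
    rw [cP_length] at h1
    refine ⟨_, _, ⟨hb.1, ?_, hb.2.2⟩, ?_, ?_, h1⟩
    · intro A' j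
      rw [St.seta_a]
      split
      · rw [Function.update_apply]
        split
        · exact le2
        · exact hb.2.1 _ _
      · exact hb.2.1 _ _
    · rw [cP, exL_append, exL_append, hR1]
      simp only [exL, ex1]
      rw [w1, v1, w2 33 (by omega) (by omega), v2]
      refine ⟨fun y hy => ?_, fun A' hA' j => ?_⟩
      · rw [Function.update_of_ne (by omega), w2 y (by omega) (by omega)]
        exact hr.1 y hy
      · rw [St.seta_a, Function.update_apply]
        by_cases hA : A' = A
        · subst hA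
          rw [if_pos rfl, Function.update_apply]
          by_cases hj : j = i.eval s
          · rw [if_pos (by rw [hj]), if_pos hj]
          · rw [if_neg (by omega), if_neg hj, w2 _ (by omega) (by omega)]
            exact hr.2 _ hA' _
        · rw [if_neg (by omega), if_neg hA, w2 _ (by omega) (by omega)]
          exact hr.2 _ hA' _
    · have := cE_length i 0
      have := cE_length e 1
      simp only [lP, List.length_append]; omega
  | read x s c l h =>
    intro hw hb q hP R hR
    simp only [Prog.wf, decide_eq_true_eq] at hw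
    have hc : c ≤ b := hb.2.2 c (by rw [h]; simp)
    refine ⟨Function.update R x c, 1, ⟨?_, hb.2.1, ?_⟩, ?_, by omega, Step.one ?_⟩
    · intro y
      rw [St.seti_v, St.setv_v]
      split
      · exact hc
      · exact hb.1 y
    · intro y hy
      exact hb.2.2 y (by rw [h]; exact List.mem_cons_of_mem _ hy)
    · refine ⟨fun y hy => ?_, fun A hA i => ?_⟩
      · rw [St.seti_v, St.setv_v, Function.update_apply]
        split
        · rfl
        · exact hR.1 y hy
      · rw [Function.update_of_ne (by omega)]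
        exact hR.2 A hA i
    · exact Step.read ⟨q, R, s.inp, s.out⟩ x c l hP.1 h
  | write e s he =>
    intro hw hb q hP R hR
    obtain ⟨he0, hed⟩ := Ex.wf_iff hw
    obtain ⟨g1, v1, r1⟩ := cE_spec hB hb e 0 R he0 he (by omega) hR
    have hR1 : Rl s (exL (cE 0 e) R) := hR.congr fun r hr => r1 r (by omega)
    rw [cP, codeAt_append] at hP
    have h1 := line (i := s.inp) (o := s.out) hP.1 g1
    refine ⟨_, _, hb, hR1, ?_, h1.trans (Step.one ?_)⟩
    · have := cE_length e 0
      omega
    · have := Step.write (b := B) ⟨q + (cE 0 e).length, exL (cE 0 e) R, s.inp, s.out⟩ 32 hP.2.1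
      simp only at this
      rw [show (32 : ℕ) = 32 + 0 from rfl, v1] at this
      exact this
  | seq _ _ ih1 ih2 =>
    intro hw hb q hP R hR
    simp only [Prog.wf, Bool.and_eq_true] at hw
    rw [cP, codeAt_append, cP_length] at hP
    obtain ⟨R1, t1, hb1, hR1, ht1, h1⟩ := ih1 hw.1 hb q hP.1 R hR
    obtain ⟨R2, t2, hb2, hR2, ht2, h2⟩ := ih2 hw.2 hb1 _ hP.2 R1 hR1
    refine ⟨R2, t1 + t2, hb2, hR2, by omega, ?_⟩
    rw [lP, ← Nat.add_assoc]
    exact h1.trans h2
  | @ite_pos c p p' s s' t hc h _ ih =>
    intro hw hb q hP R hR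
    simp only [Prog.wf, Bool.and_eq_true] at hw
    rw [cP, codeAt_append, codeAt_append, codeAt_append, cC_length, cP_length] at hP
    obtain ⟨hP1, hP2, hP3, hP4⟩ := hP
    obtain ⟨R1, t1, hR1, ht1, h1⟩ := cC_spec hB hb hP1 hw.1.1 hc hR s.inp s.out
    rcases h1 with ⟨-, h1⟩ | ⟨h1, -⟩
    · obtain ⟨R2, t2, hb2, hR2, ht2, h2⟩ := ih hw.1.2 hb _ hP2 R1 hR1
      refine ⟨R2, t1 + t2 + 1, hb2, hR2, ?_, ?_⟩
      · have := lC_le c
        omega
      · have h3 := Step.one (Step.jump (b := B) ⟨q + lC c + lP p, R2, s'.inp, s'.out⟩ _ hP3.1)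
        have := (h1.trans h2).trans h3
        rw [lP, show q + (lC c + (lP p + (1 + lP p'))) = q + lC c + lP p + 1 + lP p' by omega]
        exact this
    · exact absurd h h1
  | @ite_neg c p p' s s' t hc h _ ih =>
    intro hw hb q hP R hR
    simp only [Prog.wf, Bool.and_eq_true] at hw
    rw [cP, codeAt_append, codeAt_append, codeAt_append, cC_length, cP_length] at hP
    obtain ⟨hP1, hP2, hP3, hP4⟩ := hP
    obtain ⟨R1, t1, hR1, ht1, h1⟩ := cC_spec hB hb hP1 hw.1.1 hc hR s.inp s.out
    rcases h1 with ⟨h1, -⟩ | ⟨-, h1⟩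
    · exact absurd h1 h
    · obtain ⟨R2, t2, hb2, hR2, ht2, h2⟩ := ih hw.2 hb _ hP4 R1 hR1
      refine ⟨R2, t1 + t2, hb2, hR2, ?_, ?_⟩
      · have := lC_le c
        omega
      · have := h1.trans h2
        rw [lP, show q + (lC c + (lP p + (1 + lP p'))) = q + lC c + lP p + 1 + lP p' by omega]
        exact this
  | @loop_end c p s hc h =>
    intro hw hb q hP R hR
    simp only [Prog.wf, Bool.and_eq_true] at hw
    rw [cP, codeAt_append, codeAt_append, cC_length, cP_length] at hP
    obtain ⟨hP1, hP2, hP3⟩ := hP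
    obtain ⟨R1, t1, hR1, ht1, h1⟩ := cC_spec hB hb hP1 hw.1 hc hR s.inp s.out
    rcases h1 with ⟨h1, -⟩ | ⟨-, h1⟩
    · exact absurd h1 h
    · refine ⟨R1, t1, hb, hR1, ?_, ?_⟩
      · have := lC_le c
        omega
      · rw [lP, show q + (lC c + (lP p + 1)) = q + lC c + lP p + 1 by omega]
        exact h1
  | @loop_step c p s s1 s2 t1 t2 hc h _ _ ih1 ih2 =>
    intro hw hb q hP R hR
    have hw' := hw
    have hP' := hP
    simp only [Prog.wf, Bool.and_eq_true] at hw
    rw [cP, codeAt_append, codeAt_append, cC_length, cP_length] at hP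
    obtain ⟨hP1, hP2, hP3⟩ := hP
    obtain ⟨R1, u1, hR1, ht1, h1⟩ := cC_spec hB hb hP1 hw.1 hc hR s.inp s.out
    rcases h1 with ⟨-, h1⟩ | ⟨h1, -⟩
    · obtain ⟨R2, u2, hb2, hR2, ht2, h2⟩ := ih1 hw.2 hb _ hP2 R1 hR1
      have h3 := Step.one (Step.jump (b := B) ⟨q + lC c + lP p, R2, s1.inp, s1.out⟩ _ hP3.1)
      obtain ⟨R3, u3, hb3, hR3, ht3, h4⟩ := ih2 hw' hb2 q hP' R2 hR2
      refine ⟨R3, u1 + u2 + 1 + u3, hb3, hR3, ?_, ?_⟩
      · have := lC_le c
        omega
      · exact ((h1.trans h2).trans h3).trans h4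
    · exact absurd h h1

/-- Every program of the structured language can be simulated by the machine of `Flat.lean`
in time larger by a constant factor. -/
theorem simulate (p : Prog) (hp : p.wf = true) : ∃ (P : List Instr) (c : ℕ),
    ∀ (b : ℕ) (l : List ℕ) (s' : St) (t : ℕ), (∀ x ∈ l, x ≤ b) →
      Run b p ⟨fun _ => 0, fun _ _ => 0, l, []⟩ s' t →
      ∃ t' : ℕ, Computes (c * (b + 1)) P l s'.out t' ∧ t' ≤ c * t := by
  refine ⟨cP 0 p, 96, fun b l s' t hl h => ?_⟩
  obtain ⟨R', t', -, -, ht, hst⟩ := cP_spec (b := b) (B := 96 * (b + 1)) le_rfl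
    (P := cP 0 p) h hp ⟨fun _ => Nat.zero_le _, fun _ _ => Nat.zero_le _, hl⟩ 0 (codeAt_self _)
    (fun _ => 0) ⟨fun _ _ => rfl, fun _ _ _ => rfl⟩
  refine ⟨t', ⟨_, hst, ?_, rfl⟩, by omega⟩
  simp only [Nat.zero_add]
  rw [← cP_length p 0]
  exact List.getElem?_eq_none le_rfl

end Pool.Agent.CCL
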