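import Pool.Agent.CCL.Ram

/-! The program.

Registers: 0 n, 1 k, 22 length of F, 2 r (loop index), 3 cnt, 4 d (size of the search stack), 5 v, 6 w,
7 B (block width of the trie), 8 t (the pointer), 9 sp (size of the undo stack), 10 fresh,
11 node, 12 symbol, 13 j, 14 e (end), 15 x, 16 M, 17 hi, 18 lo, 19 u, 21 n + n.

Arrays: 0 labels, 1 starts of the adjacency lists, 2 heads, 3 and 4 the pairs, 5 output,
6 colour, 7 next edge, 8 search stack, 9 position of a vertex, 10 vertex at a position,
11 partner + 1 (0: no partner), 12 names, 13 trie, 14 undo stack, 15 and 16 the values of
sp and fresh before an element was processed, 17 marks of the given list F. -/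

namespace Pool.Agent.CCL

open Ex Cn Prog

/-- Reading the record of the vertex in register 2. -/
def readVertex : Prog := blk [
  read 15,
  put 0 (var 2) (var 15),
  read 14,
  put 1 (var 2) (var 13),
  loop (lt (const 0) (var 14)) (blk [
    read 15,
    put 2 (var 13) (var 15),
    set 13 (add (var 13) (const 1)),
    set 14 (sub (var 14) (const 1))]),
  set 2 (add (var 2) (const 1))]

/-- Stage 0: reading the input. -/
def stage0 : Prog := blk [
  read 0,
  read 1,
  read 22,
  set 2 (const 0),
  set 13 (const 0),
  loop (lt (var 2) (var 0)) readVertex,
  put 1 (var 0) (var 13),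
  set 2 (const 0),
  loop (lt (var 2) (var 1)) (blk [
    read 15,
    put 3 (var 2) (var 15),
    read 15,
    put 4 (var 2) (var 15),
    set 2 (add (var 2) (const 1))]),
  set 2 (const 0),
  loop (lt (var 2) (var 22)) (blk [
    read 15,
    put 17 (var 15) (const 1),
    set 2 (add (var 2) (const 1))])]

/-- One step of the depth first search: look at the next edge of the vertex on top of the
stack (edges into the given list are ignored), or finish it. -/
def dfsBody : Prog := blk [
  set 5 (get 8 (sub (var 4) (const 1))),
  ite (lt (get 7 (var 5)) (get 1 (add (var 5) (const 1))))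
    (blk [
      set 6 (get 2 (get 7 (var 5))),
      put 7 (var 5) (add (get 7 (var 5)) (const 1)),
      ite (eq (add (get 6 (var 6)) (get 17 (var 6))) (const 0))
        (blk [
          put 6 (var 6) (const 1),
          put 7 (var 6) (get 1 (var 6)),
          put 8 (var 4) (var 6),
          set 4 (add (var 4) (const 1))])
        skip])
    (blk [
      set 4 (sub (var 4) (const 1)),
      put 9 (var 5) (var 3),
      put 10 (var 3) (var 5),
      set 3 (add (var 3) (const 1))])]

/-- Search from the root in register 2 (if it has not been reached before). -/
def dfsRoot : Prog := blk [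
  ite (eq (get 6 (var 2)) (const 0))
    (blk [
      put 6 (var 2) (const 1),
      put 7 (var 2) (get 1 (var 2)),
      put 8 (const 0) (var 2),
      set 4 (const 1),
      loop (lt (const 0) (var 4)) dfsBody])
    skip,
  set 2 (add (var 2) (const 1))]

/-- Stage A: depth first search; positions in order of finishing. -/
def stageA : Prog := blk [
  set 2 (const 0),
  set 3 (const 0),
  loop (lt (var 2) (var 0)) dfsRoot]

/-- Stage B: `n + n` and the block width. -/
def stageB : Prog := blk [
  set 21 (add (var 0) (var 0)),
  set 7 (add (var 21) (const 2)),
  set 2 (const 0),
  loop (lt (var 2) (var 0)) (blk [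
    ite (lt (var 7) (add (get 0 (var 2)) (const 2)))
      (set 7 (add (get 0 (var 2)) (const 2)))
      skip,
    set 2 (add (var 2) (const 1))])]

/-- Stage C: every head of a non descending edge gets its atom as partner. -/
def stageC : Prog := blk [
  set 2 (const 0),
  loop (lt (var 2) (var 0)) (blk [
    set 13 (get 1 (var 2)),
    loop (lt (var 13) (get 1 (add (var 2) (const 1)))) (blk [
      set 6 (get 9 (get 2 (var 13))),
      ite (lt (var 6) (get 9 (var 2)))
        skip
        (put 11 (add (var 0) (var 6)) (add (var 6) (const 1))),
      set 13 (add (var 13) (const 1))]),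
    set 2 (add (var 2) (const 1))])]

/-- Insertion of the pair of elements in the registers 19 and 6. -/
def insLoop : Prog :=
  loop (ne (var 19) (var 6)) (blk [
    ite (lt (var 6) (var 19))
      (blk [
        set 15 (var 19),
        set 19 (var 6),
        set 6 (var 15)])
      skip,
    ite (eq (get 11 (var 6)) (const 0))
      (blk [
        put 11 (var 6) (add (var 19) (const 1)),
        set 6 (var 19)])
      (set 6 (sub (get 11 (var 6)) (const 1)))])

/-- Stage D: insertion of the input pairs. -/
def stageD : Prog := blk [
  set 2 (const 0),
  loop (lt (var 2) (var 1)) (blk [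
    set 19 (add (var 0) (get 9 (get 3 (var 2)))),
    set 6 (add (var 0) (get 9 (get 4 (var 2)))),
    insLoop,
    set 2 (add (var 2) (const 1))])]

/-- The walk through the trie along the signature of the vertex in register 5 (at the
element in register 8); the current symbol is in register 12. -/
def walkLoop : Prog :=
  loop (lt (var 13) (var 14)) (blk [
    ite (eq (get 13 (add (add (var 11) (const 1)) (var 12))) (const 0))
      (blk [
        put 13 (add (add (var 11) (const 1)) (var 12)) (var 10),
        put 14 (var 9) (add (add (var 11) (const 1)) (var 12)),
        set 9 (add (var 9) (const 1)),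
        set 10 (add (var 10) (var 7))])
      skip,
    set 11 (get 13 (add (add (var 11) (const 1)) (var 12))),
    set 13 (add (var 13) (const 1)),
    ite (lt (var 13) (var 14))
      (blk [
        set 6 (get 9 (get 2 (sub (var 13) (const 1)))),
        ite (lt (var 6) (sub (var 8) (var 0)))
          (set 12 (get 12 (add (var 0) (var 6))))
          (set 12 (get 12 (var 6)))])
      skip])

/-- The undo loop: pop the undo stack down to height `H[hi]`. -/
def undoLoop : Prog :=
  loop (lt (get 15 (var 17)) (var 9)) (blk [
    set 9 (sub (var 9) (const 1)),
    put 13 (get 14 (var 9)) (const 0)])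

/-- The name of a new element: itself or the name of its partner. -/
def nameNew : Prog :=
  ite (eq (get 11 (var 8)) (const 0))
    (put 12 (var 8) (var 8))
    (put 12 (var 8) (get 12 (sub (get 11 (var 8)) (const 1))))

/-- A conflict at `t` between the names `M` (register 16) and `x - 1` (register 15). -/
def conflict : Prog := blk [
  put 11 (var 8) (const 0),
  set 15 (sub (var 15) (const 1)),
  ite (lt (var 16) (var 15))
    (blk [set 17 (var 15), set 18 (var 16)])
    (blk [set 17 (var 16), set 18 (var 15)]),
  put 11 (var 17) (add (var 18) (const 1)),
  undoLoop,
  set 10 (get 16 (var 17)),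
  set 8 (var 17)]

/-- One step of the main loop. -/
def mainBody : Prog := blk [
  put 15 (var 8) (var 9),
  put 16 (var 8) (var 10),
  ite (lt (var 8) (var 0))
    (blk [
      nameNew,
      set 8 (add (var 8) (const 1))])
    (blk [
      set 5 (get 10 (sub (var 8) (var 0))),
      set 11 (const 0),
      set 12 (get 0 (var 5)),
      set 13 (get 1 (var 5)),
      set 14 (add (get 1 (add (var 5) (const 1))) (const 1)),
      walkLoop,
      set 15 (get 13 (var 11)),
      ite (eq (var 15) (const 0))
        (blk [
          nameNew,
          put 13 (var 11) (add (get 12 (var 8)) (const 1)),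
          put 14 (var 9) (var 11),
          set 9 (add (var 9) (const 1)),
          set 8 (add (var 8) (const 1))])
        (ite (eq (get 11 (var 8)) (const 0))
          (blk [
            put 12 (var 8) (sub (var 15) (const 1)),
            set 8 (add (var 8) (const 1))])
          (blk [
            set 16 (get 12 (sub (get 11 (var 8)) (const 1))),
            ite (eq (add (var 16) (const 1)) (var 15))
              (blk [
                put 12 (var 8) (var 16),
                set 8 (add (var 8) (const 1))])
              conflict]))])]

/-- Stage E: the main loop. -/
def stageE : Prog := blk [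
  set 8 (const 0),
  set 9 (const 0),
  set 10 (var 7),
  loop (lt (var 8) (var 21)) mainBody]

/-- Stage F: output. -/
def stageF : Prog := blk [
  set 2 (const 0),
  loop (lt (var 2) (var 0)) (blk [
    write (get 12 (add (var 0) (get 9 (var 2)))),
    set 2 (add (var 2) (const 1))])]

/-- The whole program. -/
def program : Prog := blk [stage0, stageA, stageB, stageC, stageD, stageE, stageF]

end Pool.Agent.CCL
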