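import Pool.Agent.CCL.Inst
import Pool.Agent.CCL.Abs
import Pool.Agent.CCL.Prog

/-! Definitions shared by the stages. -/

namespace Pool.Agent.CCL

/-- Reading an entry of array 11: zero means no partner. -/
def dec (x : ℕ) : Option ℕ := if x = 0 then none else some (x - 1)

theorem dec_eq_none {x : ℕ} : dec x = none ↔ x = 0 := by
  unfold dec; split <;> simp_all

theorem dec_eq_some {x y : ℕ} : dec x = some y ↔ x = y + 1 := by
  unfold dec
  split
  · subst_vars; simp
  · simp only [Option.some.injEq]; omega

theorem NInst.off_zero (G : NInst) : G.off 0 = 0 := by simp [NInst.off]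

theorem NInst.off_succ (G : NInst) (v : ℕ) : G.off (v + 1) = G.off v + (G.ch v).length := by
  simp [NInst.off, Finset.sum_range_succ]

theorem NInst.off_mono (G : NInst) {u v : ℕ} (h : u ≤ v) : G.off u ≤ G.off v := by
  induction h with
  | refl => exact le_rfl
  | step _ ih => rw [NInst.off_succ]; omega

theorem NInst.off_le_m (G : NInst) {v : ℕ} (h : v ≤ G.n) : G.off v ≤ G.m := G.off_mono h

/-- The input part of the state is determined by the registers 0, 1 and the arrays 0-4. -/
theorem NInst.Inp.congr {G : NInst} {s s' : St} (h : G.Inp s) (h0 : s'.v 0 = s.v 0)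
    (h1 : s'.v 1 = s.v 1) (a0 : s'.a 0 = s.a 0) (a1 : s'.a 1 = s.a 1) (a2 : s'.a 2 = s.a 2)
    (a3 : s'.a 3 = s.a 3) (a4 : s'.a 4 = s.a 4) : G.Inp s' where
  hn := by rw [h0]; exact h.hn
  hk := by rw [h1]; exact h.hk
  lab := by rw [a0]; exact h.lab
  off := by rw [a1]; exact h.off
  ch := by rw [a2]; exact h.ch
  pu := by rw [a3]; exact h.pu
  pv := by rw [a4]; exact h.pv

/-- `pos` and `ord` are inverse numberings of the vertices in which every edge which does not
descend has its head in the given list or on a directed cycle avoiding that list. -/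
structure OrdOK (G : NInst) (pos ord : ℕ → ℕ) : Prop where
  pos_lt : ∀ v < G.n, pos v < G.n
  ord_lt : ∀ t < G.n, ord t < G.n
  ord_pos : ∀ v < G.n, ord (pos v) = v
  pos_ord : ∀ t < G.n, pos (ord t) = t
  back : ∀ v < G.n, ∀ w ∈ G.ch v, pos v ≤ pos w → w ∈ G.fv ∨ Relation.TransGen G.Edge w w

/-- The element which stands for the child `w` of the vertex at position `p`: the vertex
element of `w` if `w` comes earlier, and its atom otherwise. -/
def elt (n : ℕ) (pos : ℕ → ℕ) (p w : ℕ) : ℕ := if pos w < p then n + pos w else pos w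

/-- The well ordered system of an instance: the elements below `n` are atoms, `n + p` is the
vertex at position `p`. -/
def mkSys (G : NInst) (pos ord : ℕ → ℕ) (h : OrdOK G pos ord) : Sys where
  N := G.n + G.n
  V t := G.n ≤ t ∧ t < G.n + G.n
  lab t := G.lab (ord (t - G.n))
  ch t := if G.n ≤ t ∧ t < G.n + G.n then
    (G.ch (ord (t - G.n))).map (elt G.n pos (t - G.n)) else []
  hch := by
    intro t c hc
    by_cases ht : G.n ≤ t ∧ t < G.n + G.n
    · rw [if_pos ht] at hc
      obtain ⟨w, hw, rfl⟩ := List.mem_map.mp hc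
      unfold elt
      split
      · omega
      · have := h.pos_lt w (G.hch _ (h.ord_lt _ (by omega)) w hw)
        omega
    · rw [if_neg ht] at hc; simp at hc
  hV := fun t ht => ht.2

/-- The number of elements with a partner. -/
def npar (n : ℕ) (A : ℕ → ℕ) : ℕ := ((Finset.range (n + n)).filter fun e => A e ≠ 0).card

/-- `e` is the vertex element and `x` the atom of the head of a non descending edge. -/
def Head (G : NInst) (pos : ℕ → ℕ) (e x : ℕ) : Prop :=
  ∃ v < G.n, ∃ w ∈ G.ch v, pos v ≤ pos w ∧ e = G.n + pos w ∧ x = pos w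

end Pool.Agent.CCL
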