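import Pool.Agent.CCL.Defs

/-! The closure on the elements of the well ordered system is the closure on the vertices. -/

namespace Pool.Agent.CCL

section Link

variable {G : NInst} {pos ord : ℕ → ℕ}

/-- The element `a` is the vertex element or the atom of the vertex `u`. -/
def Rep (G : NInst) (pos : ℕ → ℕ) (a u : ℕ) : Prop := u < G.n ∧ (a = G.n + pos u ∨ a = pos u)

theorem Rep.unique (h : OrdOK G pos ord) {a u v : ℕ} (hu : Rep G pos a u) (hv : Rep G pos a v) :
    u = v := by
  obtain ⟨hun, hu⟩ := hu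
  obtain ⟨hvn, hv⟩ := hv
  have h1 := h.pos_lt u hun
  have h2 := h.pos_lt v hvn
  have h3 : pos u = pos v := by
    rcases hu with hu | hu <;> rcases hv with hv | hv <;> omega
  rw [← h.ord_pos u hun, ← h.ord_pos v hvn, h3]

theorem rep_elt {p w : ℕ} (hw : w < G.n) : Rep G pos (elt G.n pos p w) w := by
  refine ⟨hw, ?_⟩
  unfold elt
  split
  · left; rfl
  · right; rfl

theorem mkSys_ch (h : OrdOK G pos ord) {v : ℕ} (hv : v < G.n) :
    (mkSys G pos ord h).ch (G.n + pos v) = (G.ch v).map (elt G.n pos (pos v)) := by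
  have h1 := h.pos_lt v hv
  have h2 : G.n ≤ G.n + pos v ∧ G.n + pos v < G.n + G.n := ⟨by omega, by omega⟩
  simp only [mkSys, if_pos h2, Nat.add_sub_cancel_left, h.ord_pos v hv]

theorem mkSys_lab (h : OrdOK G pos ord) {v : ℕ} (hv : v < G.n) :
    (mkSys G pos ord h).lab (G.n + pos v) = G.lab v := by
  simp only [mkSys, Nat.add_sub_cancel_left, h.ord_pos v hv]

theorem mkSys_V (h : OrdOK G pos ord) {v : ℕ} (hv : v < G.n) :
    (mkSys G pos ord h).V (G.n + pos v) := by
  have h1 := h.pos_lt v hv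
  exact ⟨by omega, by omega⟩

/-- Every vertex element belongs to a vertex. -/
theorem exists_vertex (h : OrdOK G pos ord) {t : ℕ} (ht : (mkSys G pos ord h).V t) :
    ∃ v < G.n, t = G.n + pos v := by
  obtain ⟨h1, h2⟩ : G.n ≤ t ∧ t < G.n + G.n := ht
  refine ⟨ord (t - G.n), h.ord_lt _ (by omega), ?_⟩
  rw [h.pos_ord _ (by omega)]
  omega

end Link

theorem link (G : NInst) {pos ord : ℕ → ℕ} (h : OrdOK G pos ord) (par : ℕ → Option ℕ)
    (hp : ∀ R : ℕ → ℕ → Prop, Equivalence R →
      ((∀ e x, par e = some x → R e x) ↔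
        (∀ e x, Head G pos e x → R e x) ∧
        ∀ i < G.k, R (G.n + pos (G.pu i)) (G.n + pos (G.pv i))))
    {x y : ℕ} (hx : x < G.n) (hy : y < G.n) :
    (mkSys G pos ord h).Cl par (G.n + pos x) (G.n + pos y) ↔ G.Cl x y := by
  constructor
  · intro hcl R hR
    obtain ⟨R', hR'⟩ : ∃ R' : ℕ → ℕ → Prop, R' = fun a b =>
        a = b ∨ ∃ u v, Rep G pos a u ∧ Rep G pos b v ∧ R u v := ⟨_, rfl⟩
    have heq : Equivalence R' := by
      rw [hR']
      refine ⟨fun a => Or.inl rfl, ?_, ?_⟩
      · rintro a b (rfl | ⟨u, v, hu, hv, huv⟩)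
        · exact Or.inl rfl
        · exact Or.inr ⟨v, u, hv, hu, hR.symm u v hu.1 hv.1 huv⟩
      · rintro a b c (rfl | ⟨u, v, hu, hv, huv⟩) (rfl | ⟨v', w, hv', hw, hvw⟩)
        · exact Or.inl rfl
        · exact Or.inr ⟨v', w, hv', hw, hvw⟩
        · exact Or.inr ⟨u, v, hu, hv, huv⟩
        · have := hv.unique h hv'
          subst this
          exact Or.inr ⟨u, w, hu, hw, hR.trans u v w hu.1 hv.1 hw.1 huv hvw⟩
    have hclosed : (mkSys G pos ord h).Closed par R' := by
      refine ⟨heq.refl, fun _ _ => heq.symm, fun _ _ _ => heq.trans, ?_, ?_⟩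
      · refine (hp R' heq).2 ⟨?_, ?_⟩
        · rintro e a ⟨v, hv, w, hw, -, rfl, rfl⟩
          have hwn := G.hch v hv w hw
          rw [hR']
          exact Or.inr ⟨w, w, ⟨hwn, Or.inl rfl⟩, ⟨hwn, Or.inr rfl⟩, hR.refl w hwn⟩
        · intro i hi
          rw [hR']
          exact Or.inr ⟨_, _, ⟨G.hpu i hi, Or.inl rfl⟩, ⟨G.hpv i hi, Or.inl rfl⟩, hR.pair i hi⟩
      · intro a b ha hb hlab hch
        obtain ⟨u, hu, rfl⟩ := exists_vertex h ha
        obtain ⟨v, hv, rfl⟩ := exists_vertex h hb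
        rw [mkSys_lab h hu, mkSys_lab h hv] at hlab
        rw [mkSys_ch h hu, mkSys_ch h hv, List.forall₂_map_left_iff,
          List.forall₂_map_right_iff] at hch
        have hch' : List.Forall₂ R (G.ch u) (G.ch v) := by
          rw [List.forall₂_iff_get] at hch ⊢
          obtain ⟨hlen, hch⟩ := hch
          refine ⟨hlen, fun i h1 h2 => ?_⟩
          have h3 := hch i h1 h2
          have hw1 := G.hch u hu _ (List.get_mem (G.ch u) ⟨i, h1⟩)
          have hw2 := G.hch v hv _ (List.get_mem (G.ch v) ⟨i, h2⟩)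
          have r1 := rep_elt (pos := pos) (p := pos u) hw1
          have r2 := rep_elt (pos := pos) (p := pos v) hw2
          rw [hR'] at h3
          rcases h3 with h3 | ⟨u', v', hu', hv', huv'⟩
          · rw [← h3] at r2
            rw [r1.unique h r2]
            exact hR.refl _ hw2
          · rw [r1.unique h hu', r2.unique h hv']
            exact huv'
        have := hR.cong u v hu hv hlab hch'
        rw [hR']
        exact Or.inr ⟨u, v, ⟨hu, Or.inl rfl⟩, ⟨hv, Or.inl rfl⟩, this⟩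
    have := hcl R' hclosed
    rw [hR'] at this
    rcases this with h1 | ⟨u, v, hu, hv, huv⟩
    · have : x = y := by
        rw [← h.ord_pos x hx, ← h.ord_pos y hy, Nat.add_left_cancel h1]
      rw [this]
      exact hR.refl y hy
    · have r1 : Rep G pos (G.n + pos x) x := ⟨hx, Or.inl rfl⟩
      have r2 : Rep G pos (G.n + pos y) y := ⟨hy, Or.inl rfl⟩
      rw [r1.unique h hu, r2.unique h hv]
      exact huv
  · intro hcl R' hR'
    have heq : Equivalence R' := ⟨hR'.refl, fun h => hR'.symm _ _ h, fun h h' =>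
      hR'.trans _ _ _ h h'⟩
    obtain ⟨hhead, hpair⟩ := (hp R' heq).1 hR'.pair
    have helt : ∀ u < G.n, ∀ w ∈ G.ch u, R' (elt G.n pos (pos u) w) (G.n + pos w) := by
      intro u hu w hw
      unfold elt
      split
      · exact hR'.refl _
      · exact hR'.symm _ _ (hhead _ _ ⟨u, hu, w, hw, by omega, rfl, rfl⟩)
    refine hcl (fun u v => R' (G.n + pos u) (G.n + pos v)) ?_
    refine ⟨fun u _ => hR'.refl _, fun u v _ _ huv => hR'.symm _ _ huv,
      fun u v w _ _ _ huv hvw => hR'.trans _ _ _ huv hvw, hpair, ?_⟩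
    intro u v hu hv hlab hch
    refine hR'.cong _ _ (mkSys_V h hu) (mkSys_V h hv) ?_ ?_
    · rw [mkSys_lab h hu, mkSys_lab h hv]
      exact hlab
    · rw [mkSys_ch h hu, mkSys_ch h hv, List.forall₂_map_left_iff,
        List.forall₂_map_right_iff]
      rw [List.forall₂_iff_get] at hch ⊢
      obtain ⟨hlen, hch⟩ := hch
      refine ⟨hlen, fun i h1 h2 => ?_⟩
      have h3 := hch i h1 h2
      refine hR'.trans _ _ _ (helt u hu _ (List.get_mem _ _)) ?_
      exact hR'.trans _ _ _ h3 (hR'.symm _ _ (helt v hv _ (List.get_mem _ _)))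

theorem npar_heads (G : NInst) {pos ord : ℕ → ℕ} (h : OrdOK G pos ord) (A : ℕ → ℕ)
    (hA : ∀ e x, dec (A e) = some x ↔ Head G pos e x) :
    npar G.n A ≤ G.fv.length + G.cyc := by
  classical
  have key : ∀ e, A e ≠ 0 → ∃ w < G.n, (w ∈ G.fv ∨ Relation.TransGen G.Edge w w) ∧
      e = G.n + pos w := by
    intro e he
    obtain ⟨x, hx⟩ : ∃ x, A e = x + 1 := ⟨A e - 1, by omega⟩
    obtain ⟨v, hv, w, hw, hpw, rfl, -⟩ := (hA e x).1 (dec_eq_some.2 hx)
    exact ⟨w, G.hch v hv w hw, h.back v hv w hw hpw, rfl⟩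
  have hcard : npar G.n A ≤ (G.fv.toFinset ∪
      (Finset.range G.n).filter fun v => Relation.TransGen G.Edge v v).card := by
    unfold npar
    refine Finset.card_le_card_of_injOn (fun e => ord (e - G.n)) ?_ ?_
    · intro e he
      have he' : e < G.n + G.n ∧ A e ≠ 0 := by simpa using he
      obtain ⟨w, hw, hcyc, rfl⟩ := key e he'.2
      have hval : ord (G.n + pos w - G.n) = w := by
        rw [Nat.add_sub_cancel_left, h.ord_pos w hw]
      show ord (G.n + pos w - G.n) ∈ _
      rw [hval]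
      rcases hcyc with hcyc | hcyc
      · exact Finset.mem_union_left _ (List.mem_toFinset.2 hcyc)
      · exact Finset.mem_union_right _ (Finset.mem_filter.2 ⟨Finset.mem_range.2 hw, hcyc⟩)
    · intro e he e' he' hee
      have h1 : e < G.n + G.n ∧ A e ≠ 0 := by simpa using he
      have h2 : e' < G.n + G.n ∧ A e' ≠ 0 := by simpa using he'
      obtain ⟨w, hw, -, rfl⟩ := key e h1.2
      obtain ⟨w', hw', -, rfl⟩ := key e' h2.2
      simp only [Nat.add_sub_cancel_left, h.ord_pos w hw, h.ord_pos w' hw'] at hee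
      rw [hee]
  refine hcard.trans ((Finset.card_union_le _ _).trans ?_)
  have hfv : G.fv.toFinset.card ≤ G.fv.length := List.toFinset_card_le G.fv
  have hcyc : ((Finset.range G.n).filter fun v => Relation.TransGen G.Edge v v).card =
      G.cyc := by
    unfold NInst.cyc
    congr
  rw [hcyc]
  exact Nat.add_le_add_right hfv _

end Pool.Agent.CCL
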