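import Pool.Agent.CCL.Defs

/-! Stage A: depth first search. -/

namespace Pool.Agent.CCL

/-- The invariant of the search: `col`, `nx`, `stk`, `pos`, `ord` are the arrays 6, 7, 8, 9, 10,
`c` is the number of finished vertices and `d` the height of the stack. -/
structure DInv (G : NInst) (col nx stk pos ord : ℕ → ℕ) (c d : ℕ) : Prop where
  colb : ∀ v, col v ≠ 0 → v < G.n
  cole : ∀ v, col v ≤ 1
  fcol : ∀ t < c, col (ord t) ≠ 0
  fpos : ∀ t < c, pos (ord t) = t
  scol : ∀ i < d, col (stk i) ≠ 0
  snf : ∀ i < d, ∀ t < c, ord t ≠ stk i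
  sinj : ∀ i < d, ∀ j < d, stk i = stk j → i = j
  cases : ∀ v, col v ≠ 0 → (∃ t < c, ord t = v) ∨ ∃ i < d, stk i = v
  path : ∀ i, i + 1 < d → stk (i + 1) ∈ G.ch (stk i) ∧ stk (i + 1) ∉ G.fv
  nx1 : ∀ i < d, G.off (stk i) ≤ nx (stk i)
  nx2 : ∀ i < d, nx (stk i) ≤ G.off (stk i + 1)
  seen : ∀ i < d, ∀ j (hj : j < (G.ch (stk i)).length), G.off (stk i) + j < nx (stk i) →
    col (G.ch (stk i))[j] ≠ 0 ∨ (G.ch (stk i))[j] ∈ G.fv
  back : ∀ t < c, ∀ w ∈ G.ch (ord t),
    (∃ t' < t, ord t' = w) ∨ w ∈ G.fv ∨ Relation.TransGen G.Edge w w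

open Classical in
/-- What a vertex still costs. -/
noncomputable def rem (G : NInst) (col nx ord : ℕ → ℕ) (c v : ℕ) : ℕ :=
  if col v = 0 then (G.ch v).length + 2
  else if ∃ t < c, ord t = v then 0 else (G.off (v + 1) - nx v) + 1

/-- The potential. -/
noncomputable def Phi (G : NInst) (col nx ord : ℕ → ℕ) (c : ℕ) : ℕ :=
  ∑ v ∈ Finset.range G.n, rem G col nx ord c v

theorem Phi_step {G : NInst} {col nx ord col' nx' ord' : ℕ → ℕ} {c c' v : ℕ}
    (hle : ∀ u < G.n, rem G col' nx' ord' c' u ≤ rem G col nx ord c u) (hv : v < G.n)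
    (hlt : rem G col' nx' ord' c' v < rem G col nx ord c v) :
    Phi G col' nx' ord' c' + 1 ≤ Phi G col nx ord c := by
  have : Phi G col' nx' ord' c' < Phi G col nx ord c :=
    Finset.sum_lt_sum (fun u hu => hle u (Finset.mem_range.mp hu))
      ⟨v, Finset.mem_range.mpr hv, hlt⟩
  omega

theorem Phi_le (G : NInst) (col nx ord : ℕ → ℕ) (c : ℕ) (h : ∀ v, col v = 0) :
    Phi G col nx ord c ≤ G.m + 2 * G.n := by
  unfold Phi
  have : ∀ v ∈ Finset.range G.n, rem G col nx ord c v = (G.ch v).length + 2 := by
    intro v _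
    unfold rem
    rw [if_pos (h v)]
  rw [Finset.sum_congr rfl this, Finset.sum_add_distrib]
  simp only [Finset.sum_const, Finset.card_range, smul_eq_mul]
  unfold NInst.m NInst.off
  omega

namespace DInv

variable {G : NInst} {col nx stk pos ord : ℕ → ℕ} {c d : ℕ}

theorem path_trans (h : DInv G col nx stk pos ord c d) {i : ℕ} :
    ∀ {j : ℕ}, i ≤ j → j < d → Relation.ReflTransGen G.Edge (stk i) (stk j) := by
  intro j hij
  induction hij with
  | refl => intro _; exact .refl
  | step hj ih =>
      rename_i m
      intro hm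
      exact (ih (by omega)).tail ⟨h.colb _ (h.scol m (by omega)), h.path m hm⟩

theorem d_le (h : DInv G col nx stk pos ord c d) : d ≤ G.n := by
  have := Finset.card_le_card_of_injOn (s := Finset.range d) (t := Finset.range G.n) stk
    (fun i hi => by
      simp only [Finset.coe_range, Set.mem_Iio] at hi ⊢
      exact h.colb _ (h.scol i hi))
    (fun i hi j hj hij => by
      simp only [Finset.coe_range, Set.mem_Iio] at hi hj
      exact h.sinj i hi j hj hij)
  simpa using this

theorem c_le (h : DInv G col nx stk pos ord c d) : c ≤ G.n := by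
  have := Finset.card_le_card_of_injOn (s := Finset.range c) (t := Finset.range G.n) ord
    (fun i hi => by
      simp only [Finset.coe_range, Set.mem_Iio] at hi ⊢
      exact h.colb _ (h.fcol i hi))
    (fun i hi j hj hij => by
      simp only [Finset.coe_range, Set.mem_Iio] at hi hj
      have h1 := h.fpos i hi
      have h2 := h.fpos j hj
      rw [hij] at h1
      omega)
  simpa using this

/-- Advance without a new vertex. -/
theorem advance (h : DInv G col nx stk pos ord c d) {v k : ℕ} (hk : k < d) (hv : stk k = v)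
    (hlt : nx v < G.off (v + 1)) (hw : ∀ (hj : nx v - G.off v < (G.ch v).length),
      col (G.ch v)[nx v - G.off v] ≠ 0 ∨ (G.ch v)[nx v - G.off v] ∈ G.fv) :
    DInv G col (Function.update nx v (nx v + 1)) stk pos ord c d ∧
    Phi G col (Function.update nx v (nx v + 1)) ord c + 1 ≤ Phi G col nx ord c := by
  have hcv : col v ≠ 0 := hv ▸ h.scol k hk
  have hvn : v < G.n := h.colb _ hcv
  have hnf : ¬ ∃ t < c, ord t = v := by
    rintro ⟨t, ht, rfl⟩
    exact h.snf k hk t ht hv.symm
  refine ⟨{ h with
    nx1 := fun i hi => ?_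
    nx2 := fun i hi => ?_
    seen := fun i hi j hj hlt' => ?_ }, ?_⟩
  · have := h.nx1 i hi
    by_cases e : stk i = v
    · rw [e, Function.update_self]; rw [e] at this; omega
    · rw [Function.update_of_ne e]; exact this
  · have := h.nx2 i hi
    by_cases e : stk i = v
    · rw [e, Function.update_self]; omega
    · rw [Function.update_of_ne e]; exact this
  · by_cases e : stk i = v
    · subst e
      rw [Function.update_self] at hlt'
      by_cases e2 : G.off (stk i) + j < nx (stk i)
      · exact h.seen i hi j hj e2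
      · have e3 : j = nx (stk i) - G.off (stk i) := by omega
        subst e3
        exact hw hj
    · rw [Function.update_of_ne e] at hlt'
      exact h.seen i hi j hj hlt'
  · refine Phi_step (v := v) (fun u _ => ?_) hvn ?_
    · unfold rem
      by_cases e : u = v
      · subst e
        rw [if_neg hcv, if_neg hcv, if_neg hnf, if_neg hnf, Function.update_self]; omega
      · rw [Function.update_of_ne e]
    · unfold rem
      rw [if_neg hcv, if_neg hcv, if_neg hnf, if_neg hnf, Function.update_self]; omega

/-- Push a new vertex. -/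
theorem push (h : DInv G col nx stk pos ord c d) {w : ℕ} (hwn : w < G.n) (hw : col w = 0)
    (hp : ∀ i, i + 1 = d → w ∈ G.ch (stk i) ∧ w ∉ G.fv) :
    DInv G (Function.update col w 1) (Function.update nx w (G.off w)) (Function.update stk d w)
      pos ord c (d + 1) ∧
    Phi G (Function.update col w 1) (Function.update nx w (G.off w)) ord c + 1 ≤
      Phi G col nx ord c := by
  have hcol : ∀ v, col v ≠ 0 → Function.update col w 1 v ≠ 0 := by
    intro v hv
    by_cases e : v = w
    · subst e; rw [Function.update_self]; omega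
    · rw [Function.update_of_ne e]; exact hv
  have hsw : ∀ i < d, stk i ≠ w := fun i hi e => h.scol i hi (e ▸ hw)
  have how : ∀ t < c, ord t ≠ w := fun t ht e => h.fcol t ht (e ▸ hw)
  refine ⟨{
    colb := ?_
    cole := fun v => by
      by_cases e : v = w
      · subst e; rw [Function.update_self]
      · rw [Function.update_of_ne e]; exact h.cole v
    fcol := fun t ht => hcol _ (h.fcol t ht)
    fpos := h.fpos
    scol := ?_
    snf := ?_
    sinj := ?_
    cases := ?_
    path := ?_
    nx1 := ?_
    nx2 := ?_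
    seen := ?_
    back := h.back }, ?_⟩
  · intro v hv
    by_cases e : v = w
    · rw [e]; exact hwn
    · rw [Function.update_of_ne e] at hv; exact h.colb v hv
  · intro i hi
    by_cases e : i = d
    · subst e; rw [Function.update_self, Function.update_self]; omega
    · rw [Function.update_of_ne e]; exact hcol _ (h.scol i (by omega))
  · intro i hi t ht
    by_cases e : i = d
    · subst e; rw [Function.update_self]; exact how t ht
    · rw [Function.update_of_ne e]; exact h.snf i (by omega) t ht
  · intro i hi j hj hij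
    by_cases e : i = d
    · by_cases e' : j = d
      · omega
      · rw [e, Function.update_self, Function.update_of_ne e'] at hij
        exact absurd hij.symm (hsw j (by omega))
    · by_cases e' : j = d
      · rw [e', Function.update_self, Function.update_of_ne e] at hij
        exact absurd hij (hsw i (by omega))
      · rw [Function.update_of_ne e, Function.update_of_ne e'] at hij
        exact h.sinj i (by omega) j (by omega) hij
  · intro v hv
    by_cases e : v = w
    · exact .inr ⟨d, by omega, by rw [Function.update_self, e]⟩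
    · rw [Function.update_of_ne e] at hv
      rcases h.cases v hv with h1 | ⟨i, hi, rfl⟩
      · exact .inl h1
      · exact .inr ⟨i, by omega, by rw [Function.update_of_ne (by omega)]⟩
  · intro i hi
    rw [Function.update_of_ne (show i ≠ d by omega)]
    by_cases e : i + 1 = d
    · rw [e, Function.update_self]; exact hp i e
    · rw [Function.update_of_ne e]; exact h.path i (by omega)
  · intro i hi
    by_cases e : i = d
    · subst e; rw [Function.update_self, Function.update_self]
    · rw [Function.update_of_ne e, Function.update_of_ne (hsw i (by omega))]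
      exact h.nx1 i (by omega)
  · intro i hi
    by_cases e : i = d
    · subst e; rw [Function.update_self, Function.update_self]
      exact G.off_mono (by omega)
    · rw [Function.update_of_ne e, Function.update_of_ne (hsw i (by omega))]
      exact h.nx2 i (by omega)
  · intro i hi
    by_cases e : i = d
    · subst e
      rw [Function.update_self, Function.update_self]
      intro j hj hlt
      omega
    · rw [Function.update_of_ne e, Function.update_of_ne (hsw i (by omega))]
      intro j hj hlt
      exact (h.seen i (by omega) j hj hlt).imp_left (hcol _)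
  · have how' : ¬ ∃ t < c, ord t = w := by
      rintro ⟨t, ht, e⟩
      exact how t ht e
    refine Phi_step (v := w) (fun u _ => ?_) hwn ?_
    · unfold rem
      by_cases e : u = w
      · subst e
        rw [Function.update_self, if_neg (by omega), if_neg how', if_pos hw,
          Function.update_self, G.off_succ]
        omega
      · rw [Function.update_of_ne e, Function.update_of_ne e]
    · unfold rem
      rw [Function.update_self, if_neg (by omega), if_neg how', if_pos hw,
        Function.update_self, G.off_succ]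
      omega

/-- Finish the vertex on top of the stack. -/
theorem pop (h : DInv G col nx stk pos ord c (d + 1)) {v : ℕ} (hv : stk d = v)
    (hge : G.off (v + 1) ≤ nx v) :
    DInv G col nx stk (Function.update pos v c) (Function.update ord c v) (c + 1) d ∧
    Phi G col nx (Function.update ord c v) (c + 1) + 1 ≤ Phi G col nx ord c := by
  have hcv : col v ≠ 0 := hv ▸ h.scol d (by omega)
  have hvn : v < G.n := h.colb _ hcv
  have hov : ∀ t < c, ord t ≠ v := fun t ht e => h.snf d (by omega) t ht (e.trans hv.symm)
  have hsv : ∀ i < d, stk i ≠ v := fun i hi e => by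
    have := h.sinj i (by omega) d (by omega) (e.trans hv.symm)
    omega
  refine ⟨{
    colb := h.colb
    cole := h.cole
    fcol := ?_
    fpos := ?_
    scol := fun i hi => h.scol i (by omega)
    snf := ?_
    sinj := fun i hi j hj => h.sinj i (by omega) j (by omega)
    cases := ?_
    path := fun i hi => h.path i (by omega)
    nx1 := fun i hi => h.nx1 i (by omega)
    nx2 := fun i hi => h.nx2 i (by omega)
    seen := fun i hi => h.seen i (by omega)
    back := ?_ }, ?_⟩
  · intro t ht
    by_cases e : t = c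
    · rw [e, Function.update_self]; exact hcv
    · rw [Function.update_of_ne e]; exact h.fcol t (by omega)
  · intro t ht
    by_cases e : t = c
    · rw [e, Function.update_self, Function.update_self]
    · rw [Function.update_of_ne e, Function.update_of_ne (hov t (by omega))]
      exact h.fpos t (by omega)
  · intro i hi t ht
    by_cases e : t = c
    · rw [e, Function.update_self]; exact (hsv i hi).symm
    · rw [Function.update_of_ne e]; exact h.snf i (by omega) t (by omega)
  · intro u hu
    rcases h.cases u hu with ⟨t, ht, e⟩ | ⟨i, hi, e⟩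
    · exact .inl ⟨t, by omega, by rw [Function.update_of_ne (by omega)]; exact e⟩
    · by_cases e2 : i = d
      · exact .inl ⟨c, by omega, by rw [Function.update_self, ← hv, ← e2]; exact e⟩
      · exact .inr ⟨i, by omega, e⟩
  · intro t ht w hw
    by_cases e : t = c
    · subst e
      rw [Function.update_self] at hw
      obtain ⟨j, hj, rfl⟩ := List.mem_iff_getElem.mp hw
      subst hv
      by_cases hfv : (G.ch (stk d))[j] ∈ G.fv
      · exact .inr (.inl hfv)
      have hc : col (G.ch (stk d))[j] ≠ 0 := by
        refine (h.seen d (by omega) j hj ?_).resolve_right hfv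
        rw [G.off_succ] at hge
        omega
      rcases h.cases _ hc with ⟨t', ht', e⟩ | ⟨i, hi, e⟩
      · exact .inl ⟨t', ht', by rw [Function.update_of_ne (by omega)]; exact e⟩
      · right
        right
        rw [← e]
        have h1 := h.path_trans (show i ≤ d by omega) (by omega)
        have h2 : G.Edge (stk d) (stk i) := ⟨hvn, by rw [e]; exact hw, by rw [e]; exact hfv⟩
        exact Relation.TransGen.tail' h1 h2
    · rw [Function.update_of_ne e] at hw
      rcases h.back t (by omega) w hw with ⟨t', ht', e'⟩ | h2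
      · exact .inl ⟨t', ht', by rw [Function.update_of_ne (by omega)]; exact e'⟩
      · exact .inr h2
  · have hov' : ¬ ∃ t < c, ord t = v := by
      rintro ⟨t, ht, e⟩
      exact hov t ht e
    have hfin : ∃ t < c + 1, Function.update ord c v t = v := ⟨c, by omega, by simp⟩
    refine Phi_step (v := v) (fun u _ => ?_) hvn ?_
    · unfold rem
      by_cases e0 : col u = 0
      · rw [if_pos e0, if_pos e0]
      · rw [if_neg e0, if_neg e0]
        by_cases e1 : ∃ t < c, ord t = u
        · have e2 : ∃ t < c + 1, Function.update ord c v t = u := by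
            obtain ⟨t, ht, e⟩ := e1
            exact ⟨t, by omega, by rw [Function.update_of_ne (by omega)]; exact e⟩
          rw [if_pos e2]
          exact Nat.zero_le _
        · rw [if_neg e1]
          split
          · exact Nat.zero_le _
          · exact le_rfl
    · unfold rem
      rw [if_neg hcv, if_neg hcv, if_pos hfin, if_neg hov']
      omega

end DInv

/-- The invariant for a state. -/
def SInv (G : NInst) (s : St) (d : ℕ) : Prop :=
  DInv G (s.a 6) (s.a 7) (s.a 8) (s.a 9) (s.a 10) (s.v 3) d

/-- The potential of a state. -/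
noncomputable def PhiS (G : NInst) (s : St) : ℕ := Phi G (s.a 6) (s.a 7) (s.a 10) (s.v 3)

theorem dfsBody_spec (G : NInst) {s : St} {b : ℕ} (hI : G.Inp s) (hM : G.Mark s)
    (h : SInv G s (s.v 4)) (hd : 0 < s.v 4) (hb : G.n + G.m + 2 ≤ b) :
    Sp b dfsBody s (fun s' t => SInv G s' (s'.v 4) ∧ (∀ v, s.a 6 v ≠ 0 → s'.a 6 v ≠ 0) ∧
      t ≤ 46 ∧ PhiS G s' + 1 ≤ PhiS G s) := by
  obtain ⟨d, hd'⟩ : ∃ d, s.v 4 = d + 1 := ⟨s.v 4 - 1, by omega⟩
  rw [hd'] at h
  unfold SInv at h
  obtain ⟨v, hv⟩ : ∃ v, s.a 8 d = v := ⟨_, rfl⟩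
  have hvn : v < G.n := hv ▸ h.colb _ (h.scol d (by omega))
  have hov : s.a 1 (v + 1) = G.off (v + 1) := hI.off _ (by omega)
  have hoff : G.off (v + 1) ≤ G.m := G.off_le_m (by omega)
  have hoff2 : G.off v ≤ s.a 7 v := hv ▸ h.nx1 d (by omega)
  have hoff3 : s.a 7 v ≤ G.off (v + 1) := hv ▸ h.nx2 d (by omega)
  have hcn := h.c_le
  have hdn := h.d_le
  have hlen : ∀ (hlt : s.a 7 v < G.off (v + 1)), s.a 7 v - G.off v < (G.ch v).length := by
    intro hlt
    rw [G.off_succ] at hlt
    omega
  have hwv : ∀ (hlt : s.a 7 v < G.off (v + 1)), s.a 2 (s.a 7 v) =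
      (G.ch v)[s.a 7 v - G.off v]'(hlen hlt) := by
    intro hlt
    have := hI.ch v hvn (s.a 7 v - G.off v) (hlen hlt)
    rwa [show G.off v + (s.a 7 v - G.off v) = s.a 7 v by omega] at this
  unfold dfsBody
  refine Sp.cons (Sp.set (by simp; omega) ?_)
  refine Sp.cons (Sp.ite ?_ (fun hc => ?_) (fun hc => ?_))
  · simp [hd', hv]
    omega
  · simp [hd', hv, hov] at hc
    obtain ⟨w, hw⟩ : ∃ w, s.a 2 (s.a 7 v) = w := ⟨_, rfl⟩
    have hw' : w = (G.ch v)[s.a 7 v - G.off v]'(hlen hc) := hw ▸ hwv hc
    have hwm : w ∈ G.ch v := hw' ▸ List.getElem_mem _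
    have hwn : w < G.n := G.hch v hvn w hwm
    have how : s.a 1 w = G.off w := hI.off _ (by omega)
    refine Sp.cons (Sp.set (by simp) ?_)
    refine Sp.cons (Sp.put ?_ ?_ ?_)
    · simp
    · simp [St.setv_v, hd', hv]; omega
    · have hcw := h.cole w
      have hmw : s.a 17 w ≤ 1 := by
        rw [hM w hwn]; split <;> omega
      refine Sp.cons (Sp.ite ?_ (fun hc2 => ?_) (fun hc2 => ?_))
      · simp [St.setv_v, St.seta_a, hd', hv, hw]; omega
      · simp [St.setv_v, St.seta_a, hd', hv, hw] at hc2
        obtain ⟨hc2, hc3⟩ := hc2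
        have hwfv : w ∉ G.fv := by
          intro hc4
          rw [hM w hwn, if_pos hc4] at hc3
          omega
        refine Sp.cons (Sp.put ?_ ?_ ?_)
        · simp
        · simp; omega
        refine Sp.cons (Sp.put ?_ ?_ ?_)
        · simp
        · simp
        refine Sp.cons (Sp.put ?_ ?_ ?_)
        · simp
        · simp
        refine Sp.cons (Sp.set ?_ ?_)
        · simp [St.setv_v, hd']; omega
        refine Sp.nil (Sp.nil (Sp.nil ?_))
        have hvw : v ≠ w := fun e => h.scol d (by omega) (by rw [hv, e]; exact hc2)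
        have h1 := h.push hwn hc2 (fun i hi => by
          have : i = d := by omega
          rw [this, hv]; exact ⟨hwm, hwfv⟩)
        have h2 := h1.1.advance (k := d) (v := v) (by omega)
          (by rw [Function.update_of_ne (by omega)]; exact hv)
          (by rw [Function.update_of_ne hvw]; exact hc)
          (by
            rw [Function.update_of_ne hvw]
            intro hj
            rw [← hw', Function.update_self]
            left
            omega)
        rw [Function.update_of_ne hvw, Function.update_comm hvw.symm] at h2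
        simp [St.setv_v, St.seta_a, hd', hv, hw, how, SInv, PhiS]
        refine ⟨h2.1, fun u hu => ?_, ?_⟩
        · by_cases e : u = w
          · rw [e, Function.update_self]; omega
          · rw [Function.update_of_ne e]; exact hu
        · have := h1.2
          have := h2.2
          omega
      · simp [St.setv_v, St.seta_a, hd', hv, hw] at hc2
        refine Sp.skip (Sp.nil (Sp.nil ?_))
        have h2 := h.advance (k := d) (v := v) (by omega) hv hc (fun _ => by
          rw [← hw']
          by_cases hc4 : w ∈ G.fv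
          · exact .inr hc4
          · rw [hM w hwn, if_neg hc4] at hc2
            exact .inl (fun e => hc2 e rfl))
        simp [St.setv_v, St.seta_a, hd', hv, hw, SInv, PhiS]
        exact ⟨h2.1, by have := h2.2; omega⟩
  · simp [hd', hv, hov] at hc
    refine Sp.cons (Sp.set (by simp; omega) ?_)
    refine Sp.cons (Sp.put (by simp) (by simp) ?_)
    refine Sp.cons (Sp.put (by simp) (by simp) ?_)
    refine Sp.cons (Sp.set ?_ ?_)
    · simp [St.setv_v]; omega
    refine Sp.nil (Sp.nil ?_)
    have h2 := h.pop hv hc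
    simp [St.setv_v, St.seta_a, hd', hv, SInv, PhiS]
    exact ⟨h2.1, by have := h2.2; omega⟩

theorem dfsLoop_spec (G : NInst) {s : St} {b : ℕ} (hI : G.Inp s) (hM : G.Mark s)
    (h : SInv G s (s.v 4)) (hb : G.n + G.m + 2 ≤ b) :
    Sp b (Prog.loop (Cn.lt (Ex.const 0) (Ex.var 4)) dfsBody) s (fun s' t => SInv G s' 0 ∧
      s'.v 2 = s.v 2 ∧ G.Inp s' ∧ (∀ v, s.a 6 v ≠ 0 → s'.a 6 v ≠ 0) ∧
      t + 49 * PhiS G s' ≤ 49 * PhiS G s + 3) := by
  refine Sp.mono_run (Sp.loop (fun s1 => G.Inp s1 ∧ SInv G s1 (s1.v 4) ∧
    (∀ v, s.a 6 v ≠ 0 → s1.a 6 v ≠ 0) ∧ G.Mark s1) (fun s1 => 49 * PhiS G s1)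
    (fun s1 _ => by simp) ?_ ⟨hI, h, fun v hv => hv, hM⟩) ?_
  · rintro s1 ⟨h1, h2, h3, h4⟩ hc
    simp at hc
    refine Sp.mono_run (dfsBody_spec G h1 h4 h2 hc hb) ?_
    rintro s' t hrun ⟨g1, g2, g3, g4⟩
    refine ⟨⟨?_, g1, fun v hv => g2 v (h3 v hv), fun w hw => by
      rw [hrun.frame_a (A := 17) rfl]; exact h4 w hw⟩, ?_⟩
    · exact h1.congr (hrun.frame_v rfl) (hrun.frame_v rfl) (hrun.frame_a rfl) (hrun.frame_a rfl)
        (hrun.frame_a rfl) (hrun.frame_a rfl) (hrun.frame_a rfl)
    · simp only [Cn.cost, Ex.cost]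
      omega
  · rintro s' t hrun ⟨⟨g1, g2, g3, _⟩, g4, g5⟩
    simp only [Cn.eval, Ex.eval, not_lt, Nat.le_zero] at g4
    simp only [Cn.cost, Ex.cost] at g5
    rw [g4] at g2
    exact ⟨g2, hrun.frame_v rfl, g1, g3, by omega⟩

theorem dfsRoot_spec (G : NInst) {s : St} {b : ℕ} (hI : G.Inp s) (hM : G.Mark s)
    (h : SInv G s 0) (hr : s.v 2 < G.n) (hall : ∀ v < s.v 2, s.a 6 v ≠ 0) (hb : G.n + G.m + 2 ≤ b) :
    Sp b dfsRoot s (fun s' t => SInv G s' 0 ∧ s'.v 2 = s.v 2 + 1 ∧ (∀ v < s'.v 2, s'.a 6 v ≠ 0) ∧
      t + 49 * PhiS G s' ≤ 49 * PhiS G s + 30) := by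
  obtain ⟨r, hr'⟩ : ∃ r, s.v 2 = r := ⟨_, rfl⟩
  rw [hr'] at hr hall
  have hoff : s.a 1 r = G.off r := hI.off _ (by omega)
  unfold dfsRoot
  refine Sp.cons (Sp.ite (by simp) (fun hc => ?_) (fun hc => ?_))
  · simp [hr'] at hc
    have h1 := DInv.push h hr hc (fun i hi => by omega)
    refine Sp.cons (Sp.put (by simp) (by simp; omega) ?_)
    refine Sp.cons (Sp.put (by simp) (by simp) ?_)
    refine Sp.cons (Sp.put (by simp) (by simp) ?_)
    refine Sp.cons (Sp.set (by simp; omega) ?_)
    refine Sp.cons ?_
    obtain ⟨s1, hs1⟩ : ∃ s1, s1 = (((s.seta 6 (s.v 2) 1).seta 7 (s.v 2) (s.a 1 (s.v 2))).seta 8 0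
      (s.v 2)).setv 4 1 := ⟨_, rfl⟩
    have hI1 : G.Inp s1 := by
      subst hs1
      exact hI.congr (by simp [St.setv_v]) (by simp [St.setv_v]) (by simp [St.seta_a])
        (by simp [St.seta_a]) (by simp [St.seta_a]) (by simp [St.seta_a]) (by simp [St.seta_a])
    have hM1 : G.Mark s1 := by
      subst hs1
      intro w hw
      simpa [St.seta_a] using hM w hw
    have hS1 : SInv G s1 (s1.v 4) := by
      subst hs1
      simpa [St.setv_v, St.seta_a, hr', hoff, SInv] using h1.1
    have hP1 : PhiS G s1 + 1 ≤ PhiS G s := by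
      subst hs1
      simpa [St.setv_v, St.seta_a, hr', hoff, PhiS] using h1.2
    have h21 : s1.v 2 = r := by
      subst hs1
      simp [St.setv_v, hr']
    have h61 : ∀ v, (s.a 6 v ≠ 0 ∨ v = r) → s1.a 6 v ≠ 0 := by
      subst hs1
      intro v hv
      by_cases e : v = r
      · simp [St.seta_a, hr', e]
      · simp [St.seta_a, hr', e]
        tauto
    have h31 : s1.v 3 = s.v 3 := by
      subst hs1
      simp [St.setv_v]
    simp only [Ex.eval, Ex.cost, Cn.cost, St.seta_a, St.seta_v]
    rw [if_neg (show ¬ (1 : ℕ) = 6 by omega), ← hs1]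
    refine Sp.mono (dfsLoop_spec G hI1 hM1 hS1 hb) ?_
    rintro s2 t ⟨g1, g2, g3, g4, g5⟩
    rw [h21] at g2
    refine Sp.nil (Sp.cons (Sp.set (by simp; omega) (Sp.nil ?_)))
    refine ⟨g1, by simp [g2, hr'], ?_, ?_⟩
    · intro v hv
      simp [g2] at hv
      refine g4 v (h61 v ?_)
      by_cases e : v = r
      · exact .inr e
      · exact .inl (hall v (by omega))
    · have e : PhiS G (s2.setv 2 (Ex.eval s2 ((Ex.var 2).add (Ex.const 1)))) = PhiS G s2 := by
        simp [PhiS, St.setv_v]
      rw [e]
      simp only [Ex.cost]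
      omega
  · simp [hr'] at hc
    refine Sp.skip (Sp.cons (Sp.set (by simp; omega) (Sp.nil ?_)))
    refine ⟨h, by simp [hr'], ?_, ?_⟩
    · intro v hv
      simp [hr'] at hv
      by_cases e : v = r
      · rw [e]; exact hc
      · exact hall v (by omega)
    · have e : PhiS G (s.setv 2 (Ex.eval s ((Ex.var 2).add (Ex.const 1)))) = PhiS G s := by
        simp [PhiS, St.setv_v]
      rw [e]
      simp only [Ex.cost, Cn.cost]
      omega

/-- File `StageA.lean`. -/
theorem stageA_spec (G : NInst) {s : St} {b : ℕ} (hI : G.Inp s) (hM : G.Mark s)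
    (hcol : ∀ v, s.a 6 v = 0) (hb : G.n + G.m + 2 ≤ b) :
    Sp b stageA s (fun s' t => OrdOK G (s'.a 9) (s'.a 10) ∧ t ≤ 200 * (1 + G.n + G.m)) := by
  unfold stageA
  refine Sp.cons (Sp.set (by simp) (Sp.cons (Sp.set (by simp) (Sp.cons ?_))))
  obtain ⟨s1, hs1⟩ : ∃ s1, s1 = (s.setv 2 0).setv 3 0 := ⟨_, rfl⟩
  simp only [Ex.eval, Ex.cost]
  rw [← hs1]
  have hI1 : G.Inp s1 := by
    subst hs1
    exact hI.congr rfl rfl rfl rfl rfl rfl rfl
  have hM1 : G.Mark s1 := by subst hs1; exact hM
  have h2 : s1.v 2 = 0 := by subst hs1; simp [St.setv_v]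
  have h6 : s1.a 6 = s.a 6 := by subst hs1; rfl
  have h3 : s1.v 3 = 0 := by subst hs1; simp [St.setv_v]
  have hS1 : SInv G s1 0 := by
    unfold SInv
    rw [h3, h6]
    exact {
      colb := fun v hv => absurd (hcol v) hv
      cole := fun v => by rw [hcol]; omega
      fcol := fun t ht => by omega
      fpos := fun t ht => by omega
      scol := fun t ht => by omega
      snf := fun t ht => by omega
      sinj := fun t ht => by omega
      cases := fun v hv => absurd (hcol v) hv
      path := fun t ht => by omega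
      nx1 := fun t ht => by omega
      nx2 := fun t ht => by omega
      seen := fun t ht => by omega
      back := fun t ht => by omega }
  have hP : PhiS G s1 ≤ G.m + 2 * G.n := by
    unfold PhiS
    rw [h6]
    exact Phi_le G _ _ _ _ hcol
  refine Sp.mono (Sp.loop (fun s' => G.Inp s' ∧ SInv G s' 0 ∧ s'.v 2 ≤ G.n ∧
      (∀ v < s'.v 2, s'.a 6 v ≠ 0) ∧ G.Mark s')
      (fun s' => 49 * PhiS G s' + 40 * (G.n - s'.v 2))
      (fun s' _ => by simp) ?_ ⟨hI1, hS1, by omega, fun v hv => by omega, hM1⟩) ?_
  · rintro s2 ⟨g1, g2, g3, g4, g5⟩ hc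
    simp only [Cn.eval, Ex.eval, g1.hn] at hc
    refine Sp.mono_run (dfsRoot_spec G g1 g5 g2 hc g4 hb) ?_
    rintro s3 t hrun ⟨k1, k2, k3, k4⟩
    refine ⟨⟨?_, k1, by omega, k3, fun w hw => by
      rw [hrun.frame_a (A := 17) rfl]; exact g5 w hw⟩, ?_⟩
    · exact g1.congr (hrun.frame_v rfl) (hrun.frame_v rfl) (hrun.frame_a rfl) (hrun.frame_a rfl)
        (hrun.frame_a rfl) (hrun.frame_a rfl) (hrun.frame_a rfl)
    · simp only [Cn.cost, Ex.cost]
      omega
  · rintro s2 t ⟨⟨g1, g2, g3, g4, _⟩, g5, g6⟩
    simp only [Cn.eval, Ex.eval, g1.hn] at g5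
    simp only [Cn.cost, Ex.cost] at g6
    refine Sp.nil ⟨?_, ?_⟩
    · have hall : ∀ v < G.n, s2.a 6 v ≠ 0 := fun v hv => g4 v (by omega)
      have hfin : ∀ v < G.n, ∃ t < s2.v 3, s2.a 10 t = v := by
        intro v hv
        rcases g2.cases v (hall v hv) with h | ⟨i, hi, _⟩
        · exact h
        · omega
      have hc : s2.v 3 = G.n := by
        refine le_antisymm g2.c_le ?_
        have := Finset.card_le_card_of_injOn (s := Finset.range G.n)
          (t := Finset.range (s2.v 3)) (s2.a 9)
          (fun v hv => by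
            simp only [Finset.coe_range, Set.mem_Iio] at hv ⊢
            obtain ⟨t, ht, rfl⟩ := hfin v hv
            rw [g2.fpos t ht]; exact ht)
          (fun v hv w hw hvw => by
            simp only [Finset.coe_range, Set.mem_Iio] at hv hw
            obtain ⟨t, ht, rfl⟩ := hfin v hv
            obtain ⟨t', ht', rfl⟩ := hfin w hw
            rw [g2.fpos t ht, g2.fpos t' ht'] at hvw
            rw [hvw])
        simpa using this
      exact {
        pos_lt := fun v hv => by
          obtain ⟨t, ht, rfl⟩ := hfin v hv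
          rw [g2.fpos t ht]; omega
        ord_lt := fun t ht => g2.colb _ (g2.fcol t (by omega))
        ord_pos := fun v hv => by
          obtain ⟨t, ht, rfl⟩ := hfin v hv
          rw [g2.fpos t ht]
        pos_ord := fun t ht => g2.fpos t (by omega)
        back := fun v hv w hw hle => by
          obtain ⟨t, ht, rfl⟩ := hfin v hv
          rcases g2.back t ht w hw with ⟨t', ht', rfl⟩ | h
          · rw [g2.fpos t ht, g2.fpos t' (by omega)] at hle
            omega
          · exact h }
    · omega

end Pool.Agent.CCL
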