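import Pool.Agent.CCL.Defs

/-! The stages B (block width) and F (output). -/

namespace Pool.Agent.CCL

open Ex Cn Prog

/-- invariant of the loop of stage B -/
private structure InvB (G : NInst) (L : ℕ) (s st : St) : Prop where
  v0 : st.v 0 = G.n
  v21 : st.v 21 = G.n + G.n
  a0 : st.a 0 = s.a 0
  v2 : st.v 2 ≤ G.n
  lo : G.n + G.n + 2 ≤ st.v 7
  hi : st.v 7 ≤ G.n + G.n + L + 2
  all : ∀ v < st.v 2, G.lab v + 2 ≤ st.v 7

/-- File `StageBF.lean`. -/
theorem stageB_spec (G : NInst) {s : St} {b L : ℕ} (hI : G.Inp s)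
    (hL : ∀ v < G.n, G.lab v ≤ L) (hb : G.n + G.n + L + 4 ≤ b) :
    Sp b stageB s (fun s' t => s'.v 21 = G.n + G.n ∧ G.n + G.n + 2 ≤ s'.v 7 ∧
      (∀ v < G.n, G.lab v + 2 ≤ s'.v 7) ∧ s'.v 7 ≤ G.n + G.n + L + 2 ∧
      t ≤ 100 * (1 + G.n)) := by
  have hn := hI.hn
  unfold stageB
  refine Sp.cons (Sp.set ?_ ?_)
  · simp only [Ex.ok, Ex.eval, true_and]; omega
  refine Sp.cons (Sp.set ?_ ?_)
  · simp only [Ex.ok, Ex.eval, true_and, St.setv_v_self]; omega
  refine Sp.cons (Sp.set ?_ ?_)
  · simp only [Ex.ok]; omega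
  refine Sp.cons ((Sp.loop (InvB G L s) (fun st => 40 * (G.n - st.v 2)) ?_ ?_ ?_).mono ?_)
  · intro st hst
    simp only [Cn.ok, Ex.ok, and_self]
  · intro st hst hc
    simp only [Cn.eval, Ex.eval, hst.v0] at hc
    have hlab : st.a 0 (st.v 2) = G.lab (st.v 2) := by rw [hst.a0]; exact hI.lab _ hc
    have hle := hL _ hc
    refine Sp.cons (Sp.ite ?_ ?_ ?_)
    · simp only [Cn.ok, Ex.ok, Ex.eval, true_and, hlab]; omega
    · intro h1
      simp only [Cn.eval, Ex.eval, hlab] at h1
      refine Sp.set ?_ ?_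
      · simp only [Ex.ok, Ex.eval, true_and, hlab]; omega
      refine Sp.cons (Sp.set ?_ (Sp.nil ⟨?_, ?_⟩))
      · simp only [Ex.ok, Ex.eval, true_and, St.setv_v]; norm_num; omega
      · have hv := hst.v0
        have hv21 := hst.v21
        have hlo := hst.lo
        have hhi := hst.hi
        constructor
        · simp [St.setv_v, hv]
        · simp [St.setv_v, hv21]
        · simp [hst.a0]
        · simp [St.setv_v]; omega
        · simp [St.setv_v, hlab]; omega
        · simp [St.setv_v, hlab]; omega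
        · intro v hvlt
          simp [St.setv_v, hlab] at hvlt ⊢
          rcases Nat.lt_or_eq_of_le hvlt with h2 | rfl
          · have := hst.all v h2; omega
          · omega
      · simp [St.setv_v]; omega
    · intro h1
      simp only [Cn.eval, Ex.eval, hlab] at h1
      refine Sp.skip ?_
      refine Sp.cons (Sp.set ?_ (Sp.nil ⟨?_, ?_⟩))
      · simp only [Ex.ok, Ex.eval, true_and]; omega
      · have hv := hst.v0
        have hv21 := hst.v21
        have hlo := hst.lo
        have hhi := hst.hi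
        constructor
        · simp [St.setv_v, hv]
        · simp [St.setv_v, hv21]
        · simp [hst.a0]
        · simp [St.setv_v]; omega
        · simp [St.setv_v]; omega
        · simp [St.setv_v]; omega
        · intro v hvlt
          simp [St.setv_v] at hvlt ⊢
          rcases Nat.lt_or_eq_of_le hvlt with h2 | rfl
          · exact hst.all v h2
          · omega
      · simp [St.setv_v]; omega
  · constructor
    · simp [St.setv_v, hn]
    · simp [St.setv_v, hn]
    · simp
    · simp [St.setv_v]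
    · simp [St.setv_v, hn]
    · simp [St.setv_v, hn]
    · simp
  · rintro s' t ⟨hinv, hc, ht⟩
    simp only [Cn.eval, Ex.eval, hinv.v0] at hc
    have h2 : s'.v 2 = G.n := le_antisymm hinv.v2 (by omega)
    refine Sp.nil ⟨hinv.v21, hinv.lo, ?_, hinv.hi, ?_⟩
    · rw [← h2]; exact hinv.all
    · simp [St.setv_v] at ht ⊢
      omega

/-- File `StageBF.lean` (stageB_spec unchanged). -/
theorem stageF_spec (G : NInst) {s : St} {b : ℕ} (hI : G.Inp s)
    (hpos : ∀ v < G.n, s.a 9 v < G.n) (hb : G.n + G.n + 2 ≤ b) :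
    Sp b stageF s (fun s' t =>
      s'.out = s.out ++ (List.range G.n).map (fun v => s.a 12 (G.n + s.a 9 v)) ∧
      t ≤ 100 * (1 + G.n)) := by
  have hn := hI.hn
  unfold stageF
  refine Sp.cons (Sp.set ?_ ?_)
  · simp only [Ex.ok]; omega
  refine Sp.cons ((Sp.loop (fun st => st.v 0 = G.n ∧ st.a 9 = s.a 9 ∧ st.a 12 = s.a 12 ∧
    st.v 2 ≤ G.n ∧
    st.out = s.out ++ (List.range (st.v 2)).map (fun v => s.a 12 (G.n + s.a 9 v)))
    (fun st => 40 * (G.n - st.v 2)) ?_ ?_ ?_).mono ?_)
  · intro st hst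
    simp only [Cn.ok, Ex.ok, and_self]
  · rintro st ⟨h0, h9, h12, h2, hout⟩ hc
    simp only [Cn.eval, Ex.eval, h0] at hc
    have hp := hpos _ hc
    refine Sp.cons (Sp.write ?_ ?_)
    · simp only [Ex.ok, Ex.eval, true_and, h0, h9]; omega
    refine Sp.cons (Sp.set ?_ (Sp.nil ⟨⟨?_, ?_, ?_, ?_, ?_⟩, ?_⟩))
    · simp only [Ex.ok, Ex.eval, true_and, St.seto_v]; omega
    · simp [St.setv_v, h0]
    · simp [h9]
    · simp [h12]
    · simp; omega
    · simp [h0, h9, h12, hout, List.range_succ]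
    · simp; omega
  · refine ⟨?_, ?_, ?_, ?_, ?_⟩
    · simp [St.setv_v, hn]
    · simp
    · simp
    · simp
    · simp
  · rintro s' t ⟨⟨h0, h9, h12, h2, hout⟩, hc, ht⟩
    simp only [Cn.eval, Ex.eval, h0] at hc
    have h2' : s'.v 2 = G.n := le_antisymm h2 (by omega)
    refine Sp.nil ⟨?_, ?_⟩
    · rw [hout, h2']
    · simp at ht ⊢
      omega

end Pool.Agent.CCL
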