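import Pool.Agent.CCL.Defs

/-! Stage C: the partners of the heads of the non descending edges. -/

namespace Pool.Agent.CCL

open Ex Cn Prog

/-- the heads of the non descending edges which leave a vertex below `r` -/
private def scU (G : NInst) (pos : ℕ → ℕ) (r e x : ℕ) : Prop :=
  ∃ v < r, ∃ w ∈ G.ch v, pos v ≤ pos w ∧ e = G.n + pos w ∧ x = pos w

/-- the heads of the first `k` edges leaving `r`, if not descending -/
private def scI (G : NInst) (pos : ℕ → ℕ) (r k e x : ℕ) : Prop :=
  ∃ i, ∃ hi : i < (G.ch r).length, i < k ∧ pos r ≤ pos ((G.ch r)[i]) ∧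
    e = G.n + pos ((G.ch r)[i]) ∧ x = pos ((G.ch r)[i])

private theorem scI_zero {G : NInst} {pos : ℕ → ℕ} {r e x : ℕ} : ¬ scI G pos r 0 e x := by
  rintro ⟨i, _, h, _⟩
  omega

private theorem scU_zero {G : NInst} {pos : ℕ → ℕ} {e x : ℕ} : ¬ scU G pos 0 e x := by
  rintro ⟨v, h, _⟩
  omega

private theorem scU_succ {G : NInst} {pos : ℕ → ℕ} {r e x : ℕ} :
    scU G pos (r + 1) e x ↔ scU G pos r e x ∨ scI G pos r (G.ch r).length e x := by
  constructor
  · rintro ⟨v, hv, w, hw, h1, h2, h3⟩
    rcases Nat.lt_succ_iff_lt_or_eq.1 hv with hv | rfl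
    · exact Or.inl ⟨v, hv, w, hw, h1, h2, h3⟩
    · right
      obtain ⟨i, hi, rfl⟩ := List.mem_iff_getElem.1 hw
      exact ⟨i, hi, hi, h1, h2, h3⟩
  · rintro (⟨v, hv, w, hw, h1, h2, h3⟩ | ⟨i, hi, _, h1, h2, h3⟩)
    · exact ⟨v, by omega, w, hw, h1, h2, h3⟩
    · exact ⟨r, by omega, _, List.getElem_mem hi, h1, h2, h3⟩

private theorem scI_succ {G : NInst} {pos : ℕ → ℕ} {r k e x : ℕ} (hk : k < (G.ch r).length) :
    scI G pos r (k + 1) e x ↔ scI G pos r k e x ∨ (pos r ≤ pos ((G.ch r)[k]) ∧
      e = G.n + pos ((G.ch r)[k]) ∧ x = pos ((G.ch r)[k])) := by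
  constructor
  · rintro ⟨i, hi, h, h1, h2, h3⟩
    rcases Nat.lt_succ_iff_lt_or_eq.1 h with h | rfl
    · exact Or.inl ⟨i, hi, h, h1, h2, h3⟩
    · exact Or.inr ⟨h1, h2, h3⟩
  · rintro (⟨i, hi, h, h1, h2, h3⟩ | ⟨h1, h2, h3⟩)
    · exact ⟨i, hi, by omega, h1, h2, h3⟩
    · exact ⟨k, hk, by omega, h1, h2, h3⟩

private theorem scU_eq {G : NInst} {pos : ℕ → ℕ} {r e x : ℕ} (h : scU G pos r e x) :
    e = G.n + x := by
  obtain ⟨v, _, w, _, _, h2, h3⟩ := h
  rw [h2, h3]

private theorem scI_eq {G : NInst} {pos : ℕ → ℕ} {r k e x : ℕ} (h : scI G pos r k e x) :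
    e = G.n + x := by
  obtain ⟨i, _, _, _, h2, h3⟩ := h
  rw [h2, h3]

/-- the inner loop of stage C -/
private def scLoop : Prog :=
  loop (lt (var 13) (get 1 (add (var 2) (const 1)))) (blk [
      set 6 (get 9 (get 2 (var 13))),
      ite (lt (var 6) (get 9 (var 2)))
        skip
        (put 11 (add (var 0) (var 6)) (add (var 6) (const 1))),
      set 13 (add (var 13) (const 1))])

private theorem scLoop_spec (G : NInst) {s0 s : St} {b r : ℕ} (hI : G.Inp s0)
    (hpos : ∀ v < G.n, s0.a 9 v < G.n) (hb : G.n + G.n + G.m + 2 ≤ b) (hr : r < G.n)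
    (h0 : s.v 0 = G.n) (h2 : s.v 2 = r) (h13 : s.v 13 = G.off r)
    (ha : ∀ A, A ≠ 11 → s.a A = s0.a A)
    (hs : ∀ e x, dec (s.a 11 e) = some x ↔ scU G (s0.a 9) r e x) :
    Sp b scLoop s (fun s' t => s'.v 0 = G.n ∧ s'.v 2 = r ∧ (∀ A, A ≠ 11 → s'.a A = s0.a A) ∧
      (∀ e x, dec (s'.a 11 e) = some x ↔ scU G (s0.a 9) (r + 1) e x) ∧
      t ≤ 30 * (G.ch r).length + 6) := by
  have hoff := G.off_succ r
  have hm : G.off (r + 1) ≤ G.m := G.off_le_m (by omega)
  unfold scLoop
  refine (Sp.loop
    (fun s' => s'.v 0 = G.n ∧ s'.v 2 = r ∧ (∀ A, A ≠ 11 → s'.a A = s0.a A) ∧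
      G.off r ≤ s'.v 13 ∧ s'.v 13 ≤ G.off (r + 1) ∧
      ∀ e x, dec (s'.a 11 e) = some x ↔
        scU G (s0.a 9) r e x ∨ scI G (s0.a 9) r (s'.v 13 - G.off r) e x)
    (fun s' => 30 * (G.off (r + 1) - s'.v 13)) ?_ ?_ ?_).mono ?_
  · rintro s' ⟨k0, k2, ka, k3, k4, k5⟩
    simp only [Cn.ok, Ex.ok, Ex.eval, k2, true_and]
    omega
  · rintro s' ⟨k0, k2, ka, k3, k4, k5⟩ hc
    have e1 : s'.a 1 (r + 1) = G.off (r + 1) := by
      rw [ka 1 (by decide)]; exact hI.off _ (by omega)
    have hlt : s'.v 13 < G.off (r + 1) := by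
      have := hc
      simp only [Cn.eval, Ex.eval, k2, e1] at this
      exact this
    obtain ⟨i, hi⟩ : ∃ i, s'.v 13 = G.off r + i := ⟨s'.v 13 - G.off r, by omega⟩
    have hil : i < (G.ch r).length := by omega
    have hiv : s'.v 13 - G.off r = i := by omega
    have e2 : s'.a 2 (s'.v 13) = (G.ch r)[i] := by
      rw [ka 2 (by decide), hi]; exact hI.ch r hr i hil
    have hwn : (G.ch r)[i] < G.n := G.hch r hr _ (List.getElem_mem hil)
    have e9 : s'.a 9 = s0.a 9 := ka 9 (by decide)
    have hp := hpos _ hwn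
    rw [hiv] at k5
    apply Sp.cons
    apply Sp.set
    · simp only [Ex.ok]
    apply Sp.cons
    simp only [Ex.eval, e2, e9]
    apply Sp.ite
    · simp only [Cn.ok, Ex.ok, and_self]
    · intro hcc
      have hcc' : s0.a 9 ((G.ch r)[i]) < s0.a 9 r := by
        simpa [St.setv_v, k2, e9] using hcc
      apply Sp.skip
      apply Sp.cons
      apply Sp.set
      · simp only [Ex.ok, Ex.eval, St.setv_v, true_and]
        simp only [if_neg (show ¬ (13 = 6) by decide)]
        omega
      apply Sp.nil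
      refine ⟨⟨?_, ?_, ?_, ?_, ?_, ?_⟩, ?_⟩
      · simp [St.setv_v, k0]
      · simp [St.setv_v, k2]
      · intro A hA
        simpa using ka A hA
      · simp [St.setv_v]; omega
      · simp [St.setv_v]; omega
      · intro e x
        have e3 : ((s'.setv 6 (s0.a 9 (G.ch r)[i])).setv 13
            ((s'.setv 6 (s0.a 9 (G.ch r)[i])).v 13 + 1)).v 13 - G.off r = i + 1 := by
          simp [St.setv_v]; omega
        simp only [Ex.eval]
        rw [e3, scI_succ hil]
        simp only [St.setv_a]
        rw [k5 e x]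
        constructor
        · rintro (h | h)
          · exact Or.inl h
          · exact Or.inr (Or.inl h)
        · rintro (h | h | ⟨h, _, _⟩)
          · exact Or.inl h
          · exact Or.inr h
          · omega
      · simp [St.setv_v]; omega
    · intro hcc
      have hcc' : s0.a 9 r ≤ s0.a 9 ((G.ch r)[i]) := by
        have : ¬ s0.a 9 ((G.ch r)[i]) < s0.a 9 r := by
          simpa [St.setv_v, k2, e9] using hcc
        omega
      apply Sp.put
      · refine ⟨trivial, trivial, ?_⟩
        simp only [Ex.eval, St.setv_v_self]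
        rw [St.setv_v_ne _ (by decide), k0]
        omega
      · refine ⟨trivial, ?_, ?_⟩
        · simp only [Ex.ok]
          omega
        · simp only [Ex.eval, St.setv_v_self]
          omega
      apply Sp.cons
      apply Sp.set
      · simp only [Ex.ok, Ex.eval, St.setv_v, St.seta_v, true_and]
        simp only [if_neg (show ¬ (13 = 6) by decide)]
        omega
      apply Sp.nil
      refine ⟨⟨?_, ?_, ?_, ?_, ?_, ?_⟩, ?_⟩
      · simp [St.setv_v, k0]
      · simp [St.setv_v, k2]
      · intro A hA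
        simp [St.seta_a, hA, ka A hA]
      · simp [St.setv_v]; omega
      · simp [St.setv_v]; omega
      · intro e x
        have e3 : ∀ q : St, q.v = (s'.setv 6 (s0.a 9 (G.ch r)[i])).v →
            (q.setv 13 (q.v 13 + 1)).v 13 - G.off r = i + 1 := by
          intro q hq
          rw [St.setv_v_self, hq]
          simp [St.setv_v]; omega
        simp only [Ex.eval]
        rw [e3 _ (by simp), scI_succ hil]
        simp only [St.setv_a, St.seta_a_self, St.setv_v, if_true,
          if_neg (show ¬ (0 = 6) by decide), k0, Function.update_apply]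
        by_cases he : e = G.n + s0.a 9 (G.ch r)[i]
        · rw [if_pos he, dec_eq_some]
          constructor
          · intro h
            right; right
            exact ⟨hcc', he, by omega⟩
          · rintro (h | h | ⟨_, _, h⟩)
            · have := scU_eq h; omega
            · have := scI_eq h; omega
            · omega
        · rw [if_neg he, k5 e x]
          constructor
          · rintro (h | h)
            · exact Or.inl h
            · exact Or.inr (Or.inl h)
          · rintro (h | h | ⟨_, h, _⟩)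
            · exact Or.inl h
            · exact Or.inr h
            · exact absurd h he
      · simp [St.setv_v]; omega
  · refine ⟨h0, h2, ha, h13.ge, by omega, fun e x => ?_⟩
    rw [h13, Nat.sub_self, hs e x]
    constructor
    · exact Or.inl
    · rintro (h | h)
      · exact h
      · exact absurd h scI_zero
  · rintro s' t ⟨⟨k0, k2, ka, k3, k4, k5⟩, hc, ht⟩
    have e1 : s'.a 1 (r + 1) = G.off (r + 1) := by
      rw [ka 1 (by decide)]; exact hI.off _ (by omega)
    have hge : G.off (r + 1) ≤ s'.v 13 := by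
      have : ¬ s'.v 13 < G.off (r + 1) := by
        simpa [k2, e1] using hc
      omega
    refine ⟨k0, k2, ka, fun e x => ?_, ?_⟩
    · rw [k5 e x, scU_succ]
      have e3 : s'.v 13 - G.off r = (G.ch r).length := by omega
      rw [e3]
    · simp only [Cn.cost, Ex.cost, h13] at ht
      omega

/-- File `StageC.lean`. -/
theorem stageC_spec (G : NInst) {s : St} {b : ℕ} (hI : G.Inp s)
    (hpos : ∀ v < G.n, s.a 9 v < G.n) (h0 : ∀ e, s.a 11 e = 0)
    (hb : G.n + G.n + G.m + 2 ≤ b) :
    Sp b stageC s (fun s' t => (∀ e x, dec (s'.a 11 e) = some x ↔ Head G (s.a 9) e x) ∧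
      t ≤ 100 * (1 + G.n + G.m)) := by
  unfold stageC
  apply Sp.cons
  apply Sp.set
  · simp only [Ex.ok]; omega
  apply Sp.cons
  refine (Sp.loop
    (fun s' => s'.v 0 = G.n ∧ s'.v 2 ≤ G.n ∧ (∀ A, A ≠ 11 → s'.a A = s.a A) ∧
      ∀ e x, dec (s'.a 11 e) = some x ↔ scU G (s.a 9) (s'.v 2) e x)
    (fun s' => 30 * (G.n - s'.v 2) + 30 * (G.off G.n - G.off (s'.v 2))) ?_ ?_ ?_).mono ?_
  · rintro s' ⟨k0, k2, ka, k5⟩
    simp only [Cn.ok, Ex.ok, and_self]
  · rintro s' ⟨k0, k2, ka, k5⟩ hc
    have hlt : s'.v 2 < G.n := by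
      have := hc
      simp only [Cn.eval, Ex.eval, k0] at this
      exact this
    apply Sp.cons
    apply Sp.set
    · simp only [Ex.ok]
    apply Sp.cons
    refine (scLoop_spec G (s0 := s) (r := s'.v 2) hI hpos hb hlt ?_ ?_ ?_ ?_ ?_).mono ?_
    · simp [St.setv_v, k0]
    · simp [St.setv_v]
    · rw [St.setv_v_self]
      simp only [Ex.eval]
      rw [ka 1 (by decide)]
      exact hI.off _ (by omega)
    · intro A hA
      simpa using ka A hA
    · intro e x
      simpa using k5 e x
    · rintro s1 t1 ⟨l0, l2, la, l5, lt⟩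
      apply Sp.cons
      apply Sp.set
      · simp only [Ex.ok, Ex.eval, l2, true_and]
        omega
      apply Sp.nil
      have hoff := G.off_succ (s'.v 2)
      have hmono : G.off (s'.v 2 + 1) ≤ G.off G.n := G.off_mono (by omega)
      refine ⟨⟨?_, ?_, ?_, ?_⟩, ?_⟩
      · simp [St.setv_v, l0]
      · simp [St.setv_v, l2]; omega
      · intro A hA
        simpa using la A hA
      · intro e x
        simp only [Ex.eval, St.setv_v_self, St.setv_a, l2]
        exact l5 e x
      · simp only [Ex.eval, St.setv_v_self, l2, Ex.cost, Cn.cost]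
        omega
  · refine ⟨?_, ?_, ?_, ?_⟩
    · simp [St.setv_v, hI.hn]
    · simp [St.setv_v]
    · intro A _
      simp
    · intro e x
      simp only [Ex.eval, St.setv_v_self, St.setv_a, h0, dec]
      constructor
      · intro h; simp at h
      · intro h; exact absurd h scU_zero
  · rintro s' t ⟨⟨k0, k2, ka, k5⟩, hc, ht⟩
    apply Sp.nil
    have hge : s'.v 2 = G.n := by
      have : ¬ s'.v 2 < G.n := by simpa [k0] using hc
      omega
    refine ⟨fun e x => ?_, ?_⟩
    · rw [k5 e x, hge]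
      rfl
    · have e0 : G.off 0 = 0 := G.off_zero
      have e1 : G.off G.n = G.m := rfl
      simp only [Cn.cost, Ex.cost, Ex.eval, St.setv_v_self, e0, e1] at ht ⊢
      omega

end Pool.Agent.CCL
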