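import Pool.Agent.CCL.Defs

/-! Stage D: insertion of the input pairs. -/

namespace Pool.Agent.CCL

open Ex Cn Prog

private theorem stD_put {A : ℕ → ℕ} {u w : ℕ} (hw : A w = 0) (R : ℕ → ℕ → Prop) :
    (∀ e x, dec (Function.update A w (u + 1) e) = some x → R e x) ↔
      (∀ e x, dec (A e) = some x → R e x) ∧ R w u := by
  constructor
  · intro h
    refine ⟨fun e x hex => ?_, ?_⟩
    · have hne : e ≠ w := by
        rintro rfl
        rw [hw, dec_eq_some] at hex
        omega
      exact h e x (by rw [Function.update_of_ne hne]; exact hex)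
    · exact h w u (by rw [Function.update_self, dec_eq_some])
  · rintro ⟨h1, h2⟩ e x hex
    by_cases he : e = w
    · subst he
      rw [Function.update_self, dec_eq_some] at hex
      have : x = u := by omega
      rw [this]; exact h2
    · rw [Function.update_of_ne he] at hex
      exact h1 e x hex

private theorem stD_npar (n : ℕ) (A : ℕ → ℕ) (w y : ℕ) :
    npar n (Function.update A w y) ≤ npar n A + 1 := by
  unfold npar
  refine le_trans (Finset.card_le_card (t := insert w ((Finset.range (n + n)).filter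
    fun e => A e ≠ 0)) ?_) (Finset.card_insert_le _ _)
  intro e he
  rw [Finset.mem_filter] at he
  rw [Finset.mem_insert, Finset.mem_filter]
  by_cases hew : e = w
  · exact Or.inl hew
  · right
    rw [Function.update_of_ne hew] at he
    exact he

/-- The specification of the insertion loop. -/
theorem insLoop_spec (n : ℕ) {s : St} {b : ℕ} (hu : s.v 19 < n + n) (hw : s.v 6 < n + n)
    (hpar : ∀ e x, dec (s.a 11 e) = some x → x < e ∧ e < n + n) (hb : n + n + 2 ≤ b) :
    Sp b insLoop s (fun s' t =>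
      (∀ e x, dec (s'.a 11 e) = some x → x < e ∧ e < n + n) ∧
      (∀ R : ℕ → ℕ → Prop, Equivalence R →
        ((∀ e x, dec (s'.a 11 e) = some x → R e x) ↔
          (∀ e x, dec (s.a 11 e) = some x → R e x) ∧ R (s.v 19) (s.v 6))) ∧
      npar n (s'.a 11) ≤ npar n (s.a 11) + 1 ∧ t ≤ 104 * n + 3) := by
  let I : St → Prop := fun s1 =>
    s1.v 19 < n + n ∧ s1.v 6 < n + n ∧
    (∀ e x, dec (s1.a 11 e) = some x → x < e ∧ e < n + n) ∧
    (∀ R : ℕ → ℕ → Prop, Equivalence R →
      ((∀ e x, dec (s1.a 11 e) = some x → R e x) ∧ R (s1.v 19) (s1.v 6) ↔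
        (∀ e x, dec (s.a 11 e) = some x → R e x) ∧ R (s.v 19) (s.v 6))) ∧
    (npar n (s1.a 11) + 1 ≤ npar n (s.a 11) + 1 ∨
      (s1.v 19 = s1.v 6 ∧ npar n (s1.a 11) ≤ npar n (s.a 11) + 1))
  have hloop := Sp.loop (b := b) (c := ne (var 19) (var 6)) (p := blk [
    Prog.ite (lt (var 6) (var 19))
      (blk [
        set 15 (var 19),
        set 19 (var 6),
        set 6 (var 15)])
      Prog.skip,
    Prog.ite (eq (get 11 (var 6)) (const 0))
      (blk [
        put 11 (var 6) (add (var 19) (const 1)),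
        set 6 (var 19)])
      (set 6 (sub (get 11 (var 6)) (const 1)))]) I (fun s1 => 26 * (s1.v 19 + s1.v 6))
    (fun _ _ => by simp) ?_ (s := s) ?_
  · refine Sp.mono hloop ?_
    rintro s' t ⟨⟨_, _, h3, h4, h5⟩, h6, h7⟩
    have h6' : s'.v 19 = s'.v 6 := by simpa using h6
    refine ⟨h3, fun R hR => ?_, ?_, ?_⟩
    · rw [← h4 R hR]
      exact ⟨fun h => ⟨h, by rw [h6']; exact hR.refl _⟩, fun h => h.1⟩
    · rcases h5 with h5 | h5
      · omega
      · exact h5.2
    · simp only [Cn.cost, Ex.cost] at h7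
      omega
  · -- the body
    rintro s1 ⟨h1, h2, h3, h4, h5⟩ hc
    have hc' : s1.v 19 ≠ s1.v 6 := by simpa using hc
    have hcount : npar n (s1.a 11) + 1 ≤ npar n (s.a 11) + 1 := by
      rcases h5 with h5 | h5
      · exact h5
      · exact absurd h5.1 hc'
    refine Sp.cons (Sp.mono (Q := fun s2 t2 => s2.a = s1.a ∧
      ((s2.v 19 = s1.v 19 ∧ s2.v 6 = s1.v 6) ∨ (s2.v 19 = s1.v 6 ∧ s2.v 6 = s1.v 19)) ∧
      s2.v 19 < s2.v 6 ∧ t2 ≤ 10) ?_ ?_)
    · refine Sp.ite (by simp) (fun hlt => ?_) (fun hlt => ?_)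
      · have hlt' : s1.v 6 < s1.v 19 := by simpa using hlt
        refine Sp.cons (Sp.set (by simp) (Sp.cons (Sp.set (by simp)
          (Sp.cons (Sp.set (by simp) (Sp.nil ?_))))))
        refine ⟨rfl, Or.inr ⟨?_, ?_⟩, ?_, ?_⟩
        · simp [St.setv_v]
        · simp [St.setv_v]
        · simpa [St.setv_v] using hlt'
        · simp
      · have hlt' : ¬ s1.v 6 < s1.v 19 := by simpa using hlt
        refine Sp.skip ⟨rfl, Or.inl ⟨rfl, rfl⟩, by omega, ?_⟩
        simp
    · rintro s2 t2 ⟨ha, hcase, hlt, ht2⟩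
      have hsum : s2.v 19 + s2.v 6 = s1.v 19 + s1.v 6 := by omega
      have h1' : s2.v 19 < n + n := by omega
      have h2' : s2.v 6 < n + n := by omega
      have h3' : ∀ e x, dec (s2.a 11 e) = some x → x < e ∧ e < n + n := by rw [ha]; exact h3
      have h4' : ∀ R : ℕ → ℕ → Prop, Equivalence R →
          ((∀ e x, dec (s2.a 11 e) = some x → R e x) ∧ R (s2.v 19) (s2.v 6) ↔
          (∀ e x, dec (s.a 11 e) = some x → R e x) ∧ R (s.v 19) (s.v 6)) := by
        intro R hR
        rw [← h4 R hR, ha]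
        rcases hcase with ⟨h6, h7⟩ | ⟨h6, h7⟩
        · rw [h6, h7]
        · rw [h6, h7]
          exact and_congr_right fun _ => ⟨fun h => hR.symm h, fun h => hR.symm h⟩
      have hcount' : npar n (s2.a 11) + 1 ≤ npar n (s.a 11) + 1 := by rw [ha]; exact hcount
      refine Sp.cons (Sp.ite (by simp) (fun hz => ?_) (fun hz => ?_))
      · have hz' : s2.a 11 (s2.v 6) = 0 := by simpa using hz
        refine Sp.cons (Sp.put (by simp) (by simp; omega) (Sp.cons (Sp.set (by simp)
          (Sp.nil (Sp.nil ?_)))))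
        refine ⟨⟨?_, ?_, ?_, ?_, ?_⟩, ?_⟩
        · simpa [St.setv_v] using h1'
        · simpa [St.setv_v] using h1'
        · intro e x hex
          simp only [St.setv_a, Ex.eval, St.seta_a_self] at hex
          by_cases he : e = s2.v 6
          · rw [he, Function.update_self, dec_eq_some] at hex
            omega
          · rw [Function.update_of_ne he] at hex
            exact h3' e x hex
        · intro R hR
          rw [← h4' R hR]
          simp only [St.setv_a, Ex.eval, St.seta_a_self]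
          rw [stD_put hz' R]
          simp only [St.setv_v_self, St.seta_v]
          rw [St.setv_v_ne _ (by decide), St.seta_v]
          exact ⟨fun h => ⟨h.1.1, hR.symm h.1.2⟩, fun h => ⟨⟨h.1, hR.symm h.2⟩, hR.refl _⟩⟩
        · right
          simp only [St.setv_a, Ex.eval, St.seta_a_self]
          refine ⟨by simp [St.setv_v], ?_⟩
          have := stD_npar n (s2.a 11) (s2.v 6) (s2.v 19 + 1)
          omega
        · simp [St.setv_v]
          omega
      · have hz' : s2.a 11 (s2.v 6) ≠ 0 := by simpa using hz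
        have hd : dec (s2.a 11 (s2.v 6)) = some (s2.a 11 (s2.v 6) - 1) := by
          rw [dec_eq_some]; omega
        have hd' := h3' _ _ hd
        refine Sp.set (by simp; omega) (Sp.nil ?_)
        refine ⟨⟨?_, ?_, ?_, ?_, ?_⟩, ?_⟩
        · simpa [St.setv_v] using h1'
        · simp [St.setv_v]
          omega
        · exact h3'
        · intro R hR
          rw [← h4' R hR]
          simp only [St.setv_a, Ex.eval, St.setv_v_self]
          rw [St.setv_v_ne _ (by decide)]
          refine and_congr_right fun h => ?_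
          have h8 := h _ _ hd
          exact ⟨fun h9 => hR.trans h9 (hR.symm h8), fun h9 => hR.trans h9 h8⟩
        · left
          exact hcount'
        · simp [St.setv_v]
          omega
  · exact ⟨hu, hw, hpar, fun R hR => Iff.rfl, Or.inl le_rfl⟩

/-- File `StageD.lean`. -/
theorem stageD_spec (G : NInst) {s : St} {b : ℕ} (hI : G.Inp s)
    (hpos : ∀ v < G.n, s.a 9 v < G.n)
    (hpar : ∀ e x, dec (s.a 11 e) = some x → x < e ∧ e < G.n + G.n)
    (hb : G.n + G.n + G.k + 2 ≤ b) :
    Sp b stageD s (fun s' t =>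
      (∀ e x, dec (s'.a 11 e) = some x → x < e ∧ e < G.n + G.n) ∧
      (∀ R : ℕ → ℕ → Prop, Equivalence R →
        ((∀ e x, dec (s'.a 11 e) = some x → R e x) ↔
          (∀ e x, dec (s.a 11 e) = some x → R e x) ∧
          ∀ i < G.k, R (G.n + s.a 9 (G.pu i)) (G.n + s.a 9 (G.pv i)))) ∧
      npar G.n (s'.a 11) ≤ npar G.n (s.a 11) + G.k ∧
      t ≤ 200 * (1 + G.k) * (1 + G.n)) := by
  let I : St → Prop := fun s1 =>
    s1.v 0 = G.n ∧ s1.v 1 = G.k ∧ s1.a 3 = s.a 3 ∧ s1.a 4 = s.a 4 ∧ s1.a 9 = s.a 9 ∧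
    s1.v 2 ≤ G.k ∧
    (∀ e x, dec (s1.a 11 e) = some x → x < e ∧ e < G.n + G.n) ∧
    (∀ R : ℕ → ℕ → Prop, Equivalence R →
      ((∀ e x, dec (s1.a 11 e) = some x → R e x) ↔
        (∀ e x, dec (s.a 11 e) = some x → R e x) ∧
        ∀ i < s1.v 2, R (G.n + s.a 9 (G.pu i)) (G.n + s.a 9 (G.pv i)))) ∧
    npar G.n (s1.a 11) ≤ npar G.n (s.a 11) + s1.v 2
  refine Sp.cons (Sp.set (by simp) (Sp.cons ?_))
  have hloop := Sp.loop (b := b) (c := lt (var 2) (var 1)) (p := blk [
    set 19 (add (var 0) (get 9 (get 3 (var 2)))),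
    set 6 (add (var 0) (get 9 (get 4 (var 2)))),
    insLoop,
    set 2 (add (var 2) (const 1))]) I (fun s1 => (G.k - s1.v 2) * (104 * (1 + G.n)))
    (fun _ _ => by simp) ?_ (s := s.setv 2 ((const 0).eval s)) ?_
  · refine Sp.mono hloop ?_
    rintro s' t ⟨⟨h0, h1, h3, h4, h9, h2, hp, hR, hn⟩, hc, ht⟩
    have hc' : ¬ s'.v 2 < s'.v 1 := by simpa using hc
    have hk : s'.v 2 = G.k := by omega
    refine Sp.nil ⟨hp, ?_, ?_, ?_⟩
    · rw [hk] at hR; exact hR
    · rw [hk] at hn; exact hn
    · simp only [St.setv_v_self, Ex.eval, Cn.cost, Ex.cost, Nat.sub_zero] at ht ⊢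
      have h5 : t ≤ G.k * (104 * (1 + G.n)) + 3 := by omega
      nlinarith
  · rintro s1 ⟨h0, h1, h3, h4, h9, h2, hp, hR, hn⟩ hc
    have hc' : s1.v 2 < G.k := by
      have : s1.v 2 < s1.v 1 := by simpa using hc
      omega
    have hpu : s1.a 3 (s1.v 2) = G.pu (s1.v 2) := by rw [h3]; exact hI.pu _ hc'
    have hpv : s1.a 4 (s1.v 2) = G.pv (s1.v 2) := by rw [h4]; exact hI.pv _ hc'
    have hpu' : s1.a 9 (s1.a 3 (s1.v 2)) < G.n := by
      rw [hpu, h9]; exact hpos _ (G.hpu _ hc')
    have hpv' : s1.a 9 (s1.a 4 (s1.v 2)) < G.n := by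
      rw [hpv, h9]; exact hpos _ (G.hpv _ hc')
    refine Sp.cons (Sp.set (by simp; omega) (Sp.cons (Sp.set ?_ (Sp.cons ?_))))
    · simp [St.setv_v]; omega
    · have hu : (add (var 0) (get 9 (get 3 (var 2)))).eval s1 = G.n + s.a 9 (G.pu (s1.v 2)) := by
        simp only [Ex.eval]; rw [h0, hpu, h9]
      have hv : (add (var 0) (get 9 (get 4 (var 2)))).eval (s1.setv 19
          ((add (var 0) (get 9 (get 3 (var 2)))).eval s1)) = G.n + s.a 9 (G.pv (s1.v 2)) := by
        simp only [Ex.eval, St.setv_a]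
        rw [St.setv_v_ne _ (by decide), St.setv_v_ne _ (by decide), h0, hpv, h9]
      rw [hv, hu]
      have hul : G.n + s.a 9 (G.pu (s1.v 2)) < G.n + G.n := by
        have := hpos _ (G.hpu _ hc'); omega
      have hvl : G.n + s.a 9 (G.pv (s1.v 2)) < G.n + G.n := by
        have := hpos _ (G.hpv _ hc'); omega
      set s2 : St := (s1.setv 19 (G.n + s.a 9 (G.pu (s1.v 2)))).setv 6
        (G.n + s.a 9 (G.pv (s1.v 2))) with hs2
      have e19 : s2.v 19 = G.n + s.a 9 (G.pu (s1.v 2)) := by
        rw [hs2, St.setv_v_ne _ (by decide), St.setv_v_self]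
      have e6 : s2.v 6 = G.n + s.a 9 (G.pv (s1.v 2)) := by
        rw [hs2, St.setv_v_self]
      have e0 : s2.v 0 = G.n := by
        rw [hs2, St.setv_v_ne _ (by decide), St.setv_v_ne _ (by decide), h0]
      have e1 : s2.v 1 = G.k := by
        rw [hs2, St.setv_v_ne _ (by decide), St.setv_v_ne _ (by decide), h1]
      have e2 : s2.v 2 = s1.v 2 := by
        rw [hs2, St.setv_v_ne _ (by decide), St.setv_v_ne _ (by decide)]
      have ea : s2.a = s1.a := rfl
      refine Sp.mono_run (insLoop_spec G.n (s := s2) (b := b) (by rw [e19]; exact hul)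
        (by rw [e6]; exact hvl) (by rw [ea]; exact hp) (by omega)) ?_
      rintro s3 t3 hrun ⟨hp3, hR3, hn3, ht3⟩
      have f0 : s3.v 0 = s2.v 0 := hrun.frame_v (by decide)
      have f1 : s3.v 1 = s2.v 1 := hrun.frame_v (by decide)
      have f2 : s3.v 2 = s2.v 2 := hrun.frame_v (by decide)
      have f3 : s3.a 3 = s2.a 3 := hrun.frame_a (by decide)
      have f4 : s3.a 4 = s2.a 4 := hrun.frame_a (by decide)
      have f9 : s3.a 9 = s2.a 9 := hrun.frame_a (by decide)
      refine Sp.cons (Sp.set (by simp; omega) (Sp.nil ?_))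
      have g2 : s3.v 2 = s1.v 2 := by rw [f2, e2]
      refine ⟨⟨?_, ?_, ?_, ?_, ?_, ?_, ?_, ?_, ?_⟩, ?_⟩
      · rw [St.setv_v_ne _ (by decide), f0, e0]
      · rw [St.setv_v_ne _ (by decide), f1, e1]
      · rw [St.setv_a, f3, ea, h3]
      · rw [St.setv_a, f4, ea, h4]
      · rw [St.setv_a, f9, ea, h9]
      · simp only [St.setv_v_self, Ex.eval]; omega
      · exact hp3
      · intro R hRe
        simp only [St.setv_v_self, Ex.eval, St.setv_a]
        rw [hR3 R hRe, ea, hR R hRe, e19, e6, g2]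
        constructor
        · rintro ⟨⟨h5, h6⟩, h7⟩
          refine ⟨h5, fun i hi => ?_⟩
          rcases Nat.lt_succ_iff_lt_or_eq.mp hi with h8 | rfl
          · exact h6 i h8
          · exact h7
        · rintro ⟨h5, h6⟩
          exact ⟨⟨h5, fun i hi => h6 i (by omega)⟩, h6 _ (by omega)⟩
      · simp only [St.setv_v_self, Ex.eval, St.setv_a]
        rw [ea] at hn3
        omega
      · simp only [St.setv_v_self, Ex.eval, Cn.cost, Ex.cost, g2]
        have h5 : G.k - s1.v 2 = (G.k - (s1.v 2 + 1)) + 1 := by omega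
        rw [h5]
        nlinarith
  · refine ⟨?_, ?_, rfl, rfl, rfl, ?_, hpar, ?_, ?_⟩
    · rw [St.setv_v_ne _ (by decide)]; exact hI.hn
    · rw [St.setv_v_ne _ (by decide)]; exact hI.hk
    · simp
    · intro R hR
      simp
    · simp

end Pool.Agent.CCL
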