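import Pool.Agent.CCL.Body

/-! The main loop. -/

namespace Pool.Agent.CCL

open Ex Cn Prog

theorem wt_total (G : NInst) {pos ord : ℕ → ℕ} (h : OrdOK G pos ord) :
    wt (mkSys G pos ord h) (G.n + G.n) = G.n + G.n + G.m := by
  unfold wt
  rw [Finset.sum_range_add, Finset.sum_add_distrib]
  have h1 : ∑ u ∈ Finset.range G.n, ((mkSys G pos ord h).ch u).length = 0 := by
    refine Finset.sum_eq_zero fun u hu => ?_
    have hu' := Finset.mem_range.mp hu
    have : (mkSys G pos ord h).ch u = [] := by
      simp only [mkSys]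
      rw [if_neg (by omega)]
    rw [this]; rfl
  have h2 : ∑ u ∈ Finset.range G.n, ((mkSys G pos ord h).ch (G.n + u)).length = G.m := by
    have h3 : ∀ u ∈ Finset.range G.n, ((mkSys G pos ord h).ch (G.n + u)).length =
        (G.ch (ord u)).length := by
      intro u hu
      have hu' := Finset.mem_range.mp hu
      simp only [mkSys]
      rw [if_pos (by omega), List.length_map, Nat.add_sub_cancel_left]
    rw [Finset.sum_congr rfl h3, NInst.m, NInst.off]
    refine Finset.sum_nbij' ord pos (fun a ha => ?_) (fun a ha => ?_) (fun a ha => ?_)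
      (fun a ha => ?_) (fun a ha => rfl)
    · exact Finset.mem_range.mpr (h.ord_lt a (Finset.mem_range.mp ha))
    · exact Finset.mem_range.mpr (h.pos_lt a (Finset.mem_range.mp ha))
    · exact h.pos_ord a (Finset.mem_range.mp ha)
    · exact h.ord_pos a (Finset.mem_range.mp ha)
  rw [h1, Finset.sum_add_distrib, h2]
  simp
  ring

theorem pot_le (S : Sys) (n : ℕ) (A : ℕ → ℕ) : pot S (n + n) A ≤ npar n A * (2 * wt S (n + n)) := by
  unfold pot npar
  rw [Finset.card_eq_sum_ones, Finset.sum_mul, Finset.sum_filter]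
  refine Finset.sum_le_sum fun e he => ?_
  have he' := Finset.mem_range.mp he
  have h1 := wt_mono S (show e ≤ n + n by omega)
  have h2 := wt_mono S (show e + 1 ≤ n + n by omega)
  by_cases h0 : A e = 0
  · simp [h0]
  · simp only [h0, if_false, not_false_iff, if_true, ne_eq]
    omega

theorem small_of (G : NInst) {pos ord : ℕ → ℕ} (h : OrdOK G pos ord) {B : ℕ} {nm : ℕ → ℕ}
    {par : ℕ → Option ℕ} {t : ℕ} (hg : (mkSys G pos ord h).Good par nm t)
    (ht : t ≤ G.n + G.n) (hB : G.n + G.n + 2 ≤ B) (hBl : ∀ v < G.n, G.lab v + 2 ≤ B) :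
    Small (mkSys G pos ord h) B nm (t + 1) := by
  intro r hr hV c hc
  have hV' : G.n ≤ r ∧ r < G.n + G.n := hV
  rcases List.mem_cons.mp hc with rfl | hc
  · have := hBl (ord (r - G.n)) (h.ord_lt _ (by omega))
    simp only [mkSys]
    omega
  · obtain ⟨x, hx, rfl⟩ := List.mem_map.mp hc
    have hxr := (mkSys G pos ord h).hch r x hx
    have := (hg.rep x (by omega)).1
    omega

/-- The potential of a state of the main loop. -/
def mu (S : Sys) (N : ℕ) (s : St) : ℕ :=
  500 * (2 * pot S N (s.a 11) + (wt S N - wt S (s.v 8)))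

theorem mainBody_spec (G : NInst) {pos ord : ℕ → ℕ} {h : OrdOK G pos ord} {B b L : ℕ}
    {par0 : ℕ → Option ℕ} {s : St} (I : MInv G h B par0 s) (ht : s.v 8 < G.n + G.n)
    (hB : G.n + G.n + 2 ≤ B) (hBl : ∀ v < G.n, G.lab v + 2 ≤ B)
    (hBL : B ≤ G.n + G.n + L + 2)
    (hb : (G.n + G.n + L + 4) * (G.n + G.n + G.m + 4) ≤ b) :
    Sp b mainBody s (fun s' c => MInv G h B par0 s' ∧
      20 + c + mu (mkSys G pos ord h) (G.n + G.n) s' ≤
        mu (mkSys G pos ord h) (G.n + G.n) s) := by
  have hwt := wt_total G h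
  have hwm : ∀ u ≤ G.n + G.n, wt (mkSys G pos ord h) u ≤ G.n + G.n + G.m := fun u hu => by
    rw [← hwt]; exact wt_mono _ hu
  have hb' : 4 * (G.n + G.n + G.m + 4) ≤ b :=
    le_trans (Nat.mul_le_mul_right _ (by omega)) hb
  have hwt1 := wt_succ (mkSys G pos ord h) (s.v 8)
  have hwt2 := hwm (s.v 8 + 1) (by omega)
  -- a step forward is paid for
  have pay : ∀ s' c, Fwd G h B par0 s s' →
      c ≤ 400 + 100 * ((mkSys G pos ord h).ch (s.v 8)).length → MInv G h B par0 s' ∧
      20 + c + mu (mkSys G pos ord h) (G.n + G.n) s' ≤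
        mu (mkSys G pos ord h) (G.n + G.n) s := by
    rintro s' c ⟨h1, h2, h3⟩ hc
    refine ⟨h1, ?_⟩
    simp only [mu, h2, h3, hwt]
    omega
  refine Sp.cons (Sp.put (by simp) (by simp) (Sp.cons (Sp.put (by simp) (by simp) ?_)))
  simp only [Ex.eval, St.seta_v]
  refine Sp.cons (Sp.ite (by simp) (fun hlt => ?_) (fun hge => ?_))
  · simp only [Cn.eval, Ex.eval, St.seta_v, I.inp.hn] at hlt
    refine Sp.mono (atom_spec (b := b) I hlt (by omega) rfl) ?_
    rintro s' c ⟨h1, h2⟩
    refine Sp.nil ?_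
    refine pay s' _ h1 ?_
    simp
    omega
  · simp only [Cn.eval, Ex.eval, St.seta_v, I.inp.hn, not_lt] at hge
    have hVt := vert h hge ht
    set t := s.v 8 with htdef
    have hdeg : ((mkSys G pos ord h).ch t).length = (G.ch (ord (t - G.n))).length := by
      simp only [mkSys]
      rw [if_pos ⟨hge, ht⟩, List.length_map]
    have hvt : ord (t - G.n) < G.n := h.ord_lt _ (by omega)
    have hsm := small_of G h I.good I.ht hB hBl
    have hB0 : 0 < B := by omega
    set s1 := (s.seta 15 t (s.v 9)).seta 16 t (s.v 10) with hs1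
    have hoffm : G.off (ord (t - G.n) + 1) ≤ G.m := G.off_le_m (by omega)
    have hI1 : G.Inp s1 := I.inp.congr rfl rfl
      (by simp [hs1, St.seta_a]) (by simp [hs1, St.seta_a]) (by simp [hs1, St.seta_a])
      (by simp [hs1, St.seta_a]) (by simp [hs1, St.seta_a])
    -- the assignments before the walk
    refine Sp.cons (Sp.set (by simp) ?_)
    refine Sp.cons (Sp.set (by simp) ?_)
    refine Sp.cons (Sp.set (by simp) ?_)
    refine Sp.cons (Sp.set (by simp) ?_)
    have e5 : (Ex.get 10 (sub (var 8) (var 0))).eval s1 = ord (t - G.n) := by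
      simp only [Ex.eval, hs1, St.seta_v, St.seta_a]
      norm_num
      rw [I.a10, I.inp.hn]
    rw [e5]
    refine Sp.cons (Sp.set ?_ ?_)
    · simp only [Ex.ok, Ex.eval, St.setv_v, St.setv_a]
      norm_num
      rw [hI1.off _ (by omega)]
      omega
    set s2 := ((((s1.setv 5 (ord (t - G.n))).setv 11 ((Ex.const 0).eval
      (s1.setv 5 (ord (t - G.n))))).setv 12 _).setv 13 _).setv 14 _ with hs2
    have a2 : s2.a = s1.a := by simp [hs2]
    have v2 : ∀ x, x ≠ 5 → x ≠ 11 → x ≠ 12 → x ≠ 13 → x ≠ 14 → s2.v x = s.v x := by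
      intro x h1 h2 h3 h4 h5
      simp [hs2, St.setv_v, h1, h2, h3, h4, h5, hs1]
    have hI2 : G.Inp s2 := hI1.congr (by rw [v2 0]; rfl; all_goals decide)
      (by rw [v2 1]; rfl; all_goals decide) (by rw [a2]) (by rw [a2]) (by rw [a2]) (by rw [a2])
      (by rw [a2])
    have h212 : s2.v 12 = G.lab (ord (t - G.n)) := by
      simp only [hs2, St.setv_v, Ex.eval, St.setv_a]
      norm_num
      exact hI1.lab _ hvt
    have h213 : s2.v 13 = G.off (ord (t - G.n)) := by
      simp only [hs2, St.setv_v, Ex.eval, St.setv_a]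
      norm_num
      exact hI1.off _ (by omega)
    have h214 : s2.v 14 = G.off (ord (t - G.n) + 1) + 1 := by
      simp only [hs2, St.setv_v, Ex.eval, St.setv_a]
      norm_num
      exact hI1.off _ (by omega)
    have a212 : s2.a 12 = s.a 12 := by rw [a2]; simp [hs1, St.seta_a]
    have a213 : s2.a 13 = s.a 13 := by rw [a2]; simp [hs1, St.seta_a]
    have a214 : s2.a 14 = s.a 14 := by rw [a2]; simp [hs1, St.seta_a]
    have v29 : s2.v 9 = s.v 9 := v2 9 (by decide) (by decide) (by decide) (by decide) (by decide)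
    have v210 : s2.v 10 = s.v 10 :=
      v2 10 (by decide) (by decide) (by decide) (by decide) (by decide)
    have hF := I.hF t le_rfl
    rw [htdef, Ff_top, ← htdef] at hF
    have hH := (I.Hh_mono (Nat.zero_le t) le_rfl).2
    rw [htdef, Hh_top, I.h00, ← htdef] at hH
    have hw0 : wt (mkSys G pos ord h) 0 = 0 := by simp [wt]
    have hb1 : s.v 10 + B * ((G.ch (ord (t - G.n))).length + 3) ≤ b := by
      have h1 : B * (1 + wt (mkSys G pos ord h) t) +
          B * ((G.ch (ord (t - G.n))).length + 3) =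
          B * (wt (mkSys G pos ord h) (t + 1) + 3) := by
        rw [hwt1, hdeg]; ring
      have h2 : B * (wt (mkSys G pos ord h) (t + 1) + 3) ≤
          (G.n + G.n + L + 4) * (G.n + G.n + G.m + 4) :=
        Nat.mul_le_mul (by omega) (by omega)
      omega
    refine Sp.cons (Sp.mono_run (walk_spec G h (B := B) hI2 hge ht
      (v2 8 (by decide) (by decide) (by decide) (by decide) (by decide))
      (by rw [v2 7 (by decide) (by decide) (by decide) (by decide) (by decide)]; exact I.v7)
      (by simp [hs2, St.setv_v]) h212 h213 h214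
      (by rw [a2]; simp only [hs1, St.seta_a]; norm_num; exact I.a9)
      (by rw [a213, v210]; exact I.tab_now.ti) hB0
      (by rw [a212]; exact hsm t (by omega) hVt) (by rw [v210]; exact hb1)
      (by rw [v29]; omega) (by omega)) ?_)
    rintro s3 c3 hrun ⟨w, hc3⟩
    refine Sp.cons (Sp.set (by simp) ?_)
    have fv : ∀ x, walkLoop.wv x = false → s3.v x = s2.v x := fun x hx => hrun.frame_v hx
    have fa : ∀ A, walkLoop.wa A = false → s3.a A = s2.a A := fun A hA => hrun.frame_a hA
    have hlen : ((mkSys G pos ord h).sig (s2.a 12) t).length =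
        (G.ch (ord (t - G.n))).length + 1 := by
      rw [sig_vertex G h _ hge ht]; simp
    have M : Mid G h B s (s3.setv 15 ((Ex.get 13 (var 11)).eval s3)) := by
      refine ⟨?_, ?_, ?_, ?_, ?_, ?_, ?_, ?_, ?_, ?_, ?_, ?_, ?_, ?_, ?_, ?_, ?_, ?_, ?_, ?_, ?_,
        ?_⟩
      all_goals simp only [St.setv_v, St.setv_a, Ex.eval]
      all_goals norm_num
      · rw [fv 0 (by decide), v2 0 (by decide) (by decide) (by decide) (by decide) (by decide)]
      · rw [fv 1 (by decide), v2 1 (by decide) (by decide) (by decide) (by decide) (by decide)]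
      · rw [fv 7 (by decide), v2 7 (by decide) (by decide) (by decide) (by decide) (by decide)]
      · rw [fv 8 (by decide), v2 8 (by decide) (by decide) (by decide) (by decide) (by decide)]
      · rw [fv 21 (by decide), v2 21 (by decide) (by decide) (by decide) (by decide) (by decide)]
      · rw [fa 0 (by decide), a2]; simp [hs1, St.seta_a]
      · rw [fa 1 (by decide), a2]; simp [hs1, St.seta_a]
      · rw [fa 2 (by decide), a2]; simp [hs1, St.seta_a]
      · rw [fa 3 (by decide), a2]; simp [hs1, St.seta_a]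
      · rw [fa 4 (by decide), a2]; simp [hs1, St.seta_a]
      · rw [fa 9 (by decide), a2]; simp [hs1, St.seta_a]
      · rw [fa 10 (by decide), a2]; simp [hs1, St.seta_a]
      · rw [fa 11 (by decide), a2]; simp [hs1, St.seta_a]
      · rw [fa 12 (by decide), a212]
      · rw [fa 15 (by decide), a2]; simp [hs1, St.seta_a, htdef]
      · rw [fa 16 (by decide), a2]; simp [hs1, St.seta_a, htdef]
      · have h1 := w.fol
        rw [List.take_of_length_le (by rw [hlen]), a212] at h1
        exact h1
      · have h1 := w.grow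
        rw [a213, v210, v29] at h1
        exact h1
      · have h1 := w.hf
        rw [v210] at h1
        rw [← htdef, hdeg, add_comm 1]
        exact h1
      · have h1 := w.hsp
        rw [v29] at h1
        rw [← htdef, hdeg, add_comm 1]
        exact h1
      · intro i hi
        rw [← a214]
        exact w.st i (by rw [v29]; exact hi)
    set s4 := s3.setv 15 ((Ex.get 13 (var 11)).eval s3) with hs4
    refine Sp.cons (Sp.ite (by simp) (fun h0 => ?_) (fun h0 => ?_))
    · simp only [Cn.eval, Ex.eval] at h0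
      refine Sp.mono (new_spec (b := b) I hge ht hB0 hsm M h0 (by omega) (by
        rw [hdeg]; omega)) ?_
      rintro s' c ⟨h1, h2⟩
      refine Sp.nil (Sp.nil ?_)
      refine pay s' _ h1 ?_
      simp only [Ex.cost, Cn.cost]
      rw [hdeg]
      omega
    · simp only [Cn.eval, Ex.eval] at h0
      obtain ⟨y, hy⟩ : ∃ y, s4.v 15 = y + 1 := ⟨s4.v 15 - 1, by omega⟩
      have hy' : s4.a 13 (s4.v 11) = y + 1 := by rw [← M.v15]; exact hy
      refine Sp.ite (by simp) (fun hp => ?_) (fun hp => ?_)
      · simp only [Cn.eval, Ex.eval] at hp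
        rw [M.a11, M.v8] at hp
        refine Sp.cons (Sp.put (by simp) (by simp; omega) ?_)
        refine Sp.cons (Sp.set (by simp [M.v8]; omega) (Sp.nil ?_))
        have hF := old_spec I hge ht hB0 hsm M hy' (fun w hw => by
          rw [dec_eq_some] at hw; omega) (s' := (s4.seta 12 t y).setv 8 (t + 1)) (Or.inl rfl)
        have e8 : s4.v 8 = t := M.v8
        simp only [Ex.eval, St.seta_v, e8, hy, Nat.add_sub_cancel]
        refine Sp.nil (Sp.nil ?_)
        refine pay _ _ hF ?_
        simp only [Ex.cost, Cn.cost]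
        rw [hdeg]
        omega
      · simp only [Cn.eval, Ex.eval] at hp
        rw [M.a11, M.v8, ← htdef] at hp
        obtain ⟨w', hw'⟩ : ∃ w', s.a 11 t = w' + 1 := ⟨s.a 11 t - 1, by omega⟩
        have hdw : dec (s.a 11 t) = some w' := dec_eq_some.mpr hw'
        have hwlt := I.plt _ _ hdw
        have hnmw := (I.good.rep w' hwlt.1).1
        refine Sp.cons (Sp.set (by simp; omega) ?_)
        have e8 : s4.v 8 = t := M.v8
        have e16 : (Ex.get 12 (sub (Ex.get 11 (var 8)) (const 1))).eval s4 = s.a 12 w' := by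
          simp only [Ex.eval, e8, M.a11, M.a12, hw', Nat.add_sub_cancel]
        rw [e16]
        refine Sp.cons (Sp.ite (by simp [St.setv_v]; omega) (fun hq => ?_) (fun hq => ?_))
        · simp only [Cn.eval, Ex.eval, St.setv_v] at hq
          norm_num at hq
          rw [hy] at hq
          have hq' : s.a 12 w' = y := by omega
          refine Sp.cons (Sp.put (by simp) (by simp) ?_)
          refine Sp.cons (Sp.set (by simp [St.setv_v, e8]; omega) (Sp.nil ?_))
          have hF := old_spec I hge ht hB0 hsm M hy' (fun w hw => by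
            rw [hdw] at hw; cases hw; exact hq'.symm)
            (s' := ((s4.setv 16 y).seta 12 t y).setv 8 (t + 1)) (Or.inr rfl)
          simp only [Ex.eval, St.seta_v, St.setv_v, e8, hq']
          norm_num
          refine Sp.nil (Sp.nil (Sp.nil ?_))
          refine pay _ _ (by simpa [St.setv_v, e8] using hF) ?_
          try simp only [Ex.cost, Cn.cost]
          rw [hdeg]
          omega
        · simp only [Cn.eval, Ex.eval, St.setv_v] at hq
          norm_num at hq
          rw [hy] at hq
          have hq' : s.a 12 w' ≠ y := by omega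
          refine Sp.mono (conflict_spec (b := b) I hge ht hB0 hsm M hy' hdw hq' (by omega)) ?_
          rintro s' c ⟨k1, k2, k3, k4⟩
          refine Sp.nil (Sp.nil (Sp.nil ?_))
          refine ⟨k1, ?_⟩
          have m1 := wt_mono (mkSys G pos ord h) (show s'.v 8 + 1 ≤ t by omega)
          have m2 := wt_mono (mkSys G pos ord h) (show s'.v 8 ≤ s'.v 8 + 1 by omega)
          have m3 := wt_mono (mkSys G pos ord h) (show t ≤ t + 1 by omega)
          have m4 := wt_succ (mkSys G pos ord h) t
          simp only [Ex.cost, Cn.cost, mu, hwt]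
          rw [← htdef] at k3 k4 ⊢
          rw [hdeg] at m4
          omega

theorem stageE_spec (G : NInst) {s : St} {b L : ℕ} (h : OrdOK G (s.a 9) (s.a 10))
    (hI : G.Inp s) (h21 : s.v 21 = G.n + G.n) (hB : G.n + G.n + 2 ≤ s.v 7)
    (hBl : ∀ v < G.n, G.lab v + 2 ≤ s.v 7) (hBL : s.v 7 ≤ G.n + G.n + L + 2)
    (htab : ∀ x, s.a 13 x = 0)
    (hpar : ∀ e x, dec (s.a 11 e) = some x → x < e ∧ e < G.n + G.n)
    (hb : (G.n + G.n + L + 4) * (G.n + G.n + G.m + 4) ≤ b) :
    Sp b stageE s (fun s' t =>
      (∀ u < G.n + G.n, ∀ v < G.n + G.n, s'.a 12 u = s'.a 12 v ↔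
        (mkSys G (s.a 9) (s.a 10) h).Cl (fun e => dec (s.a 11 e)) u v) ∧
      t ≤ 4000 * (1 + npar G.n (s.a 11)) * (1 + G.n + G.m)) := by
  have hb' : 4 * (G.n + G.n + G.m + 4) ≤ b :=
    le_trans (Nat.mul_le_mul_right _ (by omega)) hb
  refine Sp.cons (Sp.set (by simp) (Sp.cons (Sp.set (by simp) (Sp.cons (Sp.set (by simp) ?_)))))
  simp only [Ex.eval, St.setv_v]
  norm_num
  set s1 := ((s.setv 8 0).setv 9 0).setv 10 (s.v 7) with hs1
  have htab' : s.a 13 = fun _ => 0 := funext htab
  have I0 : MInv G h (s.v 7) (fun e => dec (s.a 11 e)) s1 := by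
    refine ⟨hI.congr ?_ ?_ ?_ ?_ ?_ ?_ ?_, ?_, ?_, ?_, ?_, ?_, ?_, ?_, ?_, ?_, ?_, ?_, ?_⟩
    all_goals try simp [hs1, St.setv_v]
    · exact h21
    · intro v hv; omega
    · exact hpar
    · simp [Hh, St.setv_v]
    · simp [Ff, St.setv_v, wt]
    · simp only [Hh, Ff, St.setv_v, St.setv_a, htab']
      norm_num
      rw [seg_self, zo_empty]
      exact ⟨TI.init (by omega), fun r hr => absurd hr (by omega),
        fun x _ _ hx => absurd rfl hx⟩
  have hloop := Sp.loop (b := b) (c := lt (var 8) (var 21)) (p := mainBody)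
    (fun s' => MInv G h (s.v 7) (fun e => dec (s.a 11 e)) s')
    (fun s' => mu (mkSys G (s.a 9) (s.a 10) h) (G.n + G.n) s')
    (fun s' _ => by simp)
    (fun s' I hc => by
      simp only [Cn.eval, Ex.eval, I.v21] at hc
      refine Sp.mono (mainBody_spec G I hc hB hBl hBL hb) ?_
      rintro s2 c ⟨h1, h2⟩
      refine ⟨h1, ?_⟩
      simp only [Cn.cost, Ex.cost]
      omega) I0
  refine Sp.cons (Sp.mono hloop ?_)
  rintro s2 c ⟨I, hc, hcost⟩
  refine Sp.nil ?_
  simp only [Cn.eval, Ex.eval, I.v21, not_lt] at hc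
  have h8 : s2.v 8 = G.n + G.n := le_antisymm I.ht hc
  refine ⟨fun u hu v hv => ?_, ?_⟩
  · rw [← I.cl u v]
    refine Sys.Good.final (S := mkSys G (s.a 9) (s.a 10) h) ?_ (fun e he => ?_) hu hv
    · have := I.good
      rw [h8] at this
      exact this
    · by_contra hne
      obtain ⟨x, hx⟩ := Option.ne_none_iff_exists'.mp hne
      have := (I.plt e x hx).2
      have he' : G.n + G.n ≤ e := he
      omega
  · have hmu : mu (mkSys G (s.a 9) (s.a 10) h) (G.n + G.n) s1 =
        500 * (2 * pot (mkSys G (s.a 9) (s.a 10) h) (G.n + G.n) (s.a 11) +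
          (G.n + G.n + G.m)) := by
      have hw0 : wt (mkSys G (s.a 9) (s.a 10) h) 0 = 0 := by simp [wt]
      simp [mu, hs1, St.setv_v, wt_total G h, hw0]
    have hpl := pot_le (mkSys G (s.a 9) (s.a 10) h) G.n (s.a 11)
    rw [wt_total G h] at hpl
    rw [hmu] at hcost
    simp only [Ex.cost, Cn.cost] at hcost ⊢
    set P := pot (mkSys G (s.a 9) (s.a 10) h) (G.n + G.n) (s.a 11)
    set q := npar G.n (s.a 11)
    have h3 : c ≤ 500 * (2 * (q * (2 * (G.n + G.n + G.m))) + (G.n + G.n + G.m)) + 10 := by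
      have : 2 * P ≤ 2 * (q * (2 * (G.n + G.n + G.m))) := Nat.mul_le_mul_left 2 hpl
      omega
    nlinarith [Nat.zero_le q, Nat.zero_le G.n, Nat.zero_le G.m, Nat.zero_le (q * G.n),
      Nat.zero_le (q * G.m)]

end Pool.Agent.CCL
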