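import Pool.Agent.CCL.Defs

/-! An instance on `Fin n` as an instance on natural numbers. -/

namespace Pool.Agent.CCL

namespace ToN

variable (G : Inst)

/-- the labels -/
def labN (v : ℕ) : ℕ := if h : v < G.n then G.lab ⟨v, h⟩ else 0

/-- the children -/
def chN (v : ℕ) : List ℕ := if h : v < G.n then (G.ch ⟨v, h⟩).map Fin.val else []

/-- the pairs -/
def puN (i : ℕ) : ℕ := if h : i < G.pairs.length then ((G.pairs[i]).1 : ℕ) else 0

/-- the pairs -/
def pvN (i : ℕ) : ℕ := if h : i < G.pairs.length then ((G.pairs[i]).2 : ℕ) else 0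

theorem chN_fin (v : Fin G.n) : chN G v = (G.ch v).map Fin.val := by
  rw [chN, dif_pos v.2]

theorem labN_fin (v : Fin G.n) : labN G v = G.lab v := by
  rw [labN, dif_pos v.2]

variable (F : List (Fin G.n))

/-- the instance on natural numbers -/
def toN : NInst where
  n := G.n
  k := G.pairs.length
  lab := labN G
  ch := chN G
  pu := puN G
  pv := pvN G
  fv := F.map Fin.val
  hch := by
    intro v hv w hw
    rw [chN, dif_pos hv] at hw
    obtain ⟨w', -, rfl⟩ := List.mem_map.1 hw
    exact w'.2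
  hpu := by
    intro i hi
    rw [puN, dif_pos hi]
    exact (G.pairs[i]).1.2
  hpv := by
    intro i hi
    rw [pvN, dif_pos hi]
    exact (G.pairs[i]).2.2
  hfv := by
    intro w hw
    obtain ⟨w', -, rfl⟩ := List.mem_map.1 hw
    exact w'.2

theorem m_eq : (toN G F).m = G.m := by
  have h1 : (toN G F).m = ∑ u ∈ Finset.range G.n, (chN G u).length := rfl
  rw [h1, ← Fin.sum_univ_eq_sum_range (fun u => (chN G u).length)]
  unfold Inst.m
  refine Finset.sum_congr rfl fun u _ => ?_
  rw [chN_fin, List.length_map]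

theorem mem_map_val {a : ℕ} (ha : a < G.n) : a ∈ F.map Fin.val ↔ (⟨a, ha⟩ : Fin G.n) ∈ F := by
  constructor
  · intro h
    obtain ⟨w, hw, rfl⟩ := List.mem_map.1 h
    exact hw
  · intro h
    exact List.mem_map.2 ⟨⟨a, ha⟩, h, rfl⟩

theorem edge_iff (a b : ℕ) : (toN G F).Edge a b ↔
    ∃ (ha : a < G.n) (hb : b < G.n), G.Edge F ⟨a, ha⟩ ⟨b, hb⟩ := by
  constructor
  · rintro ⟨ha, hb, hf⟩
    have ha' : a < G.n := ha
    have hb' : b ∈ chN G a := hb
    have hf' : b ∉ F.map Fin.val := hf
    rw [chN, dif_pos ha'] at hb'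
    obtain ⟨w, hw, rfl⟩ := List.mem_map.1 hb'
    exact ⟨ha', w.2, hw, fun h => hf' ((mem_map_val G F w.2).2 h)⟩
  · rintro ⟨ha, hb, h, hf⟩
    refine ⟨ha, ?_, ?_⟩
    · show b ∈ chN G a
      rw [chN, dif_pos ha]
      exact List.mem_map.2 ⟨⟨b, hb⟩, h, rfl⟩
    · show b ∉ F.map Fin.val
      exact fun h' => hf ((mem_map_val G F hb).1 h')

theorem trans_iff (a b : Fin G.n) : Relation.TransGen (toN G F).Edge a b ↔
    Relation.TransGen (G.Edge F) a b := by
  constructor
  · intro h
    have key : ∀ a b : ℕ, Relation.TransGen (toN G F).Edge a b →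
        ∃ (ha : a < G.n) (hb : b < G.n), Relation.TransGen (G.Edge F) ⟨a, ha⟩ ⟨b, hb⟩ := by
      intro a b h
      induction h with
      | single h =>
        obtain ⟨ha, hb, h⟩ := (edge_iff G F _ _).1 h
        exact ⟨ha, hb, .single h⟩
      | tail _ h ih =>
        obtain ⟨ha, hb, h1⟩ := ih
        obtain ⟨hb', hc, h2⟩ := (edge_iff G F _ _).1 h
        exact ⟨ha, hc, h1.tail h2⟩
    obtain ⟨_, _, h⟩ := key a b h
    exact h
  · intro h
    induction h with
    | single h => exact .single ((edge_iff G F _ _).2 ⟨a.2, Fin.is_lt _, h⟩)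
    | tail _ h ih => exact ih.tail ((edge_iff G F _ _).2 ⟨Fin.is_lt _, Fin.is_lt _, h⟩)

theorem cyc_eq : (toN G F).cyc = G.cyc F := by
  classical
  unfold NInst.cyc Inst.cyc
  refine Finset.card_bij' (fun v _ => if h : v < G.n then (⟨v, h⟩ : Fin G.n) else ⟨v, by
      rename_i hv
      exact (Finset.mem_range.1 (Finset.mem_filter.1 hv).1)⟩) (fun v _ => (v : ℕ)) ?_ ?_ ?_ ?_
  · intro v hv
    obtain ⟨h1, h2⟩ := Finset.mem_filter.1 hv
    have h3 : v < G.n := Finset.mem_range.1 h1
    simp only [dif_pos h3, Finset.mem_filter, Finset.mem_univ, true_and]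
    exact (trans_iff G F ⟨v, h3⟩ ⟨v, h3⟩).1 h2
  · intro v hv
    obtain ⟨-, h2⟩ := Finset.mem_filter.1 hv
    exact Finset.mem_filter.2 ⟨Finset.mem_range.2 v.2, (trans_iff G F v v).2 h2⟩
  · intro v hv
    obtain ⟨h1, -⟩ := Finset.mem_filter.1 hv
    have h3 : v < G.n := Finset.mem_range.1 h1
    simp only [dif_pos h3]
  · intro v hv
    simp

theorem records_eq : (List.range G.n).map (toN G F).record = List.ofFn G.record := by
  refine List.ext_getElem (by simp) fun j h1 h2 => ?_
  have hj : j < G.n := by simpa using h1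
  have h3 : labN G j = G.lab ⟨j, hj⟩ := by rw [labN, dif_pos hj]
  have h4 : chN G j = (G.ch ⟨j, hj⟩).map Fin.val := by rw [chN, dif_pos hj]
  have h5 : (toN G F).record j = labN G j :: (chN G j).length :: chN G j := rfl
  rw [List.getElem_map, List.getElem_range, List.getElem_ofFn, h5, h3, h4, List.length_map]
  rfl

theorem pairs_eq : ((List.range G.k).map fun i => [puN G i, pvN G i]) =
    G.pairs.map fun p => [(p.1 : ℕ), (p.2 : ℕ)] := by
  refine List.ext_getElem (by simp [Inst.k]) fun j h1 h2 => ?_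
  have hj : j < G.pairs.length := by simpa using h2
  rw [List.getElem_map, List.getElem_range, List.getElem_map, puN, pvN, dif_pos hj, dif_pos hj]

theorem code_eq : (toN G F).code = G.code F := by
  have h1 : (toN G F).code = G.n :: G.k :: (F.map Fin.val).length ::
      (((List.range G.n).map (toN G F).record).flatten ++
        (((List.range G.k).map fun i => [puN G i, pvN G i]).flatten ++ F.map Fin.val)) := rfl
  rw [h1, records_eq, pairs_eq, List.length_map]
  rfl

theorem cl_iff (u v : Fin G.n) : (toN G F).Cl u v ↔ G.closure u v := by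
  rw [G.closure_iff]
  constructor
  · intro h r hr
    have hR : (toN G F).Closed fun a b => ∃ (ha : a < G.n) (hb : b < G.n), r ⟨a, ha⟩ ⟨b, hb⟩ := by
      refine ⟨fun u hu => ⟨hu, hu, r.refl _⟩, fun u v _ _ ⟨hu, hv, h⟩ => ⟨hv, hu, r.symm h⟩,
        fun u v w _ _ _ ⟨hu, _, h⟩ ⟨_, hw, h'⟩ => ⟨hu, hw, r.trans h h'⟩, ?_, ?_⟩
      · intro i hi
        have hi' : i < G.pairs.length := hi
        refine ⟨(toN G F).hpu i hi, (toN G F).hpv i hi, ?_⟩
        have h1 := hr.1 (G.pairs[i]) (List.getElem_mem hi')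
        have e1 : (⟨(toN G F).pu i, (toN G F).hpu i hi⟩ : Fin G.n) = (G.pairs[i]).1 := by
          apply Fin.ext
          show puN G i = _
          rw [puN, dif_pos hi']
        have e2 : (⟨(toN G F).pv i, (toN G F).hpv i hi⟩ : Fin G.n) = (G.pairs[i]).2 := by
          apply Fin.ext
          show pvN G i = _
          rw [pvN, dif_pos hi']
        rw [e1, e2]
        exact h1
      · intro a b ha hb hlab hch
        have ha' : a < G.n := ha
        have hb' : b < G.n := hb
        refine ⟨ha', hb', hr.2 _ _ ⟨?_, ?_⟩⟩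
        · have h1 : labN G a = labN G b := hlab
          rwa [labN, labN, dif_pos ha', dif_pos hb'] at h1
        · have h1 : List.Forall₂ (fun a b => ∃ (ha : a < G.n) (hb : b < G.n),
              r ⟨a, ha⟩ ⟨b, hb⟩) (chN G a) (chN G b) := hch
          rw [chN, chN, dif_pos ha', dif_pos hb', List.forall₂_map_left_iff,
            List.forall₂_map_right_iff] at h1
          exact h1.imp fun x y ⟨_, _, h⟩ => h
    obtain ⟨_, _, h'⟩ := h _ hR
    exact h'
  · intro h R hR
    let r : Setoid (Fin G.n) :=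
      { r := fun a b => R a b
        iseqv := ⟨fun a => hR.refl a a.2, fun {a b} h => hR.symm a b a.2 b.2 h,
          fun {a b c} h h' => hR.trans a b c a.2 b.2 c.2 h h'⟩ }
    have hr : r ∈ G.Closed := by
      refine ⟨fun p hp => ?_, fun a b hab => ?_⟩
      · obtain ⟨i, hi, rfl⟩ := List.getElem_of_mem hp
        have h1 := hR.pair i hi
        have e1 : (toN G F).pu i = ((G.pairs[i]).1 : ℕ) := by
          show puN G i = _
          rw [puN, dif_pos hi]
        have e2 : (toN G F).pv i = ((G.pairs[i]).2 : ℕ) := by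
          show pvN G i = _
          rw [pvN, dif_pos hi]
        rw [e1, e2] at h1
        exact h1
      · refine hR.cong a b a.2 b.2 ?_ ?_
        · show labN G a = labN G b
          rw [labN_fin, labN_fin]
          exact hab.1
        · show List.Forall₂ R (chN G a) (chN G b)
          rw [chN_fin, chN_fin, List.forall₂_map_left_iff, List.forall₂_map_right_iff]
          exact hab.2
    exact h r hr

end ToN

/-- An instance as an instance on natural numbers. -/
theorem exists_ninst (G : Inst) (F : List (Fin G.n)) : ∃ H : NInst, H.n = G.n ∧ H.k = G.k ∧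
    H.m = G.m ∧ H.fv.length = F.length ∧ H.cyc = G.cyc F ∧ (∀ v < H.n, H.lab v ≤ G.top) ∧
    H.code = G.code F ∧ (∀ u v : Fin G.n, H.Cl u v ↔ G.closure u v) := by
  refine ⟨ToN.toN G F, rfl, rfl, ToN.m_eq G F, List.length_map _, ToN.cyc_eq G F,
    fun v hv => ?_, ToN.code_eq G F, ToN.cl_iff G F⟩
  have hv' : v < G.n := hv
  show ToN.labN G v ≤ G.top
  rw [ToN.labN, dif_pos hv']
  exact Finset.le_sup (f := G.lab) (Finset.mem_univ _)

end Pool.Agent.CCL
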