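import Pool.Agent.CCL.Stage0
import Pool.Agent.CCL.StageA
import Pool.Agent.CCL.StageBF
import Pool.Agent.CCL.StageC
import Pool.Agent.CCL.StageD
import Pool.Agent.CCL.StageE
import Pool.Agent.CCL.Link
import Pool.Agent.CCL.ToN
import Pool.Agent.CCL.Compile

/-! The whole program, and the main theorem. -/

namespace Pool.Agent.CCL

theorem program_spec (G : NInst) {s : St} {b L : ℕ} (hin : s.inp = G.code)
    (hz : ∀ A v, s.a A v = 0) (ho : s.out = [])
    (hL : ∀ v < G.n, G.lab v ≤ L)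
    (hb : (G.n + G.n + L + 4) * (G.n + G.n + G.m + 4) ≤ b) (hbk : G.n + G.n + G.k + 2 ≤ b)
    (hbq : G.n + G.m + G.k + G.fv.length + 2 ≤ b) :
    Sp b program s (fun s' t => (∃ f : ℕ → ℕ, s'.out = (List.range G.n).map f ∧
      ∀ u < G.n, ∀ v < G.n, f u = f v ↔ G.Cl u v) ∧
      t ≤ 5200 * (1 + G.k + G.fv.length + G.cyc) * (1 + G.n + G.m)) := by
  have hb1 : 4 * (G.n + G.n + G.m + 4) ≤ b :=
    le_trans (Nat.mul_le_mul_right _ (by omega)) hb
  have hb2 : (G.n + G.n + L + 4) * 4 ≤ b :=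
    le_trans (Nat.mul_le_mul_left _ (by omega)) hb
  refine Sp.cons (Sp.mono_run (stage0_spec G hin (hz 17) hbq) ?_)
  rintro s0 t0 r0 ⟨hI, hM, c0⟩
  have hz0 : ∀ A, stage0.wa A = false → ∀ v, s0.a A v = 0 := fun A hA v => by
    rw [r0.frame_a hA]; exact hz A v
  refine Sp.cons (Sp.mono_run (stageA_spec G hI hM (hz0 6 (by decide)) (by omega)) ?_)
  rintro s1 t1 r1 ⟨hO, c1⟩
  have I1 : G.Inp s1 := hI.congr (r1.frame_v (by decide)) (r1.frame_v (by decide))
    (r1.frame_a (by decide)) (r1.frame_a (by decide)) (r1.frame_a (by decide))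
    (r1.frame_a (by decide)) (r1.frame_a (by decide))
  refine Sp.cons (Sp.mono_run (stageB_spec G I1 hL (by omega)) ?_)
  rintro s2 t2 r2 ⟨h21, hB1, hB2, hB3, c2⟩
  have I2 : G.Inp s2 := I1.congr (r2.frame_v (by decide)) (r2.frame_v (by decide))
    (r2.frame_a (by decide)) (r2.frame_a (by decide)) (r2.frame_a (by decide))
    (r2.frame_a (by decide)) (r2.frame_a (by decide))
  have p2 : s2.a 9 = s1.a 9 := r2.frame_a (by decide)
  refine Sp.cons (Sp.mono_run (stageC_spec G I2 (by rw [p2]; exact hO.pos_lt) (fun e => by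
    rw [r2.frame_a (by decide), r1.frame_a (by decide)]; exact hz0 11 (by decide) e)
    (by omega)) ?_)
  rintro s3 t3 r3 ⟨hH, c3⟩
  have I3 : G.Inp s3 := I2.congr (r3.frame_v (by decide)) (r3.frame_v (by decide))
    (r3.frame_a (by decide)) (r3.frame_a (by decide)) (r3.frame_a (by decide))
    (r3.frame_a (by decide)) (r3.frame_a (by decide))
  have p3 : s3.a 9 = s1.a 9 := by rw [r3.frame_a (by decide), p2]
  rw [p2] at hH
  have hpar3 : ∀ e x, dec (s3.a 11 e) = some x → x < e ∧ e < G.n + G.n := by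
    intro e x hex
    obtain ⟨v, hv, w, hw, -, rfl, rfl⟩ := (hH e x).mp hex
    have := hO.pos_lt w (G.hch v hv w hw)
    omega
  refine Sp.cons (Sp.mono_run (stageD_spec G I3 (by rw [p3]; exact hO.pos_lt) hpar3
    (by omega)) ?_)
  rintro s4 t4 r4 ⟨hpar4, hR, hn4, c4⟩
  have I4 : G.Inp s4 := I3.congr (r4.frame_v (by decide)) (r4.frame_v (by decide))
    (r4.frame_a (by decide)) (r4.frame_a (by decide)) (r4.frame_a (by decide))
    (r4.frame_a (by decide)) (r4.frame_a (by decide))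
  have p4 : s4.a 9 = s1.a 9 := by rw [r4.frame_a (by decide), p3]
  have q4 : s4.a 10 = s1.a 10 := by
    rw [r4.frame_a (by decide), r3.frame_a (by decide), r2.frame_a (by decide)]
  have v7 : s4.v 7 = s2.v 7 := by rw [r4.frame_v (by decide), r3.frame_v (by decide)]
  have v21 : s4.v 21 = s2.v 21 := by rw [r4.frame_v (by decide), r3.frame_v (by decide)]
  have hO4 : OrdOK G (s4.a 9) (s4.a 10) := by rw [p4, q4]; exact hO
  rw [p3] at hR
  refine Sp.cons (Sp.mono_run (stageE_spec G (L := L) hO4 I4 (by rw [v21]; exact h21)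
    (by rw [v7]; exact hB1) (by rw [v7]; exact hB2) (by rw [v7]; exact hB3) (fun x => by
      rw [r4.frame_a (by decide), r3.frame_a (by decide), r2.frame_a (by decide),
        r1.frame_a (by decide)]
      exact hz0 13 (by decide) x) hpar4 hb) ?_)
  rintro s5 t5 r5 ⟨hnm, c5⟩
  have I5 : G.Inp s5 := I4.congr (r5.frame_v (by decide)) (r5.frame_v (by decide))
    (r5.frame_a (by decide)) (r5.frame_a (by decide)) (r5.frame_a (by decide))
    (r5.frame_a (by decide)) (r5.frame_a (by decide))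
  have p5 : s5.a 9 = s4.a 9 := r5.frame_a (by decide)
  have o5 : s5.out = [] := by
    rw [(r5.frame_io (by decide)).2, (r4.frame_io (by decide)).2, (r3.frame_io (by decide)).2,
      (r2.frame_io (by decide)).2, (r1.frame_io (by decide)).2]
    have h0 : s0.out = s.out := frame_out r0 (by decide)
    rw [h0, ho]
  refine Sp.cons (Sp.mono_run (stageF_spec G I5 (by rw [p5]; exact hO4.pos_lt)
    (by omega)) ?_)
  rintro s6 t6 r6 ⟨hout, c6⟩
  refine Sp.nil ⟨⟨fun v => s5.a 12 (G.n + s5.a 9 v), by rw [hout, o5, List.nil_append],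
    fun u hu v hv => ?_⟩, ?_⟩
  · rw [p5]
    have hu' := hO4.pos_lt u hu
    have hv' := hO4.pos_lt v hv
    rw [hnm _ (by omega) _ (by omega)]
    refine link G hO4 (fun e => dec (s4.a 11 e)) (fun R hRe => ?_) hu hv
    rw [hR R hRe, p4]
    constructor
    · rintro ⟨h1, h2⟩
      exact ⟨fun e x hex => h1 e x ((hH e x).mpr hex), h2⟩
    · rintro ⟨h1, h2⟩
      exact ⟨fun e x hex => h1 e x ((hH e x).mp hex), h2⟩
  · have hnp : npar G.n (s3.a 11) ≤ G.fv.length + G.cyc := npar_heads G hO (s3.a 11) hH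
    have h1 : npar G.n (s4.a 11) ≤ G.k + G.fv.length + G.cyc := by omega
    have h2 : 4000 * (1 + npar G.n (s4.a 11)) * (1 + G.n + G.m) ≤
        4000 * (1 + G.k + G.fv.length + G.cyc) * (1 + G.n + G.m) :=
      Nat.mul_le_mul_right _ (Nat.mul_le_mul_left _ (by omega))
    have h3 : 200 * (1 + G.k) * (1 + G.n) ≤
        200 * ((1 + G.k + G.fv.length + G.cyc) * (1 + G.n + G.m)) := by
      rw [mul_assoc]
      exact Nat.mul_le_mul_left _ (Nat.mul_le_mul (by omega) (by omega))
    have h4 : 1 * (1 + G.n + G.m) ≤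
        (1 + G.k + G.fv.length + G.cyc) * (1 + G.n + G.m) :=
      Nat.mul_le_mul_right _ (by omega)
    have h7 : (1 + G.k + G.fv.length) * 1 ≤
        (1 + G.k + G.fv.length + G.cyc) * (1 + G.n + G.m) :=
      Nat.mul_le_mul (by omega) (by omega)
    have h5 : 4000 * (1 + G.k + G.fv.length + G.cyc) * (1 + G.n + G.m) =
        4000 * ((1 + G.k + G.fv.length + G.cyc) * (1 + G.n + G.m)) := by ring
    have h6 : 5200 * (1 + G.k + G.fv.length + G.cyc) * (1 + G.n + G.m) =
        5200 * ((1 + G.k + G.fv.length + G.cyc) * (1 + G.n + G.m)) := by ring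
    rw [h5] at h2
    rw [h6]
    set X := (1 + G.k + G.fv.length + G.cyc) * (1 + G.n + G.m)
    omega

/-- All numbers in the input list are small. -/
theorem NInst.code_le (G : NInst) {L : ℕ} (hL : ∀ v < G.n, G.lab v ≤ L) :
    ∀ x ∈ G.code, x ≤ G.n + G.m + G.k + G.fv.length + L := by
  intro x hx
  simp only [NInst.code, List.mem_cons, List.mem_append, List.mem_flatten, List.mem_map,
    List.mem_range] at hx
  rcases hx with rfl | rfl | rfl | ⟨l, ⟨v, hv, rfl⟩, hx⟩ | ⟨l, ⟨i, hi, rfl⟩, hx⟩ | hx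
  · omega
  · omega
  · omega
  · have hoff := G.off_succ v
    have hm : G.off (v + 1) ≤ G.m := G.off_le_m (by omega)
    simp only [NInst.record, List.mem_cons] at hx
    rcases hx with rfl | rfl | hx
    · have := hL v hv; omega
    · omega
    · have := G.hch v hv x hx; omega
  · simp only [List.mem_cons, List.not_mem_nil, or_false] at hx
    rcases hx with rfl | rfl
    · have := G.hpu i hi; omega
    · have := G.hpv i hi; omega
  · have := G.hfv x hx; omega

/-- One machine program computes the congruence closure of every instance. -/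
theorem main : ∃ (P : List Instr) (c : ℕ), ∀ (G : Inst) (F : List (Fin G.n)),
    ∃ (o : List ℕ) (t : ℕ),
      Computes (c * (1 + G.n + G.m + G.k + F.length + G.top) ^ 2) P (G.code F) o t ∧
      t ≤ c * (1 + G.k + F.length + G.cyc F) * (1 + G.n + G.m) ∧
      o.length = G.n ∧ ∀ u v : Fin G.n, o[(u : ℕ)]? = o[(v : ℕ)]? ↔ G.closure u v := by
  obtain ⟨P, c, hP⟩ := simulate program (by decide)
  refine ⟨P, 5200 * c + 17 * c, fun G F => ?_⟩
  obtain ⟨H, hn, hk, hm, hf, hc, hl, hcode, hcl⟩ := exists_ninst G F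
  set z := 1 + G.n + G.m + G.k + F.length + G.top with hz
  have hz1 : 1 ≤ z := by omega
  have hzz : z ≤ z ^ 2 := by nlinarith
  have hb : (H.n + H.n + G.top + 4) * (H.n + H.n + H.m + 4) ≤ 16 * z ^ 2 := by
    rw [hn, hm]
    have h1 : G.n + G.n + G.top + 4 ≤ 4 * z := by omega
    have h2 : G.n + G.n + G.m + 4 ≤ 4 * z := by omega
    have h3 := Nat.mul_le_mul h1 h2
    nlinarith
  obtain ⟨s, t, hrun, ⟨f, hout, hfc⟩, ht⟩ := program_spec H
    (s := ⟨fun _ => 0, fun _ _ => 0, H.code, []⟩) (b := 16 * z ^ 2) (L := G.top)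
    rfl (fun _ _ => rfl) rfl hl hb (by rw [hn, hk]; omega) (by rw [hn, hk, hm, hf]; omega)
  obtain ⟨t', hcomp, ht'⟩ := hP (16 * z ^ 2) H.code s t (fun x hx => by
    have := H.code_le hl x hx
    rw [hn, hk, hm, hf] at this
    omega) hrun
  refine ⟨s.out, t', ?_, ?_, ?_, fun u v => ?_⟩
  · rw [hcode] at hcomp
    refine hcomp.mono ?_
    have h1 : 1 ≤ z ^ 2 := by nlinarith
    have h2 : c * (16 * z ^ 2 + 1) ≤ c * (17 * z ^ 2) := Nat.mul_le_mul_left _ (by omega)
    have h3 : (5200 * c + 17 * c) * z ^ 2 = 5200 * c * z ^ 2 + c * (17 * z ^ 2) := by ring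
    rw [h3]
    exact le_trans h2 (Nat.le_add_left _ _)
  · rw [hk, hc, hn, hm, hf] at ht
    refine le_trans ht' (le_trans (Nat.mul_le_mul_left c ht) ?_)
    have h1 : c * (5200 * (1 + G.k + F.length + G.cyc F) * (1 + G.n + G.m)) =
        5200 * c * ((1 + G.k + F.length + G.cyc F) * (1 + G.n + G.m)) := by ring
    have h2 : (5200 * c + 17 * c) * (1 + G.k + F.length + G.cyc F) * (1 + G.n + G.m) =
        (5200 * c + 17 * c) * ((1 + G.k + F.length + G.cyc F) * (1 + G.n + G.m)) := by ring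
    rw [h1, h2]
    exact Nat.mul_le_mul_right _ (Nat.le_add_right _ _)
  · rw [hout, List.length_map, List.length_range, hn]
  · have hu : (u : ℕ) < H.n := by rw [hn]; exact u.2
    have hv : (v : ℕ) < H.n := by rw [hn]; exact v.2
    rw [← hcl u v, ← hfc u hu v hv, hout]
    simp [hu, hv]

end Pool.Agent.CCL
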