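import Mathlib

/-! The random access machine of Cook and Reckhow, and Aho, Hopcroft and Ullman: registers
`R 0, R 1, ...`, direct and indirect addressing, addition, truncated subtraction, jumps,
an input list and an output list. -/

namespace Pool.Agent.CCL

/-- Instructions. -/
inductive Instr : Type
  | const (i c : ℕ) : Instr
  | add (i j k : ℕ) : Instr
  | sub (i j k : ℕ) : Instr
  | load (i j : ℕ) : Instr
  | store (i j : ℕ) : Instr
  | read (i : ℕ) : Instr
  | write (i : ℕ) : Instr
  | jump (l : ℕ) : Instr
  | jlt (i j l : ℕ) : Instr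

/-- A configuration: the program counter, the registers, the remaining input, the output. -/
structure Cfg where
  pc : ℕ
  R : ℕ → ℕ
  inp : List ℕ
  out : List ℕ

/-- One step of the program `P`; every number computed is at most `b`. -/
inductive Step (b : ℕ) (P : List Instr) : Cfg → Cfg → Prop
  | const (z : Cfg) (i c : ℕ) (h : P[z.pc]? = some (.const i c)) (hb : c ≤ b) :
      Step b P z ⟨z.pc + 1, Function.update z.R i c, z.inp, z.out⟩
  | add (z : Cfg) (i j k : ℕ) (h : P[z.pc]? = some (.add i j k)) (hb : z.R j + z.R k ≤ b) :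
      Step b P z ⟨z.pc + 1, Function.update z.R i (z.R j + z.R k), z.inp, z.out⟩
  | sub (z : Cfg) (i j k : ℕ) (h : P[z.pc]? = some (.sub i j k)) :
      Step b P z ⟨z.pc + 1, Function.update z.R i (z.R j - z.R k), z.inp, z.out⟩
  | load (z : Cfg) (i j : ℕ) (h : P[z.pc]? = some (.load i j)) :
      Step b P z ⟨z.pc + 1, Function.update z.R i (z.R (z.R j)), z.inp, z.out⟩
  | store (z : Cfg) (i j : ℕ) (h : P[z.pc]? = some (.store i j)) :
      Step b P z ⟨z.pc + 1, Function.update z.R (z.R i) (z.R j), z.inp, z.out⟩
  | read (z : Cfg) (i c : ℕ) (l : List ℕ) (h : P[z.pc]? = some (.read i))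
      (hl : z.inp = c :: l) :
      Step b P z ⟨z.pc + 1, Function.update z.R i c, l, z.out⟩
  | write (z : Cfg) (i : ℕ) (h : P[z.pc]? = some (.write i)) :
      Step b P z ⟨z.pc + 1, z.R, z.inp, z.out ++ [z.R i]⟩
  | jump (z : Cfg) (l : ℕ) (h : P[z.pc]? = some (.jump l)) :
      Step b P z ⟨l, z.R, z.inp, z.out⟩
  | jlt_pos (z : Cfg) (i j l : ℕ) (h : P[z.pc]? = some (.jlt i j l)) (hc : z.R i < z.R j) :
      Step b P z ⟨l, z.R, z.inp, z.out⟩
  | jlt_neg (z : Cfg) (i j l : ℕ) (h : P[z.pc]? = some (.jlt i j l)) (hc : ¬ z.R i < z.R j) :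
      Step b P z ⟨z.pc + 1, z.R, z.inp, z.out⟩

/-- `Steps b P z z' t`: the program `P` leads from `z` to `z'` in `t` steps, and every number
computed on the way is at most `b`. -/
inductive Steps (b : ℕ) (P : List Instr) : Cfg → Cfg → ℕ → Prop
  | refl (z : Cfg) : Steps b P z z 0
  | step {z z' z'' : Cfg} {t : ℕ} (h : Step b P z z') (h' : Steps b P z' z'' t) :
      Steps b P z z'' (t + 1)

/-- The start configuration: all registers are zero, the output is empty. -/
def start (l : List ℕ) : Cfg := ⟨0, fun _ => 0, l, []⟩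

/-- `Computes b P l o t`: started with the input `l`, the program `P` halts (its program
counter leaves the program) after exactly `t` steps with the output `o`, and every number
computed on the way is at most `b`. -/
def Computes (b : ℕ) (P : List Instr) (l o : List ℕ) (t : ℕ) : Prop :=
  ∃ z : Cfg, Steps b P (start l) z t ∧ P[z.pc]? = none ∧ z.out = o

theorem Step.mono {b b' : ℕ} (hb : b ≤ b') {P : List Instr} {z z' : Cfg}
    (h : Step b P z z') : Step b' P z z' := by
  cases h with
  | const i c h h' => exact .const z i c h (le_trans h' hb)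
  | add i j k h h' => exact .add z i j k h (le_trans h' hb)
  | sub i j k h => exact .sub z i j k h
  | load i j h => exact .load z i j h
  | store i j h => exact .store z i j h
  | read i c l h hl => exact .read z i c l h hl
  | write i h => exact .write z i h
  | jump l h => exact .jump z l h
  | jlt_pos i j l h hc => exact .jlt_pos z i j l h hc
  | jlt_neg i j l h hc => exact .jlt_neg z i j l h hc

theorem Steps.mono {b b' : ℕ} (hb : b ≤ b') {P : List Instr} {z z' : Cfg} {t : ℕ}
    (h : Steps b P z z' t) : Steps b' P z z' t := by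
  induction h with
  | refl z => exact .refl z
  | step h _ ih => exact .step (h.mono hb) ih

theorem Computes.mono {b b' : ℕ} (hb : b ≤ b') {P : List Instr} {l o : List ℕ} {t : ℕ}
    (h : Computes b P l o t) : Computes b' P l o t := by
  obtain ⟨z, h1, h2, h3⟩ := h
  exact ⟨z, h1.mono hb, h2, h3⟩

/-- The machine is deterministic. -/
theorem Step.det {b b' : ℕ} {P : List Instr} {z z1 z2 : Cfg} (h1 : Step b P z z1)
    (h2 : Step b' P z z2) : z1 = z2 := by
  cases h1 <;> cases h2 <;> simp_all <;> omega

theorem Step.not_halted {b : ℕ} {P : List Instr} {z z' : Cfg} (h : Step b P z z') :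
    P[z.pc]? ≠ none := by
  cases h <;> simp_all

theorem Steps.det {b b' : ℕ} {P : List Instr} {z z1 z2 : Cfg} {t1 t2 : ℕ}
    (h1 : Steps b P z z1 t1) (h2 : Steps b' P z z2 t2) (e1 : P[z1.pc]? = none)
    (e2 : P[z2.pc]? = none) : z1 = z2 ∧ t1 = t2 := by
  induction h1 generalizing t2 with
  | refl z =>
    cases h2 with
    | refl => exact ⟨rfl, rfl⟩
    | step g _ => exact absurd e1 g.not_halted
  | step h _ ih =>
    cases h2 with
    | refl => exact absurd e2 h.not_halted
    | step g g' =>
      have := h.det g
      subst this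
      obtain ⟨h3, h4⟩ := ih g' e1
      exact ⟨h3, by rw [h4]⟩

/-- The output and the time of a halting computation are determined by the program and the
input. -/
theorem Computes.det {b b' : ℕ} {P : List Instr} {l o o' : List ℕ} {t t' : ℕ}
    (h : Computes b P l o t) (h' : Computes b' P l o' t') : o = o' ∧ t = t' := by
  obtain ⟨z, h1, h2, rfl⟩ := h
  obtain ⟨z', h1', h2', rfl⟩ := h'
  obtain ⟨rfl, rfl⟩ := h1.det h1' h2 h2'
  exact ⟨rfl, rfl⟩

end Pool.Agent.CCL
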