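import Pool.Agent.CCL.Ram
import Pool.Agent.CCL.Machine

/-! Programs of the structured language which can be compiled. -/

namespace Pool.Agent.CCL

/-- Nesting depth. -/
def Ex.depth : Ex → ℕ
  | .const _ => 1
  | .var _ => 1
  | .add e f => 1 + max e.depth f.depth
  | .sub e f => 1 + max e.depth f.depth
  | .get _ e => 1 + e.depth

/-- Registers and arrays below 32, nesting depth at most 20. -/
def Ex.wf0 : Ex → Bool
  | .const _ => true
  | .var x => decide (x < 32)
  | .add e f => e.wf0 && f.wf0
  | .sub e f => e.wf0 && f.wf0
  | .get A e => decide (A < 32) && e.wf0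

/-- Registers and arrays below 32, nesting depth at most 20. -/
def Ex.wf (e : Ex) : Bool := e.wf0 && decide (e.depth ≤ 20)

/-- Registers and arrays below 32, nesting depth at most 20. -/
def Cn.wf : Cn → Bool
  | .lt e f => e.wf && f.wf
  | .eq e f => e.wf && f.wf
  | .ne e f => e.wf && f.wf

/-- Registers and arrays below 32, nesting depth at most 20. -/
def Prog.wf : Prog → Bool
  | .skip => true
  | .set x e => decide (x < 32) && e.wf
  | .put A i e => decide (A < 32) && i.wf && e.wf
  | .read x => decide (x < 32)
  | .write e => e.wf
  | .seq p q => p.wf && q.wf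
  | .ite c p q => c.wf && p.wf && q.wf
  | .loop c p => c.wf && p.wf

end Pool.Agent.CCL
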