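import Mathlib

/-! Instances of the congruence closure problem, and their encoding as a list of numbers. -/

namespace Pool.Agent.CCL

/-- An instance: a finite directed graph with vertices `0, ..., n - 1`, a label for every
vertex, the ordered list of the heads of the edges leaving every vertex (repetitions
allowed), and a finite list of pairs of vertices. -/
structure Inst where
  n : ℕ
  lab : Fin n → ℕ
  ch : Fin n → List (Fin n)
  pairs : List (Fin n × Fin n)

namespace Inst

variable (G : Inst)

/-- The number of edges. -/
def m : ℕ := ∑ v, (G.ch v).length

/-- The number of pairs. -/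
def k : ℕ := G.pairs.length

/-- The largest label. -/
def top : ℕ := Finset.univ.sup G.lab

/-- `u` and `v` are congruent under `r`: equal labels, equal outdegrees, and for every `i` the
heads of the `i`-th edges leaving them are related. -/
def Congruent (r : Setoid (Fin G.n)) (u v : Fin G.n) : Prop :=
  G.lab u = G.lab v ∧ List.Forall₂ (fun x y => r x y) (G.ch u) (G.ch v)

/-- The equivalence relations which contain the pairs and are closed under congruences. -/
def Closed : Set (Setoid (Fin G.n)) :=
  {r | (∀ p ∈ G.pairs, r p.1 p.2) ∧ ∀ u v, G.Congruent r u v → r u v}

/-- The congruence closure: the finest equivalence relation which contains the pairs and is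
closed under congruences. -/
def closure : Setoid (Fin G.n) := sInf G.Closed

theorem closure_iff {u v : Fin G.n} : G.closure u v ↔ ∀ r ∈ G.Closed, r u v := Iff.rfl

theorem closure_isLeast : IsLeast G.Closed G.closure := by
  refine ⟨⟨fun p hp => ?_, fun u v h => ?_⟩, fun r hr => sInf_le hr⟩
  · exact G.closure_iff.mpr fun r hr => hr.1 p hp
  · refine G.closure_iff.mpr fun r hr => hr.2 u v ⟨h.1, h.2.imp fun x y hxy => ?_⟩
    exact G.closure_iff.mp hxy r hr

/-- There is an edge from `u` to `v`, and `v` is not in the list `F`. -/
def Edge (F : List (Fin G.n)) (u v : Fin G.n) : Prop := v ∈ G.ch u ∧ v ∉ F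

open Classical in
/-- The number of vertices which lie on directed cycles avoiding the vertices in `F`. -/
noncomputable def cyc (F : List (Fin G.n)) : ℕ :=
  (Finset.univ.filter fun v : Fin G.n => Relation.TransGen (G.Edge F) v v).card

/-- The record of a vertex: its label, its outdegree, and the heads of the edges leaving it. -/
def record (v : Fin G.n) : List ℕ := G.lab v :: (G.ch v).length :: (G.ch v).map Fin.val

/-- The input list: `n`, the number of pairs, the length of `F`, the records of the vertices,
the pairs, and `F`. -/
def code (F : List (Fin G.n)) : List ℕ :=
  G.n :: G.k :: F.length ::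
    ((List.ofFn G.record).flatten ++
      ((G.pairs.map fun p => [(p.1 : ℕ), (p.2 : ℕ)]).flatten ++ F.map Fin.val))

end Inst

end Pool.Agent.CCL
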