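import Pool.Agent.CCL.Ram
import Pool.Agent.CCL.Instance

/-! Instances on natural numbers. -/

namespace Pool.Agent.CCL

/-- The same data on natural numbers, used inside the proof. -/
structure NInst where
  n : ℕ
  k : ℕ
  lab : ℕ → ℕ
  ch : ℕ → List ℕ
  pu : ℕ → ℕ
  pv : ℕ → ℕ
  fv : List ℕ
  hch : ∀ v < n, ∀ w ∈ ch v, w < n
  hpu : ∀ i < k, pu i < n
  hpv : ∀ i < k, pv i < n
  hfv : ∀ w ∈ fv, w < n

namespace NInst

variable (G : NInst)

/-- Number of edges leaving the vertices below `v`. -/
def off (v : ℕ) : ℕ := ∑ u ∈ Finset.range v, (G.ch u).length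

/-- Number of edges. -/
def m : ℕ := G.off G.n

/-- There is an edge from `u` to `v` and `v` is not in the given list. -/
def Edge (u v : ℕ) : Prop := u < G.n ∧ v ∈ G.ch u ∧ v ∉ G.fv

open Classical in
/-- The number of vertices on directed cycles avoiding the given list. -/
noncomputable def cyc : ℕ :=
  ((Finset.range G.n).filter fun v => Relation.TransGen G.Edge v v).card

/-- The record of a vertex. -/
def record (v : ℕ) : List ℕ := G.lab v :: (G.ch v).length :: G.ch v

/-- The input list. -/
def code : List ℕ :=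
  G.n :: G.k :: G.fv.length ::
    (((List.range G.n).map G.record).flatten ++
      (((List.range G.k).map fun i => [G.pu i, G.pv i]).flatten ++ G.fv))

/-- `s` holds the input. -/
structure Inp (s : St) : Prop where
  hn : s.v 0 = G.n
  hk : s.v 1 = G.k
  lab : ∀ v < G.n, s.a 0 v = G.lab v
  off : ∀ v ≤ G.n, s.a 1 v = G.off v
  ch : ∀ v < G.n, ∀ i (hi : i < (G.ch v).length), s.a 2 (G.off v + i) = (G.ch v)[i]
  pu : ∀ i < G.k, s.a 3 i = G.pu i
  pv : ∀ i < G.k, s.a 4 i = G.pv i

/-- Array 17 marks the vertices in the given list. -/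
def Mark (s : St) : Prop := ∀ w < G.n, s.a 17 w = if w ∈ G.fv then 1 else 0

/-- `R` is an equivalence relation on the vertices, contains the pairs, and is closed under
congruences. -/
structure Closed (R : ℕ → ℕ → Prop) : Prop where
  refl : ∀ u < G.n, R u u
  symm : ∀ u v, u < G.n → v < G.n → R u v → R v u
  trans : ∀ u v w, u < G.n → v < G.n → w < G.n → R u v → R v w → R u w
  pair : ∀ i < G.k, R (G.pu i) (G.pv i)
  cong : ∀ u v, u < G.n → v < G.n → G.lab u = G.lab v → List.Forall₂ R (G.ch u) (G.ch v) → R u v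

/-- The congruence closure. -/
def Cl (u v : ℕ) : Prop := ∀ R, G.Closed R → R u v

end NInst

end Pool.Agent.CCL
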