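import Pool.Agent.CCL.Undo

/-! The invariant and the potential of the main loop. -/

namespace Pool.Agent.CCL

open Ex Cn Prog

/-- Number of elements below `t` plus number of their children. -/
def wt (S : Sys) (t : ℕ) : ℕ := ∑ u ∈ Finset.range t, (1 + (S.ch u).length)

theorem wt_succ (S : Sys) (t : ℕ) : wt S (t + 1) = wt S t + (1 + (S.ch t).length) := by
  simp [wt, Finset.sum_range_succ]

theorem wt_mono (S : Sys) {t t' : ℕ} (h : t ≤ t') : wt S t ≤ wt S t' := by
  induction h with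
  | refl => exact le_rfl
  | step _ ih => rw [wt_succ]; omega

/-- Height of the undo stack before element `v`. -/
def Hh (s : St) (v : ℕ) : ℕ := if v < s.v 8 then s.a 15 v else s.v 9

/-- End of the used trie memory before element `v`. -/
def Ff (s : St) (v : ℕ) : ℕ := if v < s.v 8 then s.a 16 v else s.v 10

/-- The part of the potential which is stored at the partner pairs. -/
def pot (S : Sys) (N : ℕ) (A : ℕ → ℕ) : ℕ :=
  ∑ e ∈ Finset.range N, if A e = 0 then 0 else wt S e + wt S (e + 1)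

/-- The invariant of the main loop. -/
structure MInv (G : NInst) {pos ord : ℕ → ℕ} (h : OrdOK G pos ord) (B : ℕ)
    (par0 : ℕ → Option ℕ) (s : St) : Prop where
  inp : G.Inp s
  v7 : s.v 7 = B
  v21 : s.v 21 = G.n + G.n
  a9 : s.a 9 = pos
  a10 : s.a 10 = ord
  ht : s.v 8 ≤ G.n + G.n
  good : (mkSys G pos ord h).Good (fun e => dec (s.a 11 e)) (s.a 12) (s.v 8)
  plt : ∀ e x, dec (s.a 11 e) = some x → x < e ∧ e < G.n + G.n
  cl : ∀ u v, (mkSys G pos ord h).Cl (fun e => dec (s.a 11 e)) u v ↔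
    (mkSys G pos ord h).Cl par0 u v
  h00 : Hh s 0 = 0
  hH : ∀ v < s.v 8, Hh s v ≤ Hh s (v + 1) ∧
    Hh s (v + 1) ≤ Hh s v + (2 + ((mkSys G pos ord h).ch v).length)
  hF : ∀ v ≤ s.v 8, Ff s v ≤ B * (1 + wt (mkSys G pos ord h) v)
  tab : ∀ v ≤ s.v 8, TabOK (mkSys G pos ord h) B (s.a 12) v
    (zo (s.a 13) (seg (s.a 14) (Hh s v) (s.v 9))) (Ff s v)

section

variable {G : NInst} {pos ord : ℕ → ℕ} {h : OrdOK G pos ord} {B : ℕ} {par0 : ℕ → Option ℕ}
  {s : St}

theorem Hh_top (s : St) : Hh s (s.v 8) = s.v 9 := by simp [Hh]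

theorem Ff_top (s : St) : Ff s (s.v 8) = s.v 10 := by simp [Ff]

theorem MInv.Hh_mono (I : MInv G h B par0 s) {u v : ℕ} (huv : u ≤ v) (hv : v ≤ s.v 8) :
    Hh s u ≤ Hh s v ∧ Hh s v + 2 * wt (mkSys G pos ord h) u ≤
      Hh s u + 2 * wt (mkSys G pos ord h) v := by
  induction huv with
  | refl => exact ⟨le_rfl, le_rfl⟩
  | @step v huv ih =>
    obtain ⟨h1, h2⟩ := ih (by omega)
    obtain ⟨h3, h4⟩ := I.hH v (by omega)
    simp only [Nat.succ_eq_add_one]
    rw [wt_succ]
    exact ⟨by omega, by omega⟩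

theorem MInv.Hh_le (I : MInv G h B par0 s) {v : ℕ} (hv : v ≤ s.v 8) : Hh s v ≤ s.v 9 := by
  rw [← Hh_top s]; exact (I.Hh_mono hv le_rfl).1

/-- The table of the current state. -/
theorem MInv.tab_now (I : MInv G h B par0 s) :
    TabOK (mkSys G pos ord h) B (s.a 12) (s.v 8) (s.a 13) (s.v 10) := by
  have := I.tab (s.v 8) le_rfl
  rwa [Hh_top, Ff_top, seg_self, zo_empty] at this

/-- A step forward keeps the invariant. -/
theorem MInv.forward (I : MInv G h B par0 s) {s' : St} {y : ℕ} (ht : s.v 8 < G.n + G.n)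
    (inp : G.Inp s') (e7 : s'.v 7 = s.v 7) (e21 : s'.v 21 = s.v 21) (e9 : s'.a 9 = s.a 9)
    (e10 : s'.a 10 = s.a 10) (e8 : s'.v 8 = s.v 8 + 1) (e11 : s'.a 11 = s.a 11)
    (e12 : s'.a 12 = Function.update (s.a 12) (s.v 8) y)
    (e15 : s'.a 15 = Function.update (s.a 15) (s.v 8) (s.v 9))
    (e16 : s'.a 16 = Function.update (s.a 16) (s.v 8) (s.v 10))
    (hgood : (mkSys G pos ord h).Good (fun e => dec (s.a 11 e))
      (Function.update (s.a 12) (s.v 8) y) (s.v 8 + 1))
    (hundo : zo (s'.a 13) (seg (s'.a 14) (s.v 9) (s'.v 9)) = s.a 13)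
    (hst : ∀ i < s.v 9, s'.a 14 i = s.a 14 i) (hsp : s.v 9 ≤ s'.v 9)
    (hsp2 : s'.v 9 ≤ s.v 9 + (2 + ((mkSys G pos ord h).ch (s.v 8)).length))
    (hf : s'.v 10 ≤ s.v 10 + B * (1 + ((mkSys G pos ord h).ch (s.v 8)).length))
    (htab : TabOK (mkSys G pos ord h) B (Function.update (s.a 12) (s.v 8) y) (s.v 8 + 1)
      (s'.a 13) (s'.v 10)) : MInv G h B par0 s' := by
  have hHh : ∀ v ≤ s.v 8, Hh s' v = Hh s v := by
    intro v hv
    rcases Nat.lt_or_eq_of_le hv with hv | rfl
    · simp only [Hh, e8, e15, if_pos (show v < s.v 8 + 1 by omega), if_pos hv]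
      rw [Function.update_of_ne (by omega)]
    · simp [Hh, e8, e15]
  have hFf : ∀ v ≤ s.v 8, Ff s' v = Ff s v := by
    intro v hv
    rcases Nat.lt_or_eq_of_le hv with hv | rfl
    · simp only [Ff, e8, e16, if_pos (show v < s.v 8 + 1 by omega), if_pos hv]
      rw [Function.update_of_ne (by omega)]
    · simp [Ff, e8, e16]
  have hHt : Hh s' (s.v 8 + 1) = s'.v 9 := by rw [← e8]; exact Hh_top s'
  have hFt : Ff s' (s.v 8 + 1) = s'.v 10 := by rw [← e8]; exact Ff_top s'
  refine ⟨inp, by rw [e7]; exact I.v7, by rw [e21]; exact I.v21, by rw [e9]; exact I.a9,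
    by rw [e10]; exact I.a10, by omega, ?_, by rw [e11]; exact I.plt, by rw [e11]; exact I.cl,
    by rw [hHh 0 (Nat.zero_le _)]; exact I.h00, fun v hv => ?_, fun v hv => ?_, fun v hv => ?_⟩
  · rw [e11, e12, e8]; exact hgood
  · rw [e8] at hv
    rcases Nat.lt_succ_iff_lt_or_eq.mp hv with hv | rfl
    · rw [hHh v (by omega), hHh (v + 1) (by omega)]; exact I.hH v hv
    · rw [hHh _ le_rfl, hHt, Hh_top]; exact ⟨hsp, hsp2⟩
  · rw [e8] at hv
    rcases Nat.lt_or_eq_of_le hv with hv | rfl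
    · rw [hFf v (by omega)]; exact I.hF v (by omega)
    · have h1 := I.hF (s.v 8) le_rfl
      rw [Ff_top] at h1
      rw [hFt, wt_succ]
      have h2 : B * (1 + (wt (mkSys G pos ord h) (s.v 8) +
        (1 + ((mkSys G pos ord h).ch (s.v 8)).length))) =
        B * (1 + wt (mkSys G pos ord h) (s.v 8)) +
        B * (1 + ((mkSys G pos ord h).ch (s.v 8)).length) := by ring
      omega
  · rw [e8] at hv
    rcases Nat.lt_or_eq_of_le hv with hv | rfl
    · have h1 := I.tab v (by omega)
      have hle := I.Hh_le (v := v) (by omega)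
      rw [hHh v (by omega), hFf v (by omega), ← seg_union hle hsp, Set.union_comm, ← zo_zo,
        hundo, e12, seg_congr (st' := s.a 14) hst]
      exact h1.congr fun u hu => by rw [Function.update_of_ne (by omega)]
    · rw [hHt, hFt, seg_self, zo_empty, e12]
      exact htab

/-- A conflict keeps the invariant. -/
theorem MInv.back (I : MInv G h B par0 s) {s' : St} {τ st : ℕ → ℕ} {sp hi lo : ℕ}
    (hhi : hi < s.v 8) (hlo : lo < hi) (hi2 : hi < G.n + G.n)
    (inp : G.Inp s') (e7 : s'.v 7 = s.v 7) (e21 : s'.v 21 = s.v 21) (e9 : s'.a 9 = s.a 9)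
    (e10 : s'.a 10 = s.a 10) (e8 : s'.v 8 = hi)
    (e11 : s'.a 11 = Function.update (Function.update (s.a 11) (s.v 8) 0) hi (lo + 1))
    (e12 : s'.a 12 = s.a 12)
    (e15 : ∀ v < s.v 8, s'.a 15 v = s.a 15 v) (e16 : ∀ v < s.v 8, s'.a 16 v = s.a 16 v)
    (hcl : ∀ u v, (mkSys G pos ord h).Cl
      (Sys.conf (fun e => dec (s.a 11 e)) (s.v 8) hi lo) u v ↔
      (mkSys G pos ord h).Cl (fun e => dec (s.a 11 e)) u v)
    (hundo : zo τ (seg st (s.v 9) sp) = s.a 13) (hst : ∀ i < s.v 9, st i = s.a 14 i)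
    (hsp : s.v 9 ≤ sp) (e13 : s'.a 13 = zo τ (seg st (s.a 15 hi) sp)) (e14 : s'.a 14 = st)
    (ev9 : s'.v 9 = s.a 15 hi) (ev10 : s'.v 10 = s.a 16 hi) : MInv G h B par0 s' := by
  have hHh : ∀ v ≤ hi, Hh s' v = Hh s v := by
    intro v hv
    rcases Nat.lt_or_eq_of_le hv with hv | rfl
    · simp only [Hh, e8, if_pos hv, if_pos (show v < s.v 8 by omega)]
      exact e15 v (by omega)
    · simp [Hh, e8, ev9, hhi]
  have hFf : ∀ v ≤ hi, Ff s' v = Ff s v := by
    intro v hv
    rcases Nat.lt_or_eq_of_le hv with hv | rfl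
    · simp only [Ff, e8, if_pos hv, if_pos (show v < s.v 8 by omega)]
      exact e16 v (by omega)
    · simp [Ff, e8, ev10, hhi]
  have hdec : (fun e => dec (s'.a 11 e)) = Sys.conf (fun e => dec (s.a 11 e)) (s.v 8) hi lo := by
    funext e
    rw [e11]
    by_cases h1 : e = hi
    · subst h1; simp [Sys.conf, dec]
    · by_cases h2 : e = s.v 8
      · subst h2; simp [Sys.conf, h1, dec]
      · simp [Sys.conf, h1, h2]
  have hHhi : s.a 15 hi = Hh s hi := by simp [Hh, hhi]
  refine ⟨inp, by rw [e7]; exact I.v7, by rw [e21]; exact I.v21, by rw [e9]; exact I.a9,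
    by rw [e10]; exact I.a10, by omega, ?_, ?_, ?_,
    by rw [hHh 0 (Nat.zero_le _)]; exact I.h00, fun v hv => ?_, fun v hv => ?_,
    fun v hv => ?_⟩
  · rw [e8, e12]
    refine (I.good.mono hhi.le).congr (fun v hv => ?_) (fun _ _ => rfl)
    show dec (s.a 11 v) = dec (s'.a 11 v)
    rw [e11, Function.update_of_ne (by omega), Function.update_of_ne (by omega)]
  · intro e x hex
    rw [e11] at hex
    by_cases h1 : e = hi
    · subst h1
      rw [Function.update_self, dec_eq_some] at hex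
      exact ⟨by omega, hi2⟩
    · rw [Function.update_of_ne h1] at hex
      by_cases h2 : e = s.v 8
      · subst h2
        rw [Function.update_self, dec_eq_some] at hex
        omega
      · rw [Function.update_of_ne h2] at hex
        exact I.plt e x hex
  · intro u v
    rw [hdec, hcl u v]; exact I.cl u v
  · rw [e8] at hv
    rw [hHh v (by omega), hHh (v + 1) (by omega)]
    exact I.hH v (by omega)
  · rw [e8] at hv
    rw [hFf v hv]; exact I.hF v (by omega)
  · rw [e8] at hv
    have h1 := I.tab v (by omega)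
    have hle := I.Hh_le (v := v) (by omega)
    have hle2 := I.Hh_le (v := hi) (by omega)
    have hle3 := (I.Hh_mono hv (by omega)).1
    rw [hHh v hv, hFf v hv, e13, e14, ev9, e12, hHhi, zo_zo, Set.union_comm,
      seg_union hle3 (by omega), ← seg_union hle hsp, Set.union_comm, ← zo_zo, hundo,
      seg_congr (st' := s.a 14) hst]
    exact h1

end

/-- The potential of the pairs after a conflict. -/
theorem pot_conf (S : Sys) {N : ℕ} {A : ℕ → ℕ} {t hi lo : ℕ} (ht : t < N) (hlt : hi < t)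
    (hAt : A t ≠ 0) (hAh : A hi = 0) :
    pot S N (Function.update (Function.update A t 0) hi (lo + 1)) + (wt S t + wt S (t + 1)) =
      pot S N A + (wt S hi + wt S (hi + 1)) := by
  have hti : t ∈ Finset.range N := Finset.mem_range.mpr ht
  have hhi : hi ∈ (Finset.range N).erase t :=
    Finset.mem_erase.mpr ⟨by omega, Finset.mem_range.mpr (by omega)⟩
  unfold pot
  rw [← Finset.add_sum_erase _ _ hti, ← Finset.add_sum_erase _ _ hhi,
    ← Finset.add_sum_erase (Finset.range N) (fun e => if A e = 0 then 0 else wt S e + wt S (e + 1))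
      hti, ← Finset.add_sum_erase _ (fun e => if A e = 0 then 0 else wt S e + wt S (e + 1)) hhi]
  have h1 : ∑ e ∈ ((Finset.range N).erase t).erase hi,
      (if Function.update (Function.update A t 0) hi (lo + 1) e = 0 then 0
        else wt S e + wt S (e + 1)) =
      ∑ e ∈ ((Finset.range N).erase t).erase hi,
        (if A e = 0 then 0 else wt S e + wt S (e + 1)) := by
    refine Finset.sum_congr rfl fun e he => ?_
    have h2 := Finset.mem_erase.mp he
    have h3 := Finset.mem_erase.mp h2.2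
    rw [Function.update_of_ne h2.1, Function.update_of_ne h3.1]
  rw [h1, Function.update_of_ne (show t ≠ hi by omega), Function.update_self,
    Function.update_self]
  simp only [if_true, if_neg hAt, if_pos hAh, Nat.add_eq_zero_iff, one_ne_zero, and_false,
    if_false]
  omega

end Pool.Agent.CCL
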