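import Mathlib

/-! A structured language for unit cost random access machines.

A state consists of scalar registers `v x` and arrays `a A i`, all holding natural
numbers, the rest of the input and the output written so far.  Expressions are built from constants, registers, addition, truncated
subtraction and array reads; their cost is the number of their nodes.  A program is
built from assignments, array writes, reading and writing, sequencing, conditionals and loops; every
assignment, write and test costs one unit more than the expressions in it.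
`Run b p s s' t` says: started in `s`, the program `p` halts in `s'` after cost `t`,
and every constant and every sum computed on the way is at most `b`. -/

namespace Pool.Agent.CCL

/-- A state: scalar registers, arrays, remaining input, output. -/
@[ext] structure St where
  v : ℕ → ℕ
  a : ℕ → ℕ → ℕ
  inp : List ℕ
  out : List ℕ

namespace St

/-- Write a scalar register. -/
def setv (s : St) (x w : ℕ) : St := ⟨Function.update s.v x w, s.a, s.inp, s.out⟩

/-- Write an array cell. -/
def seta (s : St) (A i w : ℕ) : St :=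
  ⟨s.v, Function.update s.a A (Function.update (s.a A) i w), s.inp, s.out⟩

/-- Replace the remaining input. -/
def seti (s : St) (l : List ℕ) : St := ⟨s.v, s.a, l, s.out⟩

/-- Replace the output. -/
def seto (s : St) (l : List ℕ) : St := ⟨s.v, s.a, s.inp, l⟩

@[simp] theorem setv_a (s : St) (x w : ℕ) : (s.setv x w).a = s.a := rfl
@[simp] theorem seta_v (s : St) (A i w : ℕ) : (s.seta A i w).v = s.v := rfl
@[simp] theorem setv_inp (s : St) (x w : ℕ) : (s.setv x w).inp = s.inp := rfl
@[simp] theorem setv_out (s : St) (x w : ℕ) : (s.setv x w).out = s.out := rfl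
@[simp] theorem seta_inp (s : St) (A i w : ℕ) : (s.seta A i w).inp = s.inp := rfl
@[simp] theorem seta_out (s : St) (A i w : ℕ) : (s.seta A i w).out = s.out := rfl
@[simp] theorem seti_v (s : St) (l : List ℕ) : (s.seti l).v = s.v := rfl
@[simp] theorem seti_a (s : St) (l : List ℕ) : (s.seti l).a = s.a := rfl
@[simp] theorem seti_inp (s : St) (l : List ℕ) : (s.seti l).inp = l := rfl
@[simp] theorem seti_out (s : St) (l : List ℕ) : (s.seti l).out = s.out := rfl
@[simp] theorem seto_v (s : St) (l : List ℕ) : (s.seto l).v = s.v := rfl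
@[simp] theorem seto_a (s : St) (l : List ℕ) : (s.seto l).a = s.a := rfl
@[simp] theorem seto_inp (s : St) (l : List ℕ) : (s.seto l).inp = s.inp := rfl
@[simp] theorem seto_out (s : St) (l : List ℕ) : (s.seto l).out = l := rfl
theorem setv_v (s : St) (x w y : ℕ) : (s.setv x w).v y = if y = x then w else s.v y := by
  simp [setv, Function.update_apply]
@[simp] theorem setv_v_self (s : St) (x w : ℕ) : (s.setv x w).v x = w := by simp [setv]
theorem setv_v_ne (s : St) {x w y : ℕ} (h : y ≠ x) : (s.setv x w).v y = s.v y := by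
  simp [setv, h]
theorem seta_a (s : St) (A i w B : ℕ) : (s.seta A i w).a B =
    if B = A then Function.update (s.a A) i w else s.a B := by
  by_cases h : B = A
  · subst h; simp [seta]
  · simp [seta, h]
@[simp] theorem seta_a_self (s : St) (A i w : ℕ) :
    (s.seta A i w).a A = Function.update (s.a A) i w := by simp [seta]
theorem seta_a_ne (s : St) {A i w B : ℕ} (h : B ≠ A) : (s.seta A i w).a B = s.a B := by
  simp [seta, h]

end St

/-- Expressions. -/
inductive Ex : Type
  | const : ℕ → Ex
  | var : ℕ → Ex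
  | add : Ex → Ex → Ex
  | sub : Ex → Ex → Ex
  | get : ℕ → Ex → Ex

namespace Ex

/-- The value of an expression. -/
@[simp] def eval (s : St) : Ex → ℕ
  | const c => c
  | var x => s.v x
  | add e f => eval s e + eval s f
  | sub e f => eval s e - eval s f
  | get A e => s.a A (eval s e)

/-- The cost of an expression: the number of its nodes. -/
@[simp] def cost : Ex → ℕ
  | const _ => 1
  | var _ => 1
  | add e f => 1 + cost e + cost f
  | sub e f => 1 + cost e + cost f
  | get _ e => 1 + cost e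

/-- Every constant and every sum met in the evaluation is at most `b`. -/
@[simp] def ok (b : ℕ) (s : St) : Ex → Prop
  | const c => c ≤ b
  | var _ => True
  | add e f => ok b s e ∧ ok b s f ∧ eval s e + eval s f ≤ b
  | sub e f => ok b s e ∧ ok b s f
  | get _ e => ok b s e

end Ex

/-- Tests. -/
inductive Cn : Type
  | lt : Ex → Ex → Cn
  | eq : Ex → Ex → Cn
  | ne : Ex → Ex → Cn

namespace Cn

/-- The truth value of a test. -/
@[simp] def eval (s : St) : Cn → Prop
  | lt e f => e.eval s < f.eval s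
  | eq e f => e.eval s = f.eval s
  | ne e f => e.eval s ≠ f.eval s

/-- The cost of a test. -/
@[simp] def cost : Cn → ℕ
  | lt e f => e.cost + f.cost
  | eq e f => e.cost + f.cost
  | ne e f => e.cost + f.cost

/-- Every constant and every sum met in the test is at most `b`. -/
@[simp] def ok (b : ℕ) (s : St) : Cn → Prop
  | lt e f => e.ok b s ∧ f.ok b s
  | eq e f => e.ok b s ∧ f.ok b s
  | ne e f => e.ok b s ∧ f.ok b s

end Cn

/-- Programs. -/
inductive Prog : Type
  | skip : Prog
  | set : ℕ → Ex → Prog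
  | put : ℕ → Ex → Ex → Prog
  | read : ℕ → Prog
  | write : Ex → Prog
  | seq : Prog → Prog → Prog
  | ite : Cn → Prog → Prog → Prog
  | loop : Cn → Prog → Prog

/-- `Run b p s s' t`: the program `p`, started in `s`, halts in `s'` after cost `t`,
and every constant and every sum met on the way is at most `b`. -/
inductive Run (b : ℕ) : Prog → St → St → ℕ → Prop
  | skip (s : St) : Run b .skip s s 1
  | set (x : ℕ) (e : Ex) (s : St) (h : e.ok b s) :
      Run b (.set x e) s (s.setv x (e.eval s)) (1 + e.cost)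
  | put (A : ℕ) (i e : Ex) (s : St) (hi : i.ok b s) (he : e.ok b s) :
      Run b (.put A i e) s (s.seta A (i.eval s) (e.eval s)) (1 + i.cost + e.cost)
  | read (x : ℕ) (s : St) (c : ℕ) (l : List ℕ) (h : s.inp = c :: l) :
      Run b (.read x) s ((s.setv x c).seti l) 1
  | write (e : Ex) (s : St) (he : e.ok b s) :
      Run b (.write e) s (s.seto (s.out ++ [e.eval s])) (1 + e.cost)
  | seq {p q : Prog} {s s1 s2 : St} {t1 t2 : ℕ} (h1 : Run b p s s1 t1)
      (h2 : Run b q s1 s2 t2) : Run b (.seq p q) s s2 (t1 + t2)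
  | ite_pos {c : Cn} {p : Prog} (q : Prog) {s s' : St} {t : ℕ} (hc : c.ok b s) (h : c.eval s)
      (h1 : Run b p s s' t) : Run b (.ite c p q) s s' (1 + c.cost + t)
  | ite_neg {c : Cn} (p : Prog) {q : Prog} {s s' : St} {t : ℕ} (hc : c.ok b s) (h : ¬ c.eval s)
      (h1 : Run b q s s' t) : Run b (.ite c p q) s s' (1 + c.cost + t)
  | loop_end {c : Cn} (p : Prog) {s : St} (hc : c.ok b s) (h : ¬ c.eval s) :
      Run b (.loop c p) s s (1 + c.cost)
  | loop_step {c : Cn} {p : Prog} {s s1 s2 : St} {t1 t2 : ℕ} (hc : c.ok b s) (h : c.eval s)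
      (h1 : Run b p s s1 t1) (h2 : Run b (.loop c p) s1 s2 t2) :
      Run b (.loop c p) s s2 (1 + c.cost + t1 + t2)

/-- The machine is deterministic: final state and cost are functions of the start. -/
theorem Run.det {b b' : ℕ} {p : Prog} {s s1 s2 : St} {t1 t2 : ℕ} (h1 : Run b p s s1 t1)
    (h2 : Run b' p s s2 t2) : s1 = s2 ∧ t1 = t2 := by
  induction h1 generalizing s2 t2 with
  | skip s => cases h2; exact ⟨rfl, rfl⟩
  | set x e s h => cases h2; exact ⟨rfl, rfl⟩
  | put A i e s hi he => cases h2; exact ⟨rfl, rfl⟩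
  | read x s c l h =>
      cases h2 with
      | read _ _ c' l' h' =>
        rw [h] at h'
        cases h'
        exact ⟨rfl, rfl⟩
  | write e s he => cases h2; exact ⟨rfl, rfl⟩
  | seq _ _ ih1 ih2 =>
      cases h2 with
      | seq g1 g2 =>
        obtain ⟨rfl, rfl⟩ := ih1 g1
        obtain ⟨rfl, rfl⟩ := ih2 g2
        exact ⟨rfl, rfl⟩
  | ite_pos q hc h _ ih =>
      cases h2 with
      | ite_pos _ _ _ g => obtain ⟨rfl, rfl⟩ := ih g; exact ⟨rfl, rfl⟩
      | ite_neg _ _ h' _ => exact absurd h h'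
  | ite_neg p hc h _ ih =>
      cases h2 with
      | ite_neg _ _ _ g => obtain ⟨rfl, rfl⟩ := ih g; exact ⟨rfl, rfl⟩
      | ite_pos _ _ h' _ => exact absurd h' h
  | loop_end p hc h =>
      cases h2 with
      | loop_end _ _ _ => exact ⟨rfl, rfl⟩
      | loop_step _ h' _ _ => exact absurd h' h
  | loop_step hc h _ _ ih1 ih2 =>
      cases h2 with
      | loop_end _ _ h' => exact absurd h h'
      | loop_step _ _ g1 g2 =>
        obtain ⟨rfl, rfl⟩ := ih1 g1
        obtain ⟨rfl, rfl⟩ := ih2 g2
        exact ⟨rfl, rfl⟩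

theorem Ex.ok_mono {b b' : ℕ} (h : b ≤ b') {s : St} : ∀ {e : Ex}, e.ok b s → e.ok b' s
  | .const _, hc => le_trans hc h
  | .var _, _ => trivial
  | .add _ _, hc => ⟨Ex.ok_mono h hc.1, Ex.ok_mono h hc.2.1, le_trans hc.2.2 h⟩
  | .sub _ _, hc => ⟨Ex.ok_mono h hc.1, Ex.ok_mono h hc.2⟩
  | .get _ e, hc => Ex.ok_mono (e := e) h hc

theorem Cn.ok_mono {b b' : ℕ} (h : b ≤ b') {s : St} : ∀ {c : Cn}, c.ok b s → c.ok b' s
  | .lt _ _, hc => ⟨Ex.ok_mono h hc.1, Ex.ok_mono h hc.2⟩
  | .eq _ _, hc => ⟨Ex.ok_mono h hc.1, Ex.ok_mono h hc.2⟩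
  | .ne _ _, hc => ⟨Ex.ok_mono h hc.1, Ex.ok_mono h hc.2⟩

theorem Run.mono {b b' : ℕ} (hb : b ≤ b') {p : Prog} {s s' : St} {t : ℕ} (h : Run b p s s' t) :
    Run b' p s s' t := by
  induction h with
  | skip s => exact .skip s
  | set x e s h => exact .set x e s (Ex.ok_mono hb h)
  | put A i e s hi he => exact .put A i e s (Ex.ok_mono hb hi) (Ex.ok_mono hb he)
  | read x s c l h => exact .read x s c l h
  | write e s he => exact .write e s (Ex.ok_mono hb he)
  | seq _ _ ih1 ih2 => exact .seq ih1 ih2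
  | ite_pos q hc h _ ih => exact .ite_pos q (Cn.ok_mono hb hc) h ih
  | ite_neg p hc h _ ih => exact .ite_neg p (Cn.ok_mono hb hc) h ih
  | loop_end p hc h => exact .loop_end p (Cn.ok_mono hb hc) h
  | loop_step hc h _ _ ih1 ih2 => exact .loop_step (Cn.ok_mono hb hc) h ih1 ih2

/-! ### Specifications -/

/-- `Sp b p s Q`: the program halts from `s` (sums at most `b`) with final state and cost in
`Q`. -/
def Sp (b : ℕ) (p : Prog) (s : St) (Q : St → ℕ → Prop) : Prop :=
  ∃ s' t, Run b p s s' t ∧ Q s' t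

theorem Sp.mono {b : ℕ} {p : Prog} {s : St} {Q R : St → ℕ → Prop} (h : Sp b p s Q)
    (hQR : ∀ s' t, Q s' t → R s' t) : Sp b p s R := by
  obtain ⟨s', t, hr, hq⟩ := h
  exact ⟨s', t, hr, hQR _ _ hq⟩

/-- Like `Sp.mono`, but also giving the run (for frame conditions). -/
theorem Sp.mono_run {b : ℕ} {p : Prog} {s : St} {Q R : St → ℕ → Prop} (h : Sp b p s Q)
    (hQR : ∀ s' t, Run b p s s' t → Q s' t → R s' t) : Sp b p s R := by
  obtain ⟨s', t, hr, hq⟩ := h
  exact ⟨s', t, hr, hQR _ _ hr hq⟩

theorem Sp.skip {b : ℕ} {s : St} {Q : St → ℕ → Prop} (h : Q s 1) : Sp b .skip s Q :=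
  ⟨_, _, .skip s, h⟩

theorem Sp.set {b x : ℕ} {e : Ex} {s : St} {Q : St → ℕ → Prop} (hok : e.ok b s)
    (h : Q (s.setv x (e.eval s)) (1 + e.cost)) : Sp b (.set x e) s Q :=
  ⟨_, _, .set x e s hok, h⟩

theorem Sp.put {b A : ℕ} {i e : Ex} {s : St} {Q : St → ℕ → Prop} (hi : i.ok b s) (he : e.ok b s)
    (h : Q (s.seta A (i.eval s) (e.eval s)) (1 + i.cost + e.cost)) : Sp b (.put A i e) s Q :=
  ⟨_, _, .put A i e s hi he, h⟩

theorem Sp.read {b x c : ℕ} {l : List ℕ} {s : St} {Q : St → ℕ → Prop} (hs : s.inp = c :: l)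
    (h : Q ((s.setv x c).seti l) 1) : Sp b (.read x) s Q :=
  ⟨_, _, .read x s c l hs, h⟩

theorem Sp.write {b : ℕ} {e : Ex} {s : St} {Q : St → ℕ → Prop} (he : e.ok b s)
    (h : Q (s.seto (s.out ++ [e.eval s])) (1 + e.cost)) : Sp b (.write e) s Q :=
  ⟨_, _, .write e s he, h⟩

theorem Sp.seq {b : ℕ} {p q : Prog} {s : St} {Q : St → ℕ → Prop}
    (h : Sp b p s (fun s1 t1 => Sp b q s1 (fun s2 t2 => Q s2 (t1 + t2)))) :
    Sp b (.seq p q) s Q := by
  obtain ⟨s1, t1, h1, s2, t2, h2, hq⟩ := h
  exact ⟨s2, t1 + t2, .seq h1 h2, hq⟩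

theorem Sp.ite {b : ℕ} {c : Cn} {p q : Prog} {s : St} {Q : St → ℕ → Prop} (hok : c.ok b s)
    (h1 : c.eval s → Sp b p s (fun s' t => Q s' (1 + c.cost + t)))
    (h2 : ¬ c.eval s → Sp b q s (fun s' t => Q s' (1 + c.cost + t))) :
    Sp b (.ite c p q) s Q := by
  by_cases hc : c.eval s
  · obtain ⟨s', t, hr, hq⟩ := h1 hc
    exact ⟨s', _, .ite_pos q hok hc hr, hq⟩
  · obtain ⟨s', t, hr, hq⟩ := h2 hc
    exact ⟨s', _, .ite_neg p hok hc hr, hq⟩

/-- The loop rule with an invariant `I` and a potential `μ` that pays for every round. -/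
theorem Sp.loop {b : ℕ} {c : Cn} {p : Prog} (I : St → Prop) (μ : St → ℕ)
    (hok : ∀ s, I s → c.ok b s)
    (hbody : ∀ s, I s → c.eval s →
      Sp b p s (fun s' t => I s' ∧ 1 + c.cost + t + μ s' ≤ μ s))
    {s : St} (hI : I s) :
    Sp b (.loop c p) s (fun s' t => I s' ∧ ¬ c.eval s' ∧ t + μ s' ≤ μ s + 1 + c.cost) := by
  generalize hn : μ s = n
  induction n using Nat.strong_induction_on generalizing s with
  | _ n ih =>
    by_cases hc : c.eval s
    · obtain ⟨s1, t1, hr, hI1, hle⟩ := hbody s hI hc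
      have hlt : μ s1 < n := by omega
      obtain ⟨s2, t2, hr2, hI2, hc2, hle2⟩ := ih (μ s1) hlt hI1 rfl
      exact ⟨s2, _, .loop_step (hok s hI) hc hr hr2, hI2, hc2, by omega⟩
    · exact ⟨s, _, .loop_end p (hok s hI) hc, hI, hc, by omega⟩

/-! ### Blocks -/

/-- A block of programs, run one after the other. -/
def blk : List Prog → Prog
  | [] => .skip
  | p :: ps => .seq p (blk ps)

theorem Sp.nil {b : ℕ} {s : St} {Q : St → ℕ → Prop} (h : Q s 1) : Sp b (blk []) s Q :=
  Sp.skip h

theorem Sp.cons {b : ℕ} {p : Prog} {ps : List Prog} {s : St} {Q : St → ℕ → Prop}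
    (h : Sp b p s (fun s1 t1 => Sp b (blk ps) s1 (fun s2 t2 => Q s2 (t1 + t2)))) :
    Sp b (blk (p :: ps)) s Q := Sp.seq h

/-! ### Frames -/

/-- `p.wv x`: the program text contains an assignment to the register `x`. -/
def Prog.wv : Prog → ℕ → Bool
  | .skip, _ => false
  | .set y _, x => decide (x = y)
  | .put _ _ _, _ => false
  | .read y, x => decide (x = y)
  | .write _, _ => false
  | .seq p q, x => p.wv x || q.wv x
  | .ite _ p q, x => p.wv x || q.wv x
  | .loop _ p, x => p.wv x

/-- `p.wa A`: the program text contains a write to the array `A`. -/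
def Prog.wa : Prog → ℕ → Bool
  | .skip, _ => false
  | .set _ _, _ => false
  | .put B _ _, A => decide (A = B)
  | .read _, _ => false
  | .write _, _ => false
  | .seq p q, A => p.wa A || q.wa A
  | .ite _ p q, A => p.wa A || q.wa A
  | .loop _ p, A => p.wa A

/-- `p.io`: the program text contains a read or a write. -/
def Prog.io : Prog → Bool
  | .skip => false
  | .set _ _ => false
  | .put _ _ _ => false
  | .read _ => true
  | .write _ => true
  | .seq p q => p.io || q.io
  | .ite _ p q => p.io || q.io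
  | .loop _ p => p.io

theorem Run.frame_v {b : ℕ} {p : Prog} {s s' : St} {t : ℕ} (h : Run b p s s' t) {x : ℕ}
    (hx : p.wv x = false) : s'.v x = s.v x := by
  induction h with
  | skip s => rfl
  | set y e s h =>
      simp only [Prog.wv, decide_eq_false_iff_not] at hx
      exact St.setv_v_ne _ hx
  | put A i e s hi he => rfl
  | read y s c l h =>
      simp only [Prog.wv, decide_eq_false_iff_not] at hx
      rw [St.seti_v]
      exact St.setv_v_ne _ hx
  | write e s he => rfl
  | seq _ _ ih1 ih2 =>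
      simp only [Prog.wv, Bool.or_eq_false_iff] at hx
      rw [ih2 hx.2, ih1 hx.1]
  | ite_pos q hc h _ ih =>
      simp only [Prog.wv, Bool.or_eq_false_iff] at hx
      exact ih hx.1
  | ite_neg p hc h _ ih =>
      simp only [Prog.wv, Bool.or_eq_false_iff] at hx
      exact ih hx.2
  | loop_end p hc h => rfl
  | loop_step hc h _ _ ih1 ih2 => rw [ih2 hx, ih1 hx]

theorem Run.frame_a {b : ℕ} {p : Prog} {s s' : St} {t : ℕ} (h : Run b p s s' t) {A : ℕ}
    (hA : p.wa A = false) : s'.a A = s.a A := by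
  induction h with
  | skip s => rfl
  | set y e s h => rfl
  | put B i e s hi he =>
      simp only [Prog.wa, decide_eq_false_iff_not] at hA
      exact St.seta_a_ne _ hA
  | read y s c l h => rfl
  | write e s he => rfl
  | seq _ _ ih1 ih2 =>
      simp only [Prog.wa, Bool.or_eq_false_iff] at hA
      rw [ih2 hA.2, ih1 hA.1]
  | ite_pos q hc h _ ih =>
      simp only [Prog.wa, Bool.or_eq_false_iff] at hA
      exact ih hA.1
  | ite_neg p hc h _ ih =>
      simp only [Prog.wa, Bool.or_eq_false_iff] at hA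
      exact ih hA.2
  | loop_end p hc h => rfl
  | loop_step hc h _ _ ih1 ih2 => rw [ih2 hA, ih1 hA]

/-- `p.wr`: the program text contains a write. -/
def Prog.wr : Prog → Bool
  | .skip => false
  | .set _ _ => false
  | .put _ _ _ => false
  | .read _ => false
  | .write _ => true
  | .seq p q => p.wr || q.wr
  | .ite _ p q => p.wr || q.wr
  | .loop _ p => p.wr

theorem frame_out {b : ℕ} {p : Prog} {s s' : St} {t : ℕ} (h : Run b p s s' t)
    (hp : p.wr = false) : s'.out = s.out := by
  induction h with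
  | skip s => rfl
  | set y e s h => rfl
  | put B i e s hi he => rfl
  | read y s c l h => rfl
  | write e s he => simp [Prog.wr] at hp
  | seq _ _ ih1 ih2 =>
      simp only [Prog.wr, Bool.or_eq_false_iff] at hp
      rw [ih2 hp.2, ih1 hp.1]
  | ite_pos q hc h _ ih =>
      simp only [Prog.wr, Bool.or_eq_false_iff] at hp
      exact ih hp.1
  | ite_neg p hc h _ ih =>
      simp only [Prog.wr, Bool.or_eq_false_iff] at hp
      exact ih hp.2
  | loop_end p hc h => rfl
  | loop_step hc h _ _ ih1 ih2 => rw [ih2 hp, ih1 hp]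

theorem Run.frame_io {b : ℕ} {p : Prog} {s s' : St} {t : ℕ} (h : Run b p s s' t)
    (hp : p.io = false) : s'.inp = s.inp ∧ s'.out = s.out := by
  induction h with
  | skip s => exact ⟨rfl, rfl⟩
  | set y e s h => exact ⟨rfl, rfl⟩
  | put B i e s hi he => exact ⟨rfl, rfl⟩
  | read y s c l h => simp [Prog.io] at hp
  | write e s he => simp [Prog.io] at hp
  | seq _ _ ih1 ih2 =>
      simp only [Prog.io, Bool.or_eq_false_iff] at hp
      rw [(ih2 hp.2).1, (ih2 hp.2).2, (ih1 hp.1).1, (ih1 hp.1).2]
      exact ⟨rfl, rfl⟩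
  | ite_pos q hc h _ ih =>
      simp only [Prog.io, Bool.or_eq_false_iff] at hp
      exact ih hp.1
  | ite_neg p hc h _ ih =>
      simp only [Prog.io, Bool.or_eq_false_iff] at hp
      exact ih hp.2
  | loop_end p hc h => exact ⟨rfl, rfl⟩
  | loop_step hc h _ _ ih1 ih2 =>
      rw [(ih2 hp).1, (ih2 hp).2, (ih1 hp).1, (ih1 hp).2]
      exact ⟨rfl, rfl⟩

end Pool.Agent.CCL
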