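import Pool.Agent.CCL.Defs

/-! Stage 0: reading the input. -/

namespace Pool.Agent.CCL

open Ex Cn Prog

/-- The inner loop: reading an adjacency list. -/
private theorem st0_inner {b : ℕ} (l X : List ℕ) {s : St} (h14 : s.v 14 = l.length)
    (hinp : s.inp = l ++ X) (hb : s.v 13 + l.length + 1 ≤ b) :
    Sp b (loop (lt (const 0) (var 14)) (blk [
      read 15,
      put 2 (var 13) (var 15),
      set 13 (add (var 13) (const 1)),
      set 14 (sub (var 14) (const 1))])) s (fun s' t =>
        s'.inp = X ∧ s'.v 13 = s.v 13 + l.length ∧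
        (∀ i (hi : i < l.length), s'.a 2 (s.v 13 + i) = l[i]) ∧
        (∀ x < s.v 13, s'.a 2 x = s.a 2 x) ∧ t ≤ 16 * l.length + 3) := by
  let I : St → Prop := fun s1 => ∃ j ≤ l.length, s1.v 14 = l.length - j ∧
    s1.v 13 = s.v 13 + j ∧ s1.inp = l.drop j ++ X ∧
    (∀ i (hi : i < l.length), i < j → s1.a 2 (s.v 13 + i) = l[i]) ∧
    ∀ x < s.v 13, s1.a 2 x = s.a 2 x
  have hloop := Sp.loop (b := b) (c := lt (const 0) (var 14)) (p := blk [
      read 15,
      put 2 (var 13) (var 15),
      set 13 (add (var 13) (const 1)),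
      set 14 (sub (var 14) (const 1))]) I (fun s1 => 16 * s1.v 14) (fun _ _ => by simp)
      ?_ (s := s) ?_
  · refine Sp.mono hloop ?_
    rintro s' t ⟨⟨j, hj, e14, e13, einp, e2, e2'⟩, hc, ht⟩
    have hz : s'.v 14 = 0 := by
      have : ¬ 0 < s'.v 14 := by simpa using hc
      omega
    have hjl : j = l.length := by omega
    subst hjl
    refine ⟨by rw [einp]; simp, e13, fun i hi => e2 i hi hi, e2', ?_⟩
    simp only [Cn.cost, Ex.cost] at ht
    omega
  · rintro s1 ⟨j, hj, e14, e13, einp, e2, e2'⟩ hc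
    have hpos : 0 < s1.v 14 := by simpa using hc
    have hjl : j < l.length := by omega
    have hd : s1.inp = l[j] :: (l.drop (j + 1) ++ X) := by
      rw [einp, List.drop_eq_getElem_cons hjl]; rfl
    refine Sp.cons (Sp.read hd (Sp.cons (Sp.put (by simp) (by simp) (Sp.cons (Sp.set ?_
      (Sp.cons (Sp.set (by simp; omega) (Sp.nil ?_))))))))
    · simp [St.setv_v]; omega
    · refine ⟨⟨j + 1, hjl, ?_, ?_, ?_, ?_, ?_⟩, ?_⟩
      · simp [St.setv_v]; omega
      · simp [St.setv_v]; omega
      · simp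
      · intro i hi hij
        simp only [St.setv_a, St.seta_a_self, Ex.eval, St.seti_v, St.seti_a, St.setv_v_self]
        rw [St.setv_v_ne _ (by decide), e13]
        by_cases hie : i = j
        · subst hie
          rw [Function.update_self]
        · rw [Function.update_of_ne (by omega)]
          exact e2 i hi (by omega)
      · intro x hx
        simp only [St.setv_a, St.seta_a_self, Ex.eval, St.seti_v, St.seti_a, St.setv_v_self]
        rw [St.setv_v_ne _ (by decide), e13, Function.update_of_ne (by omega)]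
        exact e2' x hx
      · simp [St.setv_v]; omega
  · exact ⟨0, Nat.zero_le _, by omega, by omega, by simpa using hinp,
      fun i _ hi => absurd hi (Nat.not_lt_zero _), fun _ _ => rfl⟩

/-- the records of the vertices from `v` on -/
private def st0_tail (G : NInst) (v : ℕ) : List ℕ :=
  ((List.range' v (G.n - v)).map G.record).flatten

private theorem st0_tail_succ (G : NInst) {v : ℕ} (hv : v < G.n) :
    st0_tail G v = G.lab v :: (G.ch v).length :: (G.ch v ++ st0_tail G (v + 1)) := by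
  unfold st0_tail
  have h1 : G.n - v = (G.n - (v + 1)) + 1 := by omega
  rw [h1, List.range'_succ, List.map_cons, List.flatten_cons]
  rfl

private theorem st0_tail_n (G : NInst) : st0_tail G G.n = [] := by
  unfold st0_tail
  rw [Nat.sub_self]
  rfl

/-- the state after the records of the vertices below `v` have been read -/
private structure St0 (G : NInst) (X : List ℕ) (s : St) (v : ℕ) : Prop where
  le : v ≤ G.n
  v2 : s.v 2 = v
  v0 : s.v 0 = G.n
  v1 : s.v 1 = G.k
  v22 : s.v 22 = G.fv.length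
  v13 : s.v 13 = G.off v
  inp : s.inp = st0_tail G v ++ X
  lab : ∀ u < v, s.a 0 u = G.lab u
  off : ∀ u < v, s.a 1 u = G.off u
  ch : ∀ u < v, ∀ i (hi : i < (G.ch u).length), s.a 2 (G.off u + i) = (G.ch u)[i]
  a17 : ∀ w, s.a 17 w = 0

private theorem st0_vertex (G : NInst) (X : List ℕ) {s : St} {b v : ℕ} (h : St0 G X s v)
    (hv : v < G.n) (hb : G.n + G.m + 2 ≤ b) :
    Sp b readVertex s (fun s' t => St0 G X s' (v + 1) ∧ t ≤ 16 * (G.ch v).length + 16) := by
  have hoff : G.off v + (G.ch v).length ≤ G.m := by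
    rw [← G.off_succ v]; exact G.off_le_m hv
  have hinp : s.inp = G.lab v :: (G.ch v).length :: (G.ch v ++ (st0_tail G (v + 1) ++ X)) := by
    rw [h.inp, st0_tail_succ G hv]; simp
  refine Sp.cons (Sp.read hinp (Sp.cons (Sp.put (by simp) (by simp) (Sp.cons (Sp.read
    (c := (G.ch v).length) (l := G.ch v ++ (st0_tail G (v + 1) ++ X)) rfl (Sp.cons
    (Sp.put (by simp) (by simp) (Sp.cons ?_))))))))
  set s1 : St := ((((((s.setv 15 (G.lab v)).seti ((G.ch v).length ::
    (G.ch v ++ (st0_tail G (v + 1) ++ X)))).seta 0 _ _).setv 14 (G.ch v).length).seti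
    (G.ch v ++ (st0_tail G (v + 1) ++ X))).seta 1 _ _) with hs1
  have e14 : s1.v 14 = (G.ch v).length := by simp [hs1]
  have e13 : s1.v 13 = G.off v := by
    simp [hs1, St.setv_v, h.v13]
  have e2 : s1.v 2 = v := by simp [hs1, St.setv_v, h.v2]
  have e0 : s1.v 0 = G.n := by simp [hs1, St.setv_v, h.v0]
  have e1 : s1.v 1 = G.k := by simp [hs1, St.setv_v, h.v1]
  have e22 : s1.v 22 = G.fv.length := by simp [hs1, St.setv_v, h.v22]
  have einp : s1.inp = G.ch v ++ (st0_tail G (v + 1) ++ X) := by simp [hs1]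
  have ea0 : s1.a 0 = Function.update (s.a 0) v (G.lab v) := by
    simp [hs1, St.setv_v, h.v2, St.seta_a]
  have ea1 : s1.a 1 = Function.update (s.a 1) v (G.off v) := by
    simp [hs1, St.setv_v, h.v2, h.v13, St.seta_a]
  have ea2 : s1.a 2 = s.a 2 := by
    simp [hs1, St.seta_a]
  have ea17 : s1.a 17 = s.a 17 := by
    simp [hs1, St.seta_a]
  clear_value s1
  refine Sp.mono_run (st0_inner (G.ch v) (st0_tail G (v + 1) ++ X) e14 einp (by omega)) ?_
  rintro s2 t2 hrun ⟨f1, f2, f3, f4, f5⟩
  have g0 : s2.v 0 = s1.v 0 := hrun.frame_v (by decide)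
  have g1 : s2.v 1 = s1.v 1 := hrun.frame_v (by decide)
  have g2 : s2.v 2 = s1.v 2 := hrun.frame_v (by decide)
  have g22 : s2.v 22 = s1.v 22 := hrun.frame_v (by decide)
  have ga0 : s2.a 0 = s1.a 0 := hrun.frame_a (by decide)
  have ga1 : s2.a 1 = s1.a 1 := hrun.frame_a (by decide)
  have ga17 : s2.a 17 = s1.a 17 := hrun.frame_a (by decide)
  refine Sp.cons (Sp.set (by simp; omega) (Sp.nil ⟨?_, ?_⟩))
  · refine ⟨hv, ?_, ?_, ?_, ?_, ?_, ?_, ?_, ?_, ?_, ?_⟩
    · simp [g2, e2]
    · rw [St.setv_v_ne _ (by decide), g0, e0]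
    · rw [St.setv_v_ne _ (by decide), g1, e1]
    · rw [St.setv_v_ne _ (by decide), g22, e22]
    · rw [St.setv_v_ne _ (by decide), f2, e13, G.off_succ]
    · rw [St.setv_inp, f1]
    · intro u hu
      rw [St.setv_a, ga0, ea0]
      by_cases huv : u = v
      · subst huv; rw [Function.update_self]
      · rw [Function.update_of_ne huv]; exact h.lab u (by omega)
    · intro u hu
      rw [St.setv_a, ga1, ea1]
      by_cases huv : u = v
      · subst huv; rw [Function.update_self]
      · rw [Function.update_of_ne huv]; exact h.off u (by omega)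
    · intro u hu i hi
      rw [St.setv_a]
      by_cases huv : u = v
      · subst huv
        have := f3 i hi
        rwa [e13] at this
      · have h1 : G.off u + (G.ch u).length ≤ G.off v := by
          rw [← G.off_succ u]; exact G.off_mono (by omega)
        rw [f4 _ (by omega), ea2]
        exact h.ch u (by omega) i hi
    · intro w
      rw [St.setv_a, ga17, ea17]
      exact h.a17 w
  · simp only [Ex.cost]
    omega

/-- the loop over the vertices -/
private theorem st0_vertices (G : NInst) (X : List ℕ) {s : St} {b : ℕ} (h : St0 G X s 0)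
    (hb : G.n + G.m + 2 ≤ b) :
    Sp b (loop (lt (var 2) (var 0)) readVertex) s (fun s' t => St0 G X s' G.n ∧
      t ≤ 19 * G.n + 16 * G.m + 3) := by
  have hloop := Sp.loop (b := b) (c := lt (var 2) (var 0)) (p := readVertex)
    (fun s1 => St0 G X s1 (s1.v 2)) (fun s1 => 19 * (G.n - s1.v 2) + 16 * (G.m - G.off (s1.v 2)))
    (fun _ _ => by simp) ?_ (s := s) ?_
  · refine Sp.mono hloop ?_
    rintro s' t ⟨hI, hc, ht⟩
    have h1 : ¬ s'.v 2 < s'.v 0 := by simpa using hc
    have h2 : s'.v 2 = G.n := by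
      have := hI.le; have := hI.v0; omega
    rw [h2] at hI ht
    refine ⟨hI, ?_⟩
    have h3 : s.v 2 = 0 := h.v2
    simp only [Cn.cost, Ex.cost, h3] at ht
    omega
  · intro s1 hI hc
    have h1 : s1.v 2 < G.n := by
      have h0 : s1.v 2 < s1.v 0 := by simpa using hc
      have := hI.v0
      omega
    refine Sp.mono (st0_vertex G X hI h1 hb) ?_
    rintro s2 t2 ⟨hI2, ht2⟩
    have h2 : s2.v 2 = s1.v 2 + 1 := hI2.v2
    rw [h2]
    refine ⟨hI2, ?_⟩
    have hoff : G.off (s1.v 2 + 1) = G.off (s1.v 2) + (G.ch (s1.v 2)).length := G.off_succ _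
    have hle : G.off (s1.v 2 + 1) ≤ G.m := G.off_le_m h1
    simp only [Cn.cost, Ex.cost]
    omega
  · show St0 G X s (s.v 2)
    rw [h.v2]; exact h

private def st0_pairs (G : NInst) (i : ℕ) : List ℕ :=
  ((List.range' i (G.k - i)).map fun i => [G.pu i, G.pv i]).flatten

private theorem st0_pairs_succ (G : NInst) {i : ℕ} (hi : i < G.k) :
    st0_pairs G i = G.pu i :: G.pv i :: st0_pairs G (i + 1) := by
  unfold st0_pairs
  have h1 : G.k - i = (G.k - (i + 1)) + 1 := by omega
  rw [h1, List.range'_succ, List.map_cons, List.flatten_cons]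
  rfl

private theorem st0_pairs_k (G : NInst) : st0_pairs G G.k = [] := by
  unfold st0_pairs
  rw [Nat.sub_self]
  rfl

private theorem st0_pairLoop (G : NInst) (X : List ℕ) {s : St} {b : ℕ} (h1 : s.v 1 = G.k)
    (h2 : s.v 2 = 0) (hinp : s.inp = st0_pairs G 0 ++ X) (hb : G.k + 1 ≤ b) :
    Sp b (loop (lt (var 2) (var 1)) (blk [
      read 15,
      put 3 (var 2) (var 15),
      read 15,
      put 4 (var 2) (var 15),
      set 2 (add (var 2) (const 1))])) s (fun s' t => s'.inp = X ∧
        (∀ i < G.k, s'.a 3 i = G.pu i) ∧ (∀ i < G.k, s'.a 4 i = G.pv i) ∧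
        t ≤ 16 * G.k + 3) := by
  let I : St → Prop := fun s1 => s1.v 1 = G.k ∧ s1.v 2 ≤ G.k ∧
    s1.inp = st0_pairs G (s1.v 2) ++ X ∧ (∀ i < s1.v 2, s1.a 3 i = G.pu i) ∧
    (∀ i < s1.v 2, s1.a 4 i = G.pv i)
  have hloop := Sp.loop (b := b) (c := lt (var 2) (var 1)) (p := blk [
      read 15,
      put 3 (var 2) (var 15),
      read 15,
      put 4 (var 2) (var 15),
      set 2 (add (var 2) (const 1))]) I (fun s1 => 16 * (G.k - s1.v 2)) (fun _ _ => by simp)
      ?_ (s := s) ?_
  · refine Sp.mono hloop ?_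
    rintro s' t ⟨⟨g1, g2, g3, g4, g5⟩, hc, ht⟩
    have h3 : ¬ s'.v 2 < s'.v 1 := by simpa using hc
    have h4 : s'.v 2 = G.k := by omega
    rw [h4] at g3 g4 g5
    refine ⟨by rw [g3, st0_pairs_k]; rfl, g4, g5, ?_⟩
    simp only [Cn.cost, Ex.cost, h2, h4] at ht
    omega
  · rintro s1 ⟨g1, g2, g3, g4, g5⟩ hc
    have h3 : s1.v 2 < G.k := by
      have : s1.v 2 < s1.v 1 := by simpa using hc
      omega
    have hd : s1.inp = G.pu (s1.v 2) :: G.pv (s1.v 2) :: (st0_pairs G (s1.v 2 + 1) ++ X) := by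
      rw [g3, st0_pairs_succ G h3]; rfl
    refine Sp.cons (Sp.read hd (Sp.cons (Sp.put (by simp) (by simp) (Sp.cons (Sp.read
      (c := G.pv (s1.v 2)) (l := st0_pairs G (s1.v 2 + 1) ++ X) rfl (Sp.cons
      (Sp.put (by simp) (by simp) (Sp.cons (Sp.set ?_ (Sp.nil ?_))))))))))
    · simp [St.setv_v]; omega
    · refine ⟨⟨?_, ?_, ?_, ?_, ?_⟩, ?_⟩
      · simp [St.setv_v, g1]
      · simp [St.setv_v]; omega
      · simp [St.setv_v]
      · intro i hi
        have hi' : i < s1.v 2 + 1 := by simpa [St.setv_v] using hi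
        simp only [St.setv_a, St.seta_a, Ex.eval, St.seti_v, St.seti_a, St.setv_v, St.seta_v]
        by_cases hie : i = s1.v 2
        · subst hie; simp
        · simp [hie, g4 i (by omega)]
      · intro i hi
        have hi' : i < s1.v 2 + 1 := by simpa [St.setv_v] using hi
        simp only [St.setv_a, St.seta_a, Ex.eval, St.seti_v, St.seti_a, St.setv_v, St.seta_v]
        by_cases hie : i = s1.v 2
        · subst hie; simp
        · simp [hie, g5 i (by omega)]
      · simp [St.setv_v]; omega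
  · refine ⟨h1, by omega, by rw [h2]; exact hinp, ?_, ?_⟩
    · intro i hi; omega
    · intro i hi; omega

private theorem st0_markLoop (G : NInst) {s : St} {b : ℕ} (h22 : s.v 22 = G.fv.length)
    (h2 : s.v 2 = 0) (hinp : s.inp = G.fv) (h17 : ∀ w, s.a 17 w = 0)
    (hb : G.fv.length + 1 ≤ b) :
    Sp b (loop (lt (var 2) (var 22)) (blk [
      read 15,
      put 17 (var 15) (const 1),
      set 2 (add (var 2) (const 1))])) s (fun s' t =>
        (∀ w, s'.a 17 w = if w ∈ G.fv then 1 else 0) ∧ t ≤ 12 * G.fv.length + 3) := by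
  let I : St → Prop := fun s1 => s1.v 22 = G.fv.length ∧ s1.v 2 ≤ G.fv.length ∧
    s1.inp = G.fv.drop (s1.v 2) ∧ (∀ w, s1.a 17 w = if w ∈ G.fv.take (s1.v 2) then 1 else 0)
  have hloop := Sp.loop (b := b) (c := lt (var 2) (var 22)) (p := blk [
      read 15,
      put 17 (var 15) (const 1),
      set 2 (add (var 2) (const 1))]) I (fun s1 => 12 * (G.fv.length - s1.v 2))
      (fun _ _ => by simp) ?_ (s := s) ?_
  · refine Sp.mono hloop ?_
    rintro s' t ⟨⟨g1, g2, g3, g4⟩, hc, ht⟩
    have h3 : ¬ s'.v 2 < s'.v 22 := by simpa using hc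
    have h4 : s'.v 2 = G.fv.length := by omega
    rw [h4, List.take_length] at g4
    refine ⟨g4, ?_⟩
    simp only [Cn.cost, Ex.cost, h2, h4] at ht
    omega
  · rintro s1 ⟨g1, g2, g3, g4⟩ hc
    have h3 : s1.v 2 < G.fv.length := by
      have : s1.v 2 < s1.v 22 := by simpa using hc
      omega
    have hd : s1.inp = G.fv[s1.v 2] :: G.fv.drop (s1.v 2 + 1) := by
      rw [g3, List.drop_eq_getElem_cons h3]
    refine Sp.cons (Sp.read hd (Sp.cons (Sp.put (by simp) (by simp; omega) (Sp.cons (Sp.set ?_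
      (Sp.nil ?_))))))
    · simp [St.setv_v]; omega
    · refine ⟨⟨?_, ?_, ?_, ?_⟩, ?_⟩
      · simp [St.setv_v, g1]
      · simp [St.setv_v]; omega
      · simp [St.setv_v]
      · intro w
        have e2 : (((((s1.setv 15 G.fv[s1.v 2]).seti (G.fv.drop (s1.v 2 + 1))).seta 17
          ((var 15).eval ((s1.setv 15 G.fv[s1.v 2]).seti (G.fv.drop (s1.v 2 + 1))))
          ((const 1).eval ((s1.setv 15 G.fv[s1.v 2]).seti (G.fv.drop (s1.v 2 + 1))))).setv 2
          ((add (var 2) (const 1)).eval (((s1.setv 15 G.fv[s1.v 2]).seti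
          (G.fv.drop (s1.v 2 + 1))).seta 17
          ((var 15).eval ((s1.setv 15 G.fv[s1.v 2]).seti (G.fv.drop (s1.v 2 + 1))))
          ((const 1).eval ((s1.setv 15 G.fv[s1.v 2]).seti (G.fv.drop (s1.v 2 + 1))))))).v 2) =
            s1.v 2 + 1 := by
          simp [St.setv_v]
        rw [e2]
        simp only [St.setv_a, St.seta_a_self, Ex.eval, St.seti_v, St.seti_a, St.setv_v_self]
        rw [List.take_succ_eq_append_getElem h3, Function.update_apply]
        by_cases hw : w = G.fv[s1.v 2]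
        · rw [if_pos hw, if_pos]
          rw [List.mem_append]; right; simp [hw]
        · rw [if_neg hw, g4 w]
          congr 1
          rw [List.mem_append]
          simp [hw]
      · simp [St.setv_v]; omega
  · refine ⟨h22, by omega, by rw [h2, hinp]; rfl, fun w => ?_⟩
    rw [h17 w, h2]; simp

/-- File `Stage0.lean`. -/
theorem stage0_spec (G : NInst) {s : St} {b : ℕ} (hin : s.inp = G.code)
    (h17 : ∀ w, s.a 17 w = 0) (hb : G.n + G.m + G.k + G.fv.length + 2 ≤ b) :
    Sp b stage0 s (fun s' t => G.Inp s' ∧ G.Mark s' ∧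
      t ≤ 100 * (1 + G.n + G.m + G.k + G.fv.length)) := by
  have hcode : s.inp = G.n :: G.k :: G.fv.length :: (st0_tail G 0 ++ (st0_pairs G 0 ++ G.fv)) := by
    rw [hin]
    unfold NInst.code st0_tail st0_pairs
    rw [Nat.sub_zero, Nat.sub_zero, List.range_eq_range', List.range_eq_range']
  refine Sp.cons (Sp.read hcode (Sp.cons (Sp.read (c := G.k)
    (l := G.fv.length :: (st0_tail G 0 ++ (st0_pairs G 0 ++ G.fv))) rfl (Sp.cons (Sp.read
    (c := G.fv.length) (l := st0_tail G 0 ++ (st0_pairs G 0 ++ G.fv)) rfl (Sp.cons (Sp.set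
    (by simp) (Sp.cons (Sp.set (by simp) (Sp.cons ?_))))))))))
  refine Sp.mono_run (st0_vertices G (st0_pairs G 0 ++ G.fv) (b := b) ?_ (by omega)) ?_
  · refine ⟨Nat.zero_le _, ?_, ?_, ?_, ?_, ?_, ?_, ?_, ?_, ?_, ?_⟩
    · simp [St.setv_v]
    · simp [St.setv_v]
    · simp [St.setv_v]
    · simp [St.setv_v]
    · simp [G.off_zero]
    · simp
    · intro u hu; omega
    · intro u hu; omega
    · intro u hu; omega
    · intro w; simpa using h17 w
  · rintro s1 t1 _ ⟨hI, ht1⟩
    refine Sp.cons (Sp.put (by simp) (by simp) (Sp.cons (Sp.set (by simp) (Sp.cons ?_))))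
    set s2 : St := (s1.seta 1 ((var 0).eval s1) ((var 13).eval s1)).setv 2
      ((const 0).eval (s1.seta 1 ((var 0).eval s1) ((var 13).eval s1))) with hs2
    have e1 : s2.v 1 = G.k := by simp [hs2, St.setv_v, hI.v1]
    have e0 : s2.v 0 = G.n := by simp [hs2, St.setv_v, hI.v0]
    have e22 : s2.v 22 = G.fv.length := by simp [hs2, St.setv_v, hI.v22]
    have e2 : s2.v 2 = 0 := by simp [hs2]
    have einp : s2.inp = st0_pairs G 0 ++ G.fv := by
      rw [hs2, St.setv_inp, St.seta_inp, hI.inp, st0_tail_n]; rfl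
    have ea0 : s2.a 0 = s1.a 0 := by simp [hs2, St.seta_a]
    have ea1 : s2.a 1 = Function.update (s1.a 1) G.n (G.off G.n) := by
      simp [hs2, hI.v0, hI.v13]
    have ea2 : s2.a 2 = s1.a 2 := by simp [hs2, St.seta_a]
    have ea17 : s2.a 17 = s1.a 17 := by simp [hs2, St.seta_a]
    clear_value s2
    refine Sp.mono_run (st0_pairLoop G G.fv e1 e2 einp (by omega)) ?_
    rintro s3 t3 hrun3 ⟨f1, f2, f3, f4⟩
    have g0 : s3.v 0 = s2.v 0 := hrun3.frame_v (by decide)
    have g1 : s3.v 1 = s2.v 1 := hrun3.frame_v (by decide)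
    have g22 : s3.v 22 = s2.v 22 := hrun3.frame_v (by decide)
    have ga0 : s3.a 0 = s2.a 0 := hrun3.frame_a (by decide)
    have ga1 : s3.a 1 = s2.a 1 := hrun3.frame_a (by decide)
    have ga2 : s3.a 2 = s2.a 2 := hrun3.frame_a (by decide)
    have ga17 : s3.a 17 = s2.a 17 := hrun3.frame_a (by decide)
    refine Sp.cons (Sp.set (by simp) (Sp.cons ?_))
    refine Sp.mono_run (st0_markLoop G (b := b) ?_ ?_ ?_ ?_ (by omega)) ?_
    · rw [St.setv_v_ne _ (by decide), g22, e22]
    · simp
    · rw [St.setv_inp, f1]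
    · intro w
      rw [St.setv_a, ga17, ea17]
      exact hI.a17 w
    · rintro s4 t4 hrun4 ⟨k1, k2⟩
      have m0 := hrun4.frame_v (x := 0) (by decide)
      have m1 := hrun4.frame_v (x := 1) (by decide)
      have ma0 := hrun4.frame_a (A := 0) (by decide)
      have ma1 := hrun4.frame_a (A := 1) (by decide)
      have ma2 := hrun4.frame_a (A := 2) (by decide)
      have ma3 := hrun4.frame_a (A := 3) (by decide)
      have ma4 := hrun4.frame_a (A := 4) (by decide)
      rw [St.setv_v_ne _ (by decide)] at m0 m1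
      rw [St.setv_a] at ma0 ma1 ma2 ma3 ma4
      refine Sp.nil ⟨⟨?_, ?_, ?_, ?_, ?_, ?_, ?_⟩, fun w _ => k1 w, ?_⟩
      · rw [m0, g0, e0]
      · rw [m1, g1, e1]
      · intro v hv
        rw [ma0, ga0, ea0]; exact hI.lab v hv
      · intro v hv
        rw [ma1, ga1, ea1]
        by_cases hvn : v = G.n
        · subst hvn; rw [Function.update_self]
        · rw [Function.update_of_ne hvn]; exact hI.off v (by omega)
      · intro v hv i hi
        rw [ma2, ga2, ea2]; exact hI.ch v hv i hi
      · intro i hi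
        rw [ma3]; exact f2 i hi
      · intro i hi
        rw [ma4]; exact f3 i hi
      · simp only [Ex.cost]
        omega

end Pool.Agent.CCL
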