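import Pool.Agent.CCL.Defs
import Pool.Agent.CCL.Flat

/-! Statements to prove, one file each; this file is only the contract and is never imported.
(Second version: given list F, reading and writing, compilation to the machine of
`Flat.lean`.) -/

namespace Pool.Agent.CCL

/-- File `Stage0.lean`. -/
theorem stage0_spec (G : NInst) {s : St} {b : ℕ} (hin : s.inp = G.code)
    (h17 : ∀ w, s.a 17 w = 0) (hb : G.n + G.m + G.k + G.fv.length + 2 ≤ b) :
    Sp b stage0 s (fun s' t => G.Inp s' ∧ G.Mark s' ∧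
      t ≤ 100 * (1 + G.n + G.m + G.k + G.fv.length)) := by
  sorry

/-- File `StageA.lean`. -/
theorem stageA_spec (G : NInst) {s : St} {b : ℕ} (hI : G.Inp s) (hM : G.Mark s)
    (hcol : ∀ v, s.a 6 v = 0) (hb : G.n + G.m + 2 ≤ b) :
    Sp b stageA s (fun s' t => OrdOK G (s'.a 9) (s'.a 10) ∧ t ≤ 200 * (1 + G.n + G.m)) := by
  sorry

/-- File `StageBF.lean` (stageB_spec unchanged). -/
theorem stageF_spec (G : NInst) {s : St} {b : ℕ} (hI : G.Inp s)
    (hpos : ∀ v < G.n, s.a 9 v < G.n) (hb : G.n + G.n + 2 ≤ b) :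
    Sp b stageF s (fun s' t =>
      s'.out = s.out ++ (List.range G.n).map (fun v => s.a 12 (G.n + s.a 9 v)) ∧
      t ≤ 100 * (1 + G.n)) := by
  sorry

/-- File `Link.lean` (`link` unchanged). -/
theorem npar_heads (G : NInst) {pos ord : ℕ → ℕ} (h : OrdOK G pos ord) (A : ℕ → ℕ)
    (hA : ∀ e x, dec (A e) = some x ↔ Head G pos e x) :
    npar G.n A ≤ G.fv.length + G.cyc := by
  sorry

/-- File `ToN.lean`: an instance as an instance on natural numbers. -/
theorem exists_ninst (G : Inst) (F : List (Fin G.n)) : ∃ H : NInst, H.n = G.n ∧ H.k = G.k ∧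
    H.m = G.m ∧ H.fv.length = F.length ∧ H.cyc = G.cyc F ∧ (∀ v < H.n, H.lab v ≤ G.top) ∧
    H.code = G.code F ∧ (∀ u v : Fin G.n, H.Cl u v ↔ G.closure u v) := by
  sorry

/-- File `Compile.lean`: every program of the structured language can be simulated by the
machine of `Flat.lean` in time larger by a constant factor. -/
theorem simulate (p : Prog) (hp : p.wf = true) : ∃ (P : List Instr) (c : ℕ),
    ∀ (b : ℕ) (l : List ℕ) (s' : St) (t : ℕ), (∀ x ∈ l, x ≤ b) →
      Run b p ⟨fun _ => 0, fun _ _ => 0, l, []⟩ s' t →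
      ∃ t' : ℕ, Computes (c * (b + 1)) P l s'.out t' ∧ t' ≤ c * t := by
  sorry

end Pool.Agent.CCL
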