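import Pool.Agent.CCL.Defs

/-! The trie in the memory: blocks of width `B`; the cell `x` of a block is the value of the
node `x`, and the cell `x + 1 + s` points to the child of `x` along the symbol `s`. -/

namespace Pool.Agent.CCL

/-- Follow a word. -/
def fol (τ : ℕ → ℕ) : ℕ → List ℕ → Option ℕ
  | x, [] => some x
  | x, s :: l => if τ (x + 1 + s) = 0 then none else fol τ (τ (x + 1 + s)) l

theorem fol_append (τ : ℕ → ℕ) (x : ℕ) (l l' : List ℕ) :
    fol τ x (l ++ l') = (fol τ x l).bind (fun y => fol τ y l') := by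
  induction l generalizing x with
  | nil => simp [fol]
  | cons s l ih =>
    simp only [List.cons_append, fol]
    split
    · simp
    · exact ih _

theorem fol_snoc {τ : ℕ → ℕ} {x z s : ℕ} {l : List ℕ} :
    fol τ x (l ++ [s]) = some z ↔ ∃ y, fol τ x l = some y ∧ τ (y + 1 + s) = z ∧ z ≠ 0 := by
  rw [fol_append]
  constructor
  · intro h
    obtain ⟨y, hy, h2⟩ := Option.bind_eq_some_iff.mp h
    refine ⟨y, hy, ?_⟩
    simp only [fol] at h2
    split at h2
    · simp at h2
    · rename_i h3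
      simp only [Option.some.injEq] at h2
      exact ⟨h2, h2 ▸ h3⟩
  · rintro ⟨y, hy, h2, h3⟩
    rw [hy]
    simp only [Option.bind_some, fol]
    rw [h2, if_neg h3]

theorem fol_mono {τ τ' : ℕ → ℕ} (h : ∀ a, τ a ≠ 0 → τ' a = τ a) {x z : ℕ} {l : List ℕ}
    (hf : fol τ x l = some z) : fol τ' x l = some z := by
  induction l generalizing x with
  | nil => exact hf
  | cons s l ih =>
    simp only [fol] at hf ⊢
    split at hf
    · simp at hf
    · rename_i h1
      rw [h _ h1, if_neg h1]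
      exact ih hf

/-- The trie invariant. -/
structure TI (B : ℕ) (τ : ℕ → ℕ) (f : ℕ) : Prop where
  zero : ∀ a, f ≤ a → τ a = 0
  dvd : B ∣ f
  le : B ≤ f
  ptr : ∀ b s, B ∣ b → s + 1 < B → b < f →
    τ (b + 1 + s) = 0 ∨ (B ∣ τ (b + 1 + s) ∧ τ (b + 1 + s) < f)
  inj : ∀ b s b' s', B ∣ b → s + 1 < B → B ∣ b' → s' + 1 < B →
    τ (b + 1 + s) = τ (b' + 1 + s') → τ (b + 1 + s) ≠ 0 → b = b' ∧ s = s'

theorem cell_inj {B b s b' s' : ℕ} (hb : B ∣ b) (hs : s + 1 < B) (hb' : B ∣ b')
    (hs' : s' + 1 < B) (h : b + 1 + s = b' + 1 + s') : b = b' ∧ s = s' := by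
  obtain ⟨c, rfl⟩ := hb
  obtain ⟨c', rfl⟩ := hb'
  have h1 : c = c' := by
    rcases lt_trichotomy c c' with h2 | h2 | h2
    · have : B * (c + 1) ≤ B * c' := Nat.mul_le_mul_left B h2
      rw [mul_add, mul_one] at this
      omega
    · exact h2
    · have : B * (c' + 1) ≤ B * c := Nat.mul_le_mul_left B h2
      rw [mul_add, mul_one] at this
      omega
  subst h1
  exact ⟨rfl, by omega⟩

theorem cell_ne {B b s x : ℕ} (hb : B ∣ b) (hs : s + 1 < B) (hx : B ∣ x) : b + 1 + s ≠ x := by
  obtain ⟨c, rfl⟩ := hb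
  obtain ⟨c', rfl⟩ := hx
  intro h
  rcases lt_or_ge c c' with h2 | h2
  · have : B * (c + 1) ≤ B * c' := Nat.mul_le_mul_left B h2
    rw [mul_add, mul_one] at this
    omega
  · have : B * c' ≤ B * c := Nat.mul_le_mul_left B h2
    omega

/-- A node below the end of the memory in use has its whole block below that end. -/
theorem block_le {B x f : ℕ} (hx : B ∣ x) (hf : B ∣ f) (hxf : x < f) : x + B ≤ f := by
  obtain ⟨c, rfl⟩ := hx
  obtain ⟨c', rfl⟩ := hf
  have h1 : c < c' := lt_of_mul_lt_mul_left hxf (Nat.zero_le B)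
  calc B * c + B = B * (c + 1) := by ring
    _ ≤ B * c' := Nat.mul_le_mul_left B h1

namespace TI

variable {B f : ℕ} {τ : ℕ → ℕ}

theorem fol_node (h : TI B τ f) {x z : ℕ} {l : List ℕ} (hx : B ∣ x) (hxf : x < f)
    (hl : ∀ s ∈ l, s + 1 < B) (hf : fol τ x l = some z) : B ∣ z ∧ z < f := by
  induction l generalizing x with
  | nil => simp only [fol, Option.some.injEq] at hf; subst hf; exact ⟨hx, hxf⟩
  | cons s l ih =>
    simp only [fol] at hf
    split at hf
    · simp at hf
    · rename_i h1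
      rcases h.ptr x s hx (hl s (by simp)) hxf with h2 | ⟨h2, h3⟩
      · exact absurd h2 h1
      · exact ih h2 h3 (fun s hs => hl s (by simp [hs])) hf

theorem fol_inj (h : TI B τ f) {z : ℕ} {l l' : List ℕ} (hB : 0 < B)
    (hl : ∀ s ∈ l, s + 1 < B) (hl' : ∀ s ∈ l', s + 1 < B) (hf : fol τ 0 l = some z)
    (hf' : fol τ 0 l' = some z) : l = l' := by
  have h0f : 0 < f := lt_of_lt_of_le hB h.le
  induction l using List.reverseRecOn generalizing l' z with
  | nil =>
    simp only [fol, Option.some.injEq] at hf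
    subst hf
    rcases List.eq_nil_or_concat l' with rfl | ⟨l'', s, rfl⟩
    · rfl
    · rw [List.concat_eq_append] at hf'
      obtain ⟨y, -, -, h3⟩ := fol_snoc.mp hf'
      exact absurd rfl h3
  | append_singleton l s ih =>
    obtain ⟨y, hy, h2, h3⟩ := fol_snoc.mp hf
    rcases List.eq_nil_or_concat l' with rfl | ⟨l'', s', rfl⟩
    · simp only [fol, Option.some.injEq] at hf'
      exact absurd hf'.symm h3
    · rw [List.concat_eq_append] at hf' hl' ⊢
      obtain ⟨y', hy', h2', h3'⟩ := fol_snoc.mp hf'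
      have hyn := h.fol_node (dvd_zero B) h0f (fun s hs => hl s (by simp [hs])) hy
      have hyn' := h.fol_node (dvd_zero B) h0f (fun s hs => hl' s (by simp [hs])) hy'
      obtain ⟨e1, e2⟩ := h.inj y s y' s' hyn.1 (hl s (by simp)) hyn'.1 (hl' s' (by simp))
        (by rw [h2, h2']) (by rw [h2]; exact h3)
      subst e1 e2
      rw [ih (fun s hs => hl s (by simp [hs])) (fun s hs => hl' s (by simp [hs])) hy hy']

/-- A new node. -/
theorem new (h : TI B τ f) {x s : ℕ} (hx : B ∣ x) (hxf : x < f) (hs : s + 1 < B) :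
    TI B (Function.update τ (x + 1 + s) f) (f + B) := by
  have hblk := block_le hx h.dvd hxf
  have hf0 : f ≠ 0 := by omega
  refine ⟨fun a ha => ?_, dvd_add h.dvd dvd_rfl, by omega, fun b s' hb hs' hbf => ?_,
    fun b s1 b' s2 hb hs1 hb' hs2 he hne => ?_⟩
  · rw [Function.update_of_ne (by omega)]; exact h.zero a (by omega)
  · by_cases hc : b + 1 + s' = x + 1 + s
    · rw [hc, Function.update_self]
      right; exact ⟨h.dvd, by omega⟩
    · rw [Function.update_of_ne hc]
      rcases lt_or_ge b f with hb2 | hb2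
      · rcases h.ptr b s' hb hs' hb2 with h2 | ⟨h2, h3⟩
        · left; exact h2
        · right; exact ⟨h2, by omega⟩
      · left; exact h.zero _ (by omega)
  · have key : ∀ b s1, B ∣ b → s1 + 1 < B → b + 1 + s1 ≠ x + 1 + s → τ (b + 1 + s1) ≠ f := by
      intro b s1 hb hs1 _
      rcases lt_or_ge b f with hb2 | hb2
      · rcases h.ptr b s1 hb hs1 hb2 with h2 | ⟨h2, h3⟩
        · omega
        · omega
      · rw [h.zero _ (by omega)]; omega
    by_cases hc : b + 1 + s1 = x + 1 + s <;> by_cases hc' : b' + 1 + s2 = x + 1 + s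
    · exact cell_inj hb hs1 hb' hs2 (hc.trans hc'.symm)
    · rw [hc, Function.update_self, Function.update_of_ne hc'] at he
      exact absurd he.symm (key b' s2 hb' hs2 hc')
    · rw [hc', Function.update_self, Function.update_of_ne hc] at he
      exact absurd he (key b s1 hb hs1 hc)
    · rw [Function.update_of_ne hc, Function.update_of_ne hc'] at he
      rw [Function.update_of_ne hc] at hne
      exact h.inj b s1 b' s2 hb hs1 hb' hs2 he hne

/-- Writing a value cell. -/
theorem val (h : TI B τ f) {x : ℕ} (hx : B ∣ x) (hxf : x < f) (w : ℕ) :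
    TI B (Function.update τ x w) f := by
  have key : ∀ b s, B ∣ b → s + 1 < B → Function.update τ x w (b + 1 + s) = τ (b + 1 + s) :=
    fun b s hb hs => Function.update_of_ne (cell_ne hb hs hx) _ _
  refine ⟨fun a ha => ?_, h.dvd, h.le, fun b s hb hs hbf => ?_,
    fun b s1 b' s2 hb hs1 hb' hs2 he hne => ?_⟩
  · rw [Function.update_of_ne (by omega)]; exact h.zero a ha
  · rw [key b s hb hs]; exact h.ptr b s hb hs hbf
  · rw [key b s1 hb hs1, key b' s2 hb' hs2] at he
    rw [key b s1 hb hs1] at hne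
    exact h.inj b s1 b' s2 hb hs1 hb' hs2 he hne

theorem init (hB : 0 < B) : TI B (fun _ => 0) B :=
  ⟨fun _ _ => rfl, dvd_rfl, le_rfl, fun _ _ _ _ _ => Or.inl rfl,
    fun _ _ _ _ _ _ _ _ _ h => absurd rfl h⟩

end TI

/-! ### Undoing -/

/-- The memory `τ` with the cells in `A` cleared. -/
noncomputable def zo (τ : ℕ → ℕ) (A : Set ℕ) : ℕ → ℕ := by
  classical exact fun a => if a ∈ A then 0 else τ a

theorem zo_mem {τ : ℕ → ℕ} {A : Set ℕ} {a : ℕ} (h : a ∈ A) : zo τ A a = 0 := by
  simp [zo, h]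

theorem zo_not_mem {τ : ℕ → ℕ} {A : Set ℕ} {a : ℕ} (h : a ∉ A) : zo τ A a = τ a := by
  simp [zo, h]

theorem zo_zo (τ : ℕ → ℕ) (A A' : Set ℕ) : zo (zo τ A) A' = zo τ (A ∪ A') := by
  funext a
  by_cases h : a ∈ A' <;> by_cases h' : a ∈ A <;> simp [zo, h, h']

/-- The cells recorded in the stack `st` between two heights. -/
def seg (st : ℕ → ℕ) (h h' : ℕ) : Set ℕ := {a | ∃ i, h ≤ i ∧ i < h' ∧ st i = a}

theorem seg_self (st : ℕ → ℕ) (h : ℕ) : seg st h h = ∅ := by
  ext a
  simp only [seg, Set.mem_setOf_eq, Set.mem_empty_iff_false, iff_false, not_exists, not_and]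
  intro i h1 h2
  omega

theorem seg_union {st : ℕ → ℕ} {h h' h'' : ℕ} (h1 : h ≤ h') (h2 : h' ≤ h'') :
    seg st h h' ∪ seg st h' h'' = seg st h h'' := by
  ext a
  constructor
  · rintro (⟨i, h3, h4, h5⟩ | ⟨i, h3, h4, h5⟩)
    · exact ⟨i, h3, by omega, h5⟩
    · exact ⟨i, by omega, h4, h5⟩
  · rintro ⟨i, h3, h4, h5⟩
    rcases lt_or_ge i h' with h6 | h6
    · left; exact ⟨i, h3, h6, h5⟩
    · right; exact ⟨i, h6, h4, h5⟩

theorem seg_congr {st st' : ℕ → ℕ} {h h' : ℕ} (hst : ∀ i < h', st i = st' i) :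
    seg st h h' = seg st' h h' := by
  ext a
  constructor
  · rintro ⟨i, h3, h4, h5⟩; exact ⟨i, h3, h4, by rw [← hst i h4]; exact h5⟩
  · rintro ⟨i, h3, h4, h5⟩; exact ⟨i, h3, h4, by rw [hst i h4]; exact h5⟩

theorem zo_empty (τ : ℕ → ℕ) : zo τ ∅ = τ := by funext a; simp [zo]

/-! ### A walk -/

/-- `(τ', f', h')` arises from `(τ, f, h)` by creating nodes, recorded on the stack `st`. -/
structure Grow (B : ℕ) (τ : ℕ → ℕ) (f h : ℕ) (τ' : ℕ → ℕ) (f' : ℕ) (st : ℕ → ℕ) (h' : ℕ) :
    Prop where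
  ti : TI B τ' f'
  mono : ∀ a, τ a ≠ 0 → τ' a = τ a
  val : ∀ a, B ∣ a → τ' a = τ a
  hf : f ≤ f'
  hh : h ≤ h'
  undo : zo τ' (seg st h h') = τ

namespace Grow

variable {B f h f' h' : ℕ} {τ τ' st : ℕ → ℕ}

theorem rfl' (hT : TI B τ f) (st : ℕ → ℕ) : Grow B τ f h τ f st h where
  ti := hT
  mono _ _ := rfl
  val _ _ := rfl
  hf := le_rfl
  hh := le_rfl
  undo := by rw [seg_self, zo_empty]

theorem step (g : Grow B τ f h τ' f' st h') {x s : ℕ} (hx : B ∣ x) (hxf : x < f')
    (hs : s + 1 < B) (h0 : τ' (x + 1 + s) = 0) :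
    Grow B τ f h (Function.update τ' (x + 1 + s) f') (f' + B)
      (Function.update st h' (x + 1 + s)) (h' + 1) where
  ti := g.ti.new hx hxf hs
  mono a ha := by
    have h1 := g.mono a ha
    rw [Function.update_of_ne, h1]
    rintro rfl
    rw [h1] at h0; exact ha h0
  val a ha := by
    rw [Function.update_of_ne (cell_ne hx hs ha).symm]; exact g.val a ha
  hf := le_trans g.hf (Nat.le_add_right _ _)
  hh := le_trans g.hh (Nat.le_succ _)
  undo := by
    have hseg : seg (Function.update st h' (x + 1 + s)) h h' = seg st h h' :=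
      seg_congr fun i hi => Function.update_of_ne (by omega) _ _
    have hτ : τ (x + 1 + s) = 0 := by
      by_contra hne
      exact hne (by rw [← g.mono _ hne]; exact h0)
    funext a
    by_cases ha : a = x + 1 + s
    · subst ha
      rw [zo_mem (by exact ⟨h', g.hh, by omega, by simp⟩), hτ]
    · by_cases hm : a ∈ seg st h h'
      · rw [zo_mem]
        · rw [← congrFun g.undo a, zo_mem hm]
        · rw [← hseg] at hm
          obtain ⟨i, h1, h2, h3⟩ := hm
          exact ⟨i, h1, by omega, h3⟩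
      · rw [zo_not_mem, Function.update_of_ne ha, ← congrFun g.undo a, zo_not_mem hm]
        rintro ⟨i, h1, h2, h3⟩
        rcases Nat.lt_succ_iff_lt_or_eq.mp h2 with h4 | rfl
        · exact hm ⟨i, h1, h4, by rw [Function.update_of_ne (by omega)] at h3; exact h3⟩
        · rw [Function.update_self] at h3; exact ha h3.symm

/-- Recording a first write to a value cell. -/
theorem put (g : Grow B τ f h τ' f' st h') {x w : ℕ} (hx : B ∣ x) (h0 : τ' x = 0) :
    zo (Function.update τ' x w) (seg (Function.update st h' x) h (h' + 1)) = τ := by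
  have hseg : seg (Function.update st h' x) h h' = seg st h h' :=
    seg_congr fun i hi => Function.update_of_ne (by omega) _ _
  have hτ : τ x = 0 := by rw [← g.val x hx]; exact h0
  have hh := g.hh
  funext a
  by_cases ha : a = x
  · subst ha
    rw [zo_mem (by exact ⟨h', g.hh, by omega, by simp⟩), hτ]
  · by_cases hm : a ∈ seg st h h'
    · rw [zo_mem]
      · rw [← congrFun g.undo a, zo_mem hm]
      · rw [← hseg] at hm
        obtain ⟨i, h1, h2, h3⟩ := hm
        exact ⟨i, h1, by omega, h3⟩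
    · rw [zo_not_mem, Function.update_of_ne ha, ← congrFun g.undo a, zo_not_mem hm]
      rintro ⟨i, h1, h2, h3⟩
      rcases Nat.lt_succ_iff_lt_or_eq.mp h2 with h4 | rfl
      · exact hm ⟨i, h1, h4, by rw [Function.update_of_ne (by omega)] at h3; exact h3⟩
      · rw [Function.update_self] at h3; exact ha h3.symm

end Grow

/-! ### The table -/

/-- The trie `τ` holds the names of the vertices below `v`, and nothing else. -/
structure TabOK (S : Sys) (B : ℕ) (nm : ℕ → ℕ) (v : ℕ) (τ : ℕ → ℕ) (f : ℕ) : Prop where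
  ti : TI B τ f
  find : ∀ s < v, S.V s → ∃ x, fol τ 0 (S.sig nm s) = some x ∧ τ x = nm s + 1
  only : ∀ x, B ∣ x → x < f → τ x ≠ 0 → ∃ s < v, S.V s ∧ fol τ 0 (S.sig nm s) = some x

theorem TabOK.congr {S : Sys} {B : ℕ} {nm nm' : ℕ → ℕ} {v : ℕ} {τ : ℕ → ℕ} {f : ℕ}
    (h : TabOK S B nm v τ f) (hn : ∀ u < v, nm u = nm' u) : TabOK S B nm' v τ f := by
  have hs : ∀ s < v, S.sig nm s = S.sig nm' s := fun s hs =>
    Sys.sig_congr fun u hu => hn u (by omega)
  refine ⟨h.ti, fun s hs' hVs => ?_, fun x h1 h2 h3 => ?_⟩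
  · rw [← hs s hs', ← hn s hs']; exact h.find s hs' hVs
  · obtain ⟨s, h4, h5, h6⟩ := h.only x h1 h2 h3
    exact ⟨s, h4, h5, by rw [← hs s h4]; exact h6⟩

/-- All symbols of the signatures below `v` are small. -/
def Small (S : Sys) (B : ℕ) (nm : ℕ → ℕ) (v : ℕ) : Prop :=
  ∀ s < v, S.V s → ∀ c ∈ S.sig nm s, c + 1 < B

section Lookup

variable {S : Sys} {B : ℕ} {nm : ℕ → ℕ} {t : ℕ} {τ τ' st : ℕ → ℕ} {f f' h h' x : ℕ}

/-- A nonzero value at the end of the walk is the name of a vertex with the same signature. -/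
theorem lookup_old (hB : 0 < B) (hT : TabOK S B nm t τ f) (hg : Grow B τ f h τ' f' st h')
    (hsm : Small S B nm (t + 1)) (hVt : S.V t) (hx : fol τ' 0 (S.sig nm t) = some x)
    (hne : τ' x ≠ 0) : ∃ s < t, S.V s ∧ S.sig nm s = S.sig nm t ∧ τ' x = nm s + 1 := by
  have hf0 : 0 < f' := lt_of_lt_of_le hB hg.ti.le
  obtain ⟨hxB, hxf⟩ := hg.ti.fol_node (dvd_zero B) hf0 (hsm t (by omega) hVt) hx
  have hτx : τ x ≠ 0 := by rw [← hg.val x hxB]; exact hne
  have hxf2 : x < f := by
    by_contra hge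
    exact hτx (hT.ti.zero x (by omega))
  obtain ⟨s, hs, hVs, hfs⟩ := hT.only x hxB hxf2 hτx
  have hfs' := fol_mono hg.mono hfs
  have hsig : S.sig nm s = S.sig nm t :=
    hg.ti.fol_inj hB (hsm s (by omega) hVs) (hsm t (by omega) hVt) hfs' hx
  obtain ⟨y, hy, hy2⟩ := hT.find s hs hVs
  rw [hfs] at hy
  cases hy
  exact ⟨s, hs, hVs, hsig, by rw [hg.val x hxB]; exact hy2⟩

/-- A zero value at the end of the walk means a new signature. -/
theorem lookup_new (hT : TabOK S B nm t τ f) (hg : Grow B τ f h τ' f' st h')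
    (hx : fol τ' 0 (S.sig nm t) = some x) (h0 : τ' x = 0) :
    ∀ s < t, S.V s → S.sig nm s ≠ S.sig nm t := by
  intro s hs hVs hsig
  obtain ⟨y, hy, hy2⟩ := hT.find s hs hVs
  have hy' := fol_mono hg.mono hy
  rw [hsig, hx] at hy'
  cases hy'
  have := hg.mono x (by rw [hy2]; omega)
  omega

/-- The table after an element with an old signature. -/
theorem TabOK.succ_old (hB : 0 < B) (hT : TabOK S B nm t τ f)
    (hg : Grow B τ f h τ' f' st h') (hsm : Small S B nm (t + 1)) (hVt : S.V t)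
    (hx : fol τ' 0 (S.sig nm t) = some x) {y : ℕ} (hy : τ' x = y + 1) :
    TabOK S B (Function.update nm t y) (t + 1) τ' f' := by
  have hag : ∀ v < t, nm v = Function.update nm t y v := fun v hv => by
    rw [Function.update_of_ne (by omega)]
  have hs : ∀ s, s ≤ t → S.sig (Function.update nm t y) s = S.sig nm s := fun s hs =>
    (Sys.sig_congr fun u hu => hag u (by omega)).symm
  refine ⟨hg.ti, fun s hst hVs => ?_, fun z hzB hzf hz => ?_⟩
  · rcases Nat.lt_succ_iff_lt_or_eq.mp hst with hlt | rfl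
    · obtain ⟨z, hz, hz2⟩ := hT.find s hlt hVs
      refine ⟨z, ?_, ?_⟩
      · rw [hs s hlt.le]; exact fol_mono hg.mono hz
      · rw [← hag s hlt, hg.mono z (by rw [hz2]; omega), hz2]
    · exact ⟨x, by rw [hs s le_rfl]; exact hx, by rw [Function.update_self]; exact hy⟩
  · have hτz : τ z ≠ 0 := by rw [← hg.val z hzB]; exact hz
    have hzf2 : z < f := by
      by_contra hge
      exact hτz (hT.ti.zero z (by omega))
    obtain ⟨s, hst, hVs, hfs⟩ := hT.only z hzB hzf2 hτz
    exact ⟨s, by omega, hVs, by rw [hs s hst.le]; exact fol_mono hg.mono hfs⟩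

/-- The table after an element with a new signature. -/
theorem TabOK.succ_new (hB : 0 < B) (hT : TabOK S B nm t τ f)
    (hg : Grow B τ f h τ' f' st h') (hsm : Small S B nm (t + 1)) (hVt : S.V t)
    (hx : fol τ' 0 (S.sig nm t) = some x) (h0 : τ' x = 0) (y : ℕ) :
    TabOK S B (Function.update nm t y) (t + 1) (Function.update τ' x (y + 1)) f' := by
  have hf0 : 0 < f' := lt_of_lt_of_le hB hg.ti.le
  obtain ⟨hxB, hxf⟩ := hg.ti.fol_node (dvd_zero B) hf0 (hsm t (by omega) hVt) hx
  have hm : ∀ a, τ' a ≠ 0 → Function.update τ' x (y + 1) a = τ' a := by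
    intro a ha
    rw [Function.update_of_ne]
    rintro rfl
    exact ha h0
  have hag : ∀ v < t, nm v = Function.update nm t y v := fun v hv => by
    rw [Function.update_of_ne (by omega)]
  have hs : ∀ s, s ≤ t → S.sig (Function.update nm t y) s = S.sig nm s := fun s hs =>
    (Sys.sig_congr fun u hu => hag u (by omega)).symm
  refine ⟨hg.ti.val hxB hxf _, fun s hst hVs => ?_, fun z hzB hzf hz => ?_⟩
  · rcases Nat.lt_succ_iff_lt_or_eq.mp hst with hlt | rfl
    · obtain ⟨z, hz, hz2⟩ := hT.find s hlt hVs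
      have h1 := hg.mono z (by rw [hz2]; omega)
      refine ⟨z, ?_, ?_⟩
      · rw [hs s hlt.le]; exact fol_mono hm (fol_mono hg.mono hz)
      · rw [← hag s hlt, hm z (by rw [h1, hz2]; omega), h1, hz2]
    · refine ⟨x, ?_, ?_⟩
      · rw [hs s le_rfl]; exact fol_mono hm hx
      · rw [Function.update_self, Function.update_self]
  · by_cases hzx : z = x
    · subst hzx
      exact ⟨t, by omega, hVt, by rw [hs t le_rfl]; exact fol_mono hm hx⟩
    · rw [Function.update_of_ne hzx] at hz
      have hτz : τ z ≠ 0 := by rw [← hg.val z hzB]; exact hz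
      have hzf2 : z < f := by
        by_contra hge
        exact hτz (hT.ti.zero z (by omega))
      obtain ⟨s, hst, hVs, hfs⟩ := hT.only z hzB hzf2 hτz
      exact ⟨s, by omega, hVs, by rw [hs s hst.le]; exact fol_mono hm (fol_mono hg.mono hfs)⟩

/-- The table does not change at an atom. -/
theorem TabOK.succ_atom (hT : TabOK S B nm t τ f) (hVt : ¬ S.V t) (y : ℕ) :
    TabOK S B (Function.update nm t y) (t + 1) τ f := by
  have hag : ∀ v < t, nm v = Function.update nm t y v := fun v hv => by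
    rw [Function.update_of_ne (by omega)]
  have h1 := hT.congr hag
  refine ⟨h1.ti, fun s hst hVs => ?_, fun z hzB hzf hz => ?_⟩
  · rcases Nat.lt_succ_iff_lt_or_eq.mp hst with hlt | rfl
    · exact h1.find s hlt hVs
    · exact absurd hVs hVt
  · obtain ⟨s, hst, hVs, hfs⟩ := h1.only z hzB hzf hz
    exact ⟨s, by omega, hVs, hfs⟩

end Lookup

end Pool.Agent.CCL
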