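import Pool.Agent.CCL.Walk

/-! The undo loop and the naming step. -/

namespace Pool.Agent.CCL

open Ex Cn Prog

theorem undo_spec {s : St} {b : ℕ} (hb : 1 ≤ b) (hle : s.a 15 (s.v 17) ≤ s.v 9) :
    Sp b undoLoop s (fun s' c => s'.v 9 = s.a 15 (s.v 17) ∧
      s'.a 13 = zo (s.a 13) (seg (s.a 14) (s.a 15 (s.v 17)) (s.v 9)) ∧
      c ≤ 20 * (s.v 9 - s.a 15 (s.v 17)) + 20) := by
  refine Sp.mono (Sp.loop (fun s' => s'.a 14 = s.a 14 ∧ s'.a 15 = s.a 15 ∧ s'.v 17 = s.v 17 ∧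
    s.a 15 (s.v 17) ≤ s'.v 9 ∧ s'.v 9 ≤ s.v 9 ∧
    s'.a 13 = zo (s.a 13) (seg (s.a 14) (s'.v 9) (s.v 9)))
    (fun s' => 20 * (s'.v 9 - s.a 15 (s.v 17))) ?_ ?_ ?_) ?_
  · intro s' _
    simp
  · rintro s' ⟨e14, e15, e17, h1, h2, h3⟩ hc
    simp only [Cn.eval, Ex.eval, e15, e17] at hc
    refine Sp.cons (Sp.set (by simp; omega) (Sp.cons (Sp.put (by simp) (by simp) (Sp.nil ?_))))
    simp only [Ex.eval, St.setv_v, St.setv_a, St.seta_v, St.seta_a]
    norm_num
    refine ⟨⟨e14, e15, e17, by omega, by omega, ?_⟩, ?_⟩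
    · rw [h3, e14]
      funext a
      by_cases ha : a = s.a 14 (s'.v 9 - 1)
      · subst ha
        rw [Function.update_self, zo_mem (by exact ⟨_, le_rfl, by omega, rfl⟩)]
      · rw [Function.update_of_ne ha]
        by_cases hm : a ∈ seg (s.a 14) (s'.v 9) (s.v 9)
        · rw [zo_mem hm, zo_mem]
          obtain ⟨i, h4, h5, h6⟩ := hm
          exact ⟨i, by omega, h5, h6⟩
        · rw [zo_not_mem hm, zo_not_mem]
          rintro ⟨i, h4, h5, h6⟩
          rcases Nat.lt_or_ge i (s'.v 9) with h7 | h7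
          · have : i = s'.v 9 - 1 := by omega
            subst this
            exact ha h6.symm
          · exact hm ⟨i, h7, h5, h6⟩
    · omega
  · exact ⟨rfl, rfl, rfl, hle, le_rfl, by rw [seg_self, zo_empty]⟩
  · rintro s' c ⟨⟨e14, e15, e17, h1, h2, h3⟩, hc, hcost⟩
    simp only [Cn.eval, Ex.eval, e15, e17, not_lt] at hc
    have h4 : s'.v 9 = s.a 15 (s.v 17) := by omega
    refine ⟨h4, by rw [h3, h4], ?_⟩
    simp only [Cn.cost, Ex.cost] at hcost
    omega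

/-- The name given to a new element. -/
def newName (s : St) : ℕ :=
  if s.a 11 (s.v 8) = 0 then s.v 8 else s.a 12 (s.a 11 (s.v 8) - 1)

theorem nameNew_spec {s : St} {b : ℕ} (hb : 1 ≤ b) :
    Sp b nameNew s (fun s' c => s' = s.seta 12 (s.v 8) (newName s) ∧ c ≤ 20) := by
  refine Sp.ite (by simp) (fun h => ?_) (fun h => ?_)
  · simp only [Cn.eval, Ex.eval] at h
    refine Sp.put (by simp) (by simp) ⟨?_, by simp⟩
    simp [newName, h]
  · simp only [Cn.eval, Ex.eval] at h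
    refine Sp.put (by simp) (by simp; omega) ⟨?_, by simp⟩
    simp [newName, h]

end Pool.Agent.CCL
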