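import Pool.Agent.CCL.Trie

/-! The walk through the trie, the undo loop and the naming step of the program. -/

namespace Pool.Agent.CCL

open Ex Cn Prog

/-- The word of a vertex element under names. -/
theorem sig_vertex (G : NInst) {pos ord : ℕ → ℕ} (h : OrdOK G pos ord) (nm : ℕ → ℕ) {t : ℕ}
    (ht : G.n ≤ t) (ht2 : t < G.n + G.n) :
    (mkSys G pos ord h).sig nm t = G.lab (ord (t - G.n)) ::
      (G.ch (ord (t - G.n))).map (fun w => nm (elt G.n pos (t - G.n) w)) := by
  simp only [Sys.sig, mkSys, if_pos (And.intro ht ht2), List.map_map]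
  rfl

/-- The loop invariant of the walk. -/
structure WInv (G : NInst) {pos ord : ℕ → ℕ} (h : OrdOK G pos ord) (B t : ℕ) (s s' : St)
    (i : ℕ) : Prop where
  v0 : s'.v 0 = s.v 0
  v7 : s'.v 7 = s.v 7
  v8 : s'.v 8 = s.v 8
  v14 : s'.v 14 = s.v 14
  a2 : s'.a 2 = s.a 2
  a9 : s'.a 9 = s.a 9
  a12 : s'.a 12 = s.a 12
  hi : i ≤ (G.ch (ord (t - G.n))).length + 1
  v13 : s'.v 13 = G.off (ord (t - G.n)) + i
  v12 : ∀ hi : i < ((mkSys G pos ord h).sig (s.a 12) t).length,
    s'.v 12 = ((mkSys G pos ord h).sig (s.a 12) t)[i]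
  fol : fol (s'.a 13) 0 (((mkSys G pos ord h).sig (s.a 12) t).take i) = some (s'.v 11)
  grow : Grow B (s.a 13) (s.v 10) (s.v 9) (s'.a 13) (s'.v 10) (s'.a 14) (s'.v 9)
  hf : s'.v 10 ≤ s.v 10 + B * i
  hsp : s'.v 9 ≤ s.v 9 + i
  st : ∀ i < s.v 9, s'.a 14 i = s.a 14 i

theorem walk_spec (G : NInst) {pos ord : ℕ → ℕ} (h : OrdOK G pos ord) {s : St} {b B t : ℕ}
    (hI : G.Inp s) (ht : G.n ≤ t) (ht2 : t < G.n + G.n) (h8 : s.v 8 = t) (h7 : s.v 7 = B)
    (h11 : s.v 11 = 0) (h12 : s.v 12 = G.lab (ord (t - G.n)))
    (h13 : s.v 13 = G.off (ord (t - G.n))) (h14 : s.v 14 = G.off (ord (t - G.n) + 1) + 1)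
    (hpos : s.a 9 = pos) (hT : TI B (s.a 13) (s.v 10)) (hB : 0 < B)
    (hsm : ∀ c ∈ (mkSys G pos ord h).sig (s.a 12) t, c + 1 < B)
    (hb1 : s.v 10 + B * ((G.ch (ord (t - G.n))).length + 3) ≤ b)
    (hb2 : s.v 9 + (G.ch (ord (t - G.n))).length + 3 ≤ b)
    (hb3 : G.n + G.n + G.m + 2 ≤ b) :
    Sp b walkLoop s (fun s' c => WInv G h B t s s' ((G.ch (ord (t - G.n))).length + 1) ∧
      c ≤ 100 * (2 + (G.ch (ord (t - G.n))).length)) := by
  set vt := ord (t - G.n) with hvt
  set W := (mkSys G pos ord h).sig (s.a 12) t with hW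
  have hvtn : vt < G.n := h.ord_lt _ (by omega)
  have hlen : W.length = (G.ch vt).length + 1 := by
    rw [hW, sig_vertex G h _ ht ht2]
    simp only [List.length_cons, List.length_map]
    rfl
  have hoff : G.off (vt + 1) = G.off vt + (G.ch vt).length := G.off_succ vt
  have hoffm : G.off (vt + 1) ≤ G.m := G.off_le_m (by omega)
  have hW0 : W[0]'(by omega) = G.lab vt := by
    have : W = G.lab vt :: (G.ch vt).map (fun w => s.a 12 (elt G.n pos (t - G.n) w)) := by
      rw [hW, sig_vertex G h _ ht ht2]
    simp only [this, List.getElem_cons_zero]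
  have hWs : ∀ i (hi : i < (G.ch vt).length),
      W[i + 1]'(by omega) = s.a 12 (elt G.n pos (t - G.n) ((G.ch vt)[i])) := by
    intro i hi
    have : W = G.lab vt :: (G.ch vt).map (fun w => s.a 12 (elt G.n pos (t - G.n) w)) := by
      rw [hW, sig_vertex G h _ ht ht2]
    simp only [this, List.getElem_cons_succ, List.getElem_map]
  refine Sp.mono (Sp.loop (fun s' => ∃ i, WInv G h B t s s' i)
    (fun s' => 96 * (s'.v 14 - s'.v 13)) ?_ ?_ ?_) ?_
  · intro s' _
    simp
  · rintro s' ⟨i, w⟩ hc
    simp only [Cn.eval, Ex.eval] at hc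
    have hi : i < (G.ch vt).length + 1 := by
      have h1 := w.v13
      have h2 := w.v14
      rw [← hvt] at h1
      omega
    have hiW : i < W.length := by omega
    have hsy : s'.v 12 = W[i] := w.v12 hiW
    have hsyB : s'.v 12 + 1 < B := by
      rw [hsy]; exact hsm _ (List.getElem_mem hiW)
    have hf0 : 0 < s'.v 10 := lt_of_lt_of_le hB w.grow.ti.le
    obtain ⟨hxB, hxf⟩ := w.grow.ti.fol_node (dvd_zero B) hf0
      (fun c hc => hsm c (List.mem_of_mem_take hc)) w.fol
    have hblk := block_le hxB w.grow.ti.dvd hxf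
    have hfb : s'.v 10 + B + B ≤ b := by
      have h1 := w.hf
      have h2 : B * i ≤ B * ((G.ch vt).length + 1) := Nat.mul_le_mul_left B (by omega)
      have h3 : B * ((G.ch vt).length + 3) = B * ((G.ch vt).length + 1) + B + B := by ring
      omega
    have htake : W.take (i + 1) = W.take i ++ [s'.v 12] := by
      rw [hsy, List.take_succ_eq_append_getElem hiW]
    have hspb := w.hsp
    -- the rest of the body, after the node has been found
    have rest : ∀ s1 : St, s1.v 0 = s.v 0 → s1.v 8 = s.v 8 → s1.v 14 = s.v 14 →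
        s1.v 7 = s.v 7 → s1.a 2 = s.a 2 → s1.a 9 = s.a 9 → s1.a 12 = s.a 12 →
        s1.v 13 = s'.v 13 → s1.v 11 = s'.v 11 → s1.v 12 = s'.v 12 →
        fol (s1.a 13) 0 (W.take i) = some (s'.v 11) →
        Grow B (s.a 13) (s.v 10) (s.v 9) (s1.a 13) (s1.v 10) (s1.a 14) (s1.v 9) →
        s1.v 10 ≤ s.v 10 + B * (i + 1) → s1.v 9 ≤ s.v 9 + (i + 1) →
        (∀ i < s.v 9, s1.a 14 i = s.a 14 i) → s1.a 13 (s'.v 11 + 1 + s'.v 12) ≠ 0 →
        Sp b (blk [
          set 11 (get 13 (add (add (var 11) (const 1)) (var 12))),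
          set 13 (add (var 13) (const 1)),
          ite (lt (var 13) (var 14))
            (blk [
              set 6 (get 9 (get 2 (sub (var 13) (const 1)))),
              ite (lt (var 6) (sub (var 8) (var 0)))
                (set 12 (get 12 (add (var 0) (var 6))))
                (set 12 (get 12 (var 6)))])
            skip]) s1 (fun s2 c => (∃ i, WInv G h B t s s2 i) ∧
              c ≤ 60 ∧ s2.v 14 = s.v 14 ∧ s2.v 13 = s'.v 13 + 1) := by
      intro s1 e0 e8 e14 e7 ea2 ea9 ea12 e13 e11 e12 hfol hgr hf1 hsp1 hst1 hne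
      have hfol1 : fol (s1.a 13) 0 (W.take (i + 1)) =
          some (s1.a 13 (s'.v 11 + 1 + s'.v 12)) := by
        rw [htake, fol_snoc]
        exact ⟨s'.v 11, hfol, rfl, hne⟩
      have h13' : s'.v 13 = G.off vt + i := w.v13
      refine Sp.cons (Sp.set (by simp [e11, e12]; omega) ?_)
      refine Sp.cons (Sp.set (by simp [St.setv_v, e13]; omega) ?_)
      simp only [Ex.eval, St.setv_v, St.setv_a, e11, e12, e13]
      refine Sp.cons (Sp.ite (by simp) (fun hlt => ?_) (fun hge => ?_))
      · simp only [Cn.eval, Ex.eval, St.setv_v] at hlt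
        norm_num at hlt
        rw [e14, h14, hoff, h13'] at hlt
        have hi1 : i < (G.ch vt).length := by omega
        have hchild : s.a 2 (G.off vt + i) = (G.ch vt)[i] := hI.ch vt hvtn i hi1
        refine Sp.cons (Sp.set (by simp; omega) ?_)
        have hw : (((s1.setv 11 (s1.a 13 (s'.v 11 + 1 + s'.v 12))).setv 13
            (s'.v 13 + 1))).a 9 ((((s1.setv 11 (s1.a 13 (s'.v 11 + 1 + s'.v 12))).setv 13
            (s'.v 13 + 1))).a 2 (s'.v 13)) = pos ((G.ch vt)[i]) := by
          simp only [St.setv_a, ea9, ea2, hpos, h13', hchild]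
        have hcn : (G.ch vt)[i] < G.n := G.hch vt hvtn _ (List.getElem_mem hi1)
        have hpn : pos ((G.ch vt)[i]) < G.n := h.pos_lt _ hcn
        refine Sp.cons (Sp.ite (by simp) (fun hlt2 => ?_) (fun hge2 => ?_))
        · simp only [Cn.eval, Ex.eval, St.setv_v, St.setv_a] at hlt2
          norm_num at hlt2
          rw [ea9, ea2, hpos, h13', hchild, e8, h8, e0, hI.hn] at hlt2
          refine Sp.set (by
            simp [St.setv_v, ea9, ea2, hpos, h13', hchild, e0, hI.hn]; omega) ?_
          refine Sp.nil (Sp.nil ?_)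
          refine ⟨⟨i + 1, ?_⟩, ?_, ?_, ?_⟩
          · refine ⟨?_, ?_, ?_, ?_, ?_, ?_, ?_, ?_, ?_, ?_, ?_, ?_, ?_, ?_, ?_⟩
            · simp [St.setv_v, e0]
            · simp [St.setv_v, e7]
            · simp [St.setv_v, e8]
            · simp [St.setv_v, e14]
            · simp [ea2]
            · simp [ea9]
            · simp [ea12]
            · rw [← hvt]; omega
            · rw [← hvt]; simp [St.setv_v, h13', add_assoc]
            · intro hi2
              rw [hWs i hi1]
              simp [St.setv_v, ea9, ea2, ea12, hpos, h13', hchild, e0, hI.hn, elt, hlt2]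
            · simpa [St.setv_v] using hfol1
            · simpa [St.setv_v] using hgr
            · simpa [St.setv_v] using hf1
            · simpa [St.setv_v] using hsp1
            · simpa using hst1
          · simp
          · simp [St.setv_v, e14]
          · simp [St.setv_v]
        · simp only [Cn.eval, Ex.eval, St.setv_v, St.setv_a] at hge2
          norm_num at hge2
          rw [ea9, ea2, hpos, h13', hchild, e8, h8, e0, hI.hn] at hge2
          refine Sp.set (by simp) ?_
          refine Sp.nil (Sp.nil ?_)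
          refine ⟨⟨i + 1, ?_⟩, ?_, ?_, ?_⟩
          · refine ⟨?_, ?_, ?_, ?_, ?_, ?_, ?_, ?_, ?_, ?_, ?_, ?_, ?_, ?_, ?_⟩
            · simp [St.setv_v, e0]
            · simp [St.setv_v, e7]
            · simp [St.setv_v, e8]
            · simp [St.setv_v, e14]
            · simp [ea2]
            · simp [ea9]
            · simp [ea12]
            · rw [← hvt]; omega
            · rw [← hvt]; simp [St.setv_v, h13', add_assoc]
            · intro hi2
              rw [hWs i hi1, elt, if_neg (show ¬ pos ((G.ch vt)[i]) < t - G.n by omega)]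
              simp [St.setv_v, ea9, ea2, ea12, hpos, h13', hchild]
            · simpa [St.setv_v] using hfol1
            · simpa [St.setv_v] using hgr
            · simpa [St.setv_v] using hf1
            · simpa [St.setv_v] using hsp1
            · simpa using hst1
          · simp
          · simp [St.setv_v, e14]
          · simp [St.setv_v]
      · simp only [Cn.eval, Ex.eval, St.setv_v] at hge
        norm_num at hge
        rw [e14, h14, hoff, h13'] at hge
        refine Sp.skip (Sp.nil ?_)
        refine ⟨⟨i + 1, ?_⟩, ?_, ?_, ?_⟩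
        · refine ⟨?_, ?_, ?_, ?_, ?_, ?_, ?_, ?_, ?_, ?_, ?_, ?_, ?_, ?_, ?_⟩
          · simp [St.setv_v, e0]
          · simp [St.setv_v, e7]
          · simp [St.setv_v, e8]
          · simp [St.setv_v, e14]
          · simp [ea2]
          · simp [ea9]
          · simp [ea12]
          · rw [← hvt]; omega
          · rw [← hvt]; simp [St.setv_v, h13', add_assoc]
          · intro hi2
            exfalso
            rw [← hW] at hi2
            omega
          · simpa [St.setv_v] using hfol1
          · simpa [St.setv_v] using hgr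
          · simpa [St.setv_v] using hf1
          · simpa [St.setv_v] using hsp1
          · simpa using hst1
        · simp
        · simp [St.setv_v, e14]
        · simp [St.setv_v]
    refine Sp.cons (Sp.ite (by simp; omega) (fun hz => ?_) (fun hnz => ?_))
    · simp only [Cn.eval, Ex.eval] at hz
      refine Sp.cons (Sp.put (by simp; omega) (by simp) ?_)
      refine Sp.cons (Sp.put (by simp) (by simp; omega) ?_)
      refine Sp.cons (Sp.set (by simp; omega) ?_)
      refine Sp.cons (Sp.set (by simp [St.setv_v, w.v7, h7]; omega) ?_)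
      refine Sp.nil ?_
      simp only [Ex.eval, St.setv_v, St.seta_v, St.setv_a]
      norm_num
      refine Sp.mono (rest _ ?_ ?_ ?_ ?_ ?_ ?_ ?_ ?_ ?_ ?_ ?_ ?_ ?_ ?_ ?_ ?_) ?_
      all_goals try simp only [St.setv_v, St.seta_v, St.setv_a, St.seta_a]
      all_goals try norm_num
      · exact w.v0
      · exact w.v8
      · exact w.v14
      · exact w.v7
      · exact w.a2
      · exact w.a9
      · exact w.a12
      · refine fol_mono (fun a ha => ?_) w.fol
        rw [Function.update_of_ne]
        rintro rfl; exact ha hz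
      · rw [w.v7, h7]
        exact w.grow.step hxB hxf hsyB hz
      · have h1 := w.hf
        have h3 : B * (i + 1) = B * i + B := by ring
        rw [w.v7, h7]; omega
      · omega
      · intro i hi
        have := w.grow.hh
        rw [Function.update_of_ne (by omega)]
        exact w.st i hi
      · omega
      · intro s2 c i hs2 hcost e14' e13'
        refine ⟨⟨i, hs2⟩, ?_⟩
        have h14' := w.v14
        rw [e14', e13', ← h14']
        omega
    · simp only [Cn.eval, Ex.eval] at hnz
      refine Sp.skip ?_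
      refine Sp.mono (rest s' w.v0 w.v8 w.v14 w.v7 w.a2 w.a9 w.a12 rfl rfl rfl w.fol
        w.grow ?_ ?_ w.st hnz) ?_
      · have h1 := w.hf
        have h3 : B * (i + 1) = B * i + B := by ring
        omega
      · have := w.hsp; omega
      · rintro s2 c ⟨hs2, hcost, e14', e13'⟩
        refine ⟨hs2, ?_⟩
        have h14' := w.v14
        simp only [Cn.cost, Ex.cost]
        rw [e14', e13', ← h14']
        omega
  · refine ⟨0, rfl, rfl, rfl, rfl, rfl, rfl, rfl, by omega, by simpa using h13, fun hi => ?_,
      by simp [fol, h11], Grow.rfl' hT _, by omega, by omega, fun _ _ => rfl⟩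
    rw [h12, ← hW0]
  · rintro s' c ⟨⟨i, w⟩, hc, hcost⟩
    simp only [Cn.eval, Ex.eval, not_lt] at hc
    have h1 := w.v13
    have h2 := w.v14
    have h3 := w.hi
    rw [← hvt] at h1 h3
    rw [h2, h14, hoff, h1] at hc
    have hi : i = (G.ch vt).length + 1 := by omega
    subst hi
    refine ⟨w, ?_⟩
    simp only [Cn.cost, Ex.cost] at hcost
    rw [h13, h14, hoff] at hcost
    have h5 : G.off vt + (G.ch vt).length + 1 - G.off vt = (G.ch vt).length + 1 := by omega
    rw [h5] at hcost
    omega

end Pool.Agent.CCL
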